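import Mathlib

/-!
The three-dimensional grid `[k]^3`: counting the points of a level in residue classes of
`y + 2 z` modulo `5`, and an upper bound for antichains.
-/

namespace Pool.Agent.R127.GridThree

open Finset

/-- The grid `[k]^d`: the functions `Fin d → ℕ` with values in `{1, ..., k}`. -/
def grid (d k : ℕ) : Finset (Fin d → ℕ) := Fintype.piFinset fun _ => Finset.Icc 1 k

theorem mem_grid {d k : ℕ} {p : Fin d → ℕ} : p ∈ grid d k ↔ ∀ i, 1 ≤ p i ∧ p i ≤ k := by
  simp [grid]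

/-! ### the points of a level, given by their last two coordinates -/

/-- the pairs `(y, z)` such that `(s - y - z, y, z)` is in the grid -/
def Pr (k s : ℕ) : Finset (ℕ × ℕ) :=
  (Icc 1 k ×ˢ Icc 1 k).filter fun p => p.1 + p.2 + 1 ≤ s ∧ s ≤ p.1 + p.2 + k

/-- the pairs in a residue class -/
def Pc (k s c : ℕ) : Finset (ℕ × ℕ) := (Pr k s).filter fun p => (p.1 + 2 * p.2) % 5 = c

theorem mem_Pr {k s : ℕ} {p : ℕ × ℕ} : p ∈ Pr k s ↔
    1 ≤ p.1 ∧ p.1 ≤ k ∧ 1 ≤ p.2 ∧ p.2 ≤ k ∧ p.1 + p.2 + 1 ≤ s ∧ s ≤ p.1 + p.2 + k := by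
  simp only [Pr, mem_filter, mem_product, mem_Icc]
  tauto

theorem mem_Pc {k s c : ℕ} {p : ℕ × ℕ} : p ∈ Pc k s c ↔ p ∈ Pr k s ∧ (p.1 + 2 * p.2) % 5 = c := by
  simp [Pc]

theorem card_Pc_shift (k s c c' : ℕ) (hc : c' = (c + 1) % 5) :
    (Pc k s c).card ≤ (Pc k s c').card + 2 * k := by
  have h1 : Pc k s c ⊆ ((Pc k s c).filter fun p => p.1 = k) ∪
      (((Pc k s c).filter fun p => s = p.1 + p.2 + 1) ∪
        ((Pc k s c).filter fun p => p.1 ≠ k ∧ s ≠ p.1 + p.2 + 1)) := by
    intro p hp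
    simp only [mem_union, mem_filter]
    tauto
  have h2 : ((Pc k s c).filter fun p => p.1 = k).card ≤ k := by
    have : ((Pc k s c).filter fun p => p.1 = k).card ≤ (Icc 1 k).card := by
      apply card_le_card_of_injOn (fun p => p.2)
      · intro p hp
        simp only [coe_filter, Set.mem_ofPred_eq, mem_Pc, mem_Pr] at hp
        simp only [coe_Icc, Set.mem_Icc]
        omega
      · rintro ⟨a, b⟩ hp ⟨a', b'⟩ hp' h
        simp only [coe_filter, Set.mem_ofPred_eq, mem_Pc, mem_Pr] at hp hp' h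
        simp only [Prod.mk.injEq]
        omega
    simpa using this
  have h3 : ((Pc k s c).filter fun p => s = p.1 + p.2 + 1).card ≤ k := by
    have : ((Pc k s c).filter fun p => s = p.1 + p.2 + 1).card ≤ (Icc 1 k).card := by
      apply card_le_card_of_injOn (fun p => p.2)
      · intro p hp
        simp only [coe_filter, Set.mem_ofPred_eq, mem_Pc, mem_Pr] at hp
        simp only [coe_Icc, Set.mem_Icc]
        omega
      · rintro ⟨a, b⟩ hp ⟨a', b'⟩ hp' h
        simp only [coe_filter, Set.mem_ofPred_eq, mem_Pc, mem_Pr] at hp hp' h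
        simp only [Prod.mk.injEq]
        omega
    simpa using this
  have h4 : ((Pc k s c).filter fun p => p.1 ≠ k ∧ s ≠ p.1 + p.2 + 1).card ≤ (Pc k s c').card := by
    apply card_le_card_of_injOn (fun p => (p.1 + 1, p.2))
    · intro p hp
      simp only [coe_filter, Set.mem_ofPred_eq, mem_Pc, mem_Pr] at hp
      simp only [mem_coe, mem_Pc, mem_Pr]
      omega
    · rintro ⟨a, b⟩ hp ⟨a', b'⟩ hp' h
      simp only [Prod.mk.injEq] at h ⊢
      omega
  have h5 := card_le_card h1
  have h6 := card_union_le ((Pc k s c).filter fun p => p.1 = k)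
    (((Pc k s c).filter fun p => s = p.1 + p.2 + 1) ∪
        ((Pc k s c).filter fun p => p.1 ≠ k ∧ s ≠ p.1 + p.2 + 1))
  have h7 := card_union_le ((Pc k s c).filter fun p => s = p.1 + p.2 + 1)
    ((Pc k s c).filter fun p => p.1 ≠ k ∧ s ≠ p.1 + p.2 + 1)
  omega

theorem card_Pr_eq (k s : ℕ) : (Pr k s).card = (Pc k s 0).card + (Pc k s 1).card +
    (Pc k s 2).card + (Pc k s 3).card + (Pc k s 4).card := by
  have : (Pr k s).card = ∑ c ∈ range 5, (Pc k s c).card :=
    card_eq_sum_card_fiberwise (f := fun p : ℕ × ℕ => (p.1 + 2 * p.2) % 5) (by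
      intro p _
      simp only [coe_range, Set.mem_Iio]
      omega)
  rw [this]
  simp [Finset.sum_range_succ]

/-- every residue class contains about a fifth of the level -/
theorem card_Pc_ge (k s c : ℕ) (hc : c < 5) : (Pr k s).card ≤ 5 * (Pc k s c).card + 20 * k := by
  have h0 := card_Pc_shift k s 0 1 rfl
  have h1 := card_Pc_shift k s 1 2 rfl
  have h2 := card_Pc_shift k s 2 3 rfl
  have h3 := card_Pc_shift k s 3 4 rfl
  have h4 := card_Pc_shift k s 4 0 rfl
  have h5 := card_Pr_eq k s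
  interval_cases c <;> omega

/-- the number of points in the level `m + k + 1` -/
theorem card_Pr_ge (k m : ℕ) : ∑ z ∈ range k, (k - (m - (z + 1)) - (z + 1 - m)) ≤
    (Pr k (m + k + 1)).card := by
  rw [← Finset.card_range (∑ z ∈ range k, (k - (m - (z + 1)) - (z + 1 - m)))]
  rw [Finset.card_range]
  have : ∑ z ∈ range k, (k - (m - (z + 1)) - (z + 1 - m)) =
      ((range k).sigma fun z => range (k - (m - (z + 1)) - (z + 1 - m))).card := by
    rw [card_sigma]
    simp
  rw [this]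
  apply card_le_card_of_injOn (fun p : (_ : ℕ) × ℕ => ((m - (p.1 + 1)) + 1 + p.2, p.1 + 1))
  · rintro ⟨z, j⟩ hp
    simp only [coe_sigma, Set.mem_sigma_iff, mem_coe, mem_range] at hp
    simp only [mem_coe, mem_Pr]
    omega
  · rintro ⟨z, j⟩ _ ⟨z', j'⟩ _ h
    simp only [Prod.mk.injEq] at h
    obtain ⟨h1, h2⟩ := h
    have : z = z' := by omega
    subst this
    have : j = j' := by omega
    subst this
    rfl

theorem sum_formula (k m : ℕ) (hm : m ≤ k) :
    (k : ℝ) ^ 2 - m * (m - 1) / 2 - (k - m) * (k - m + 1) / 2 ≤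
      ((∑ z ∈ range k, (k - (m - (z + 1)) - (z + 1 - m)) : ℕ) : ℝ) := by
  have h1 : ∀ z ∈ range k, (k : ℝ) - |(m : ℝ) - (z + 1)| ≤
      ((k - (m - (z + 1)) - (z + 1 - m) : ℕ) : ℝ) := by
    intro z _
    rcases le_total m (z + 1) with h | h
    · have e1 : m - (z + 1) = 0 := by omega
      have h' : (m : ℝ) ≤ z + 1 := by exact_mod_cast h
      rw [e1, abs_of_nonpos (by linarith), Nat.sub_zero]
      have e2 : (k : ℝ) ≤ ((k - (z + 1 - m) : ℕ) : ℝ) + ((z + 1 - m : ℕ) : ℝ) := by
        have : k ≤ (k - (z + 1 - m)) + (z + 1 - m) := by omega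
        exact_mod_cast this
      rw [Nat.cast_sub h] at e2
      push_cast at e2
      linarith
    · have e1 : z + 1 - m = 0 := by omega
      have h' : (z : ℝ) + 1 ≤ m := by exact_mod_cast h
      rw [e1, abs_of_nonneg (by linarith), Nat.sub_zero]
      have e2 : (k : ℝ) ≤ ((k - (m - (z + 1)) : ℕ) : ℝ) + ((m - (z + 1) : ℕ) : ℝ) := by
        have : k ≤ (k - (m - (z + 1))) + (m - (z + 1)) := by omega
        exact_mod_cast this
      rw [Nat.cast_sub h] at e2
      push_cast at e2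
      linarith
  have h2 : ∀ j ≤ m, ∑ z ∈ range j, |(m : ℝ) - (z + 1)| = j * m - j * (j + 1) / 2 := by
    intro j hj
    induction j with
    | zero => simp
    | succ j ih =>
      rw [Finset.sum_range_succ, ih (by omega)]
      have h' : (j : ℝ) + 1 ≤ m := by exact_mod_cast hj
      rw [abs_of_nonneg (by linarith)]
      push_cast
      ring
  have h3 : ∀ n : ℕ, ∑ z ∈ range (m + n), |(m : ℝ) - (z + 1)| =
      m * (m - 1) / 2 + n * (n + 1) / 2 := by
    intro n
    induction n with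
    | zero =>
      rw [Nat.add_zero, h2 m le_rfl]
      push_cast
      ring
    | succ n ih =>
      rw [← Nat.add_assoc, Finset.sum_range_succ, ih]
      rw [abs_of_nonpos (by push_cast; linarith [Nat.cast_nonneg (α := ℝ) n])]
      push_cast
      ring
  have h4 : ∑ z ∈ range k, |(m : ℝ) - (z + 1)| = m * (m - 1) / 2 + (k - m) * (k - m + 1) / 2 := by
    have := h3 (k - m)
    rw [Nat.add_sub_cancel' hm, Nat.cast_sub hm] at this
    exact this
  push_cast [Nat.cast_sum]
  calc (k : ℝ) ^ 2 - m * (m - 1) / 2 - (k - m) * (k - m + 1) / 2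
      = ∑ z ∈ range k, ((k : ℝ) - |(m : ℝ) - (z + 1)|) := by
        rw [Finset.sum_sub_distrib, h4, Finset.sum_const, card_range, nsmul_eq_mul]
        ring
    _ ≤ ∑ z ∈ range k, ((k - (m - (z + 1)) - (z + 1 - m) : ℕ) : ℝ) := Finset.sum_le_sum h1

/-- the levels near the middle have about `3 k² / 4` points -/
theorem card_Pr_mid (k m : ℕ) (hm : m ≤ k) (h1 : k ≤ 2 * m + 4) (h2 : 2 * m ≤ k + 4) :
    3 / 4 * (k : ℝ) ^ 2 - 6 ≤ (Pr k (m + k + 1)).card := by
  have a1 := sum_formula k m hm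
  have a2 : ((∑ z ∈ range k, (k - (m - (z + 1)) - (z + 1 - m)) : ℕ) : ℝ) ≤
      (Pr k (m + k + 1)).card := by exact_mod_cast card_Pr_ge k m
  refine le_trans ?_ (le_trans a1 a2)
  have b1 : (k : ℝ) ≤ 2 * m + 4 := by exact_mod_cast h1
  have b2 : 2 * (m : ℝ) ≤ k + 4 := by exact_mod_cast h2
  nlinarith

/-! ### antichains -/

/-- antichains in `[k]^3` have at most `3 k² / 4 + 1` elements -/
theorem antichain_le (k : ℕ) (A : Finset (Fin 3 → ℕ)) (hA : A ⊆ grid 3 k)
    (hanti : IsAntichain (· ≤ ·) (A : Set (Fin 3 → ℕ))) :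
    (A.card : ℝ) ≤ 3 / 4 * (k : ℝ) ^ 2 + 1 := by
  -- the hook of a point
  let hk : (Fin 3 → ℕ) → ℕ := fun p => k - min (p 0) (k + 1 - p 1)
  have hmem : ∀ p ∈ A, 1 ≤ p 0 ∧ p 0 ≤ k ∧ 1 ≤ p 1 ∧ p 1 ≤ k ∧ 1 ≤ p 2 ∧ p 2 ≤ k := by
    intro p hp
    have := mem_grid.mp (hA hp)
    have h0 := this 0
    have h1 := this 1
    have h2 := this 2
    omega
  have hcomp : ∀ p ∈ A, ∀ q ∈ A, hk p = hk q → (p 2 = q 2 ∨ p 0 + p 1 = q 0 + q 1) → p = q := by
    intro p hp q hq hpq hor
    by_contra hne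
    obtain ⟨a1, a2, a3, a4, a5, a6⟩ := hmem p hp
    obtain ⟨b1, b2, b3, b4, b5, b6⟩ := hmem q hq
    have hh : k - min (p 0) (k + 1 - p 1) = k - min (q 0) (k + 1 - q 1) := hpq
    have hle : ∀ p q : Fin 3 → ℕ, p 0 ≤ q 0 → p 1 ≤ q 1 → p 2 ≤ q 2 → p ≤ q := by
      intro p q h0 h1 h2 i
      fin_cases i
      · exact h0
      · exact h1
      · exact h2
    have hcase : (p 0 ≤ q 0 ∧ p 1 ≤ q 1) ∨ (q 0 ≤ p 0 ∧ q 1 ≤ p 1) := by omega
    have hcase2 : (p 0 ≤ q 0 ∧ p 1 ≤ q 1 ∧ p 2 ≤ q 2) ∨ (q 0 ≤ p 0 ∧ q 1 ≤ p 1 ∧ q 2 ≤ p 2) := by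
      omega
    rcases hcase2 with h | h
    · exact hanti hp hq hne (hle p q h.1 h.2.1 h.2.2)
    · exact hanti hq hp (Ne.symm hne) (hle q p h.1 h.2.1 h.2.2)
  have hfib : ∀ i ∈ range k, (A.filter fun p => hk p = i).card ≤ min (2 * i + 1) k := by
    intro i hi
    rw [mem_range] at hi
    rw [le_min_iff]
    constructor
    · have : (A.filter fun p => hk p = i).card ≤ (Icc (k - i + 1) (k + i + 1)).card := by
        apply card_le_card_of_injOn (fun p => p 0 + p 1)
        · intro p hp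
          simp only [coe_filter, Set.mem_ofPred_eq] at hp
          obtain ⟨a1, a2, a3, a4, a5, a6⟩ := hmem p hp.1
          have hh : k - min (p 0) (k + 1 - p 1) = i := hp.2
          simp only [coe_Icc, Set.mem_Icc]
          omega
        · intro p hp q hq h
          simp only [coe_filter, Set.mem_ofPred_eq] at hp hq
          exact hcomp p hp.1 q hq.1 (hp.2.trans hq.2.symm) (Or.inr h)
      rw [Nat.card_Icc] at this
      omega
    · have : (A.filter fun p => hk p = i).card ≤ (Icc 1 k).card := by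
        apply card_le_card_of_injOn (fun p => p 2)
        · intro p hp
          simp only [coe_filter, Set.mem_ofPred_eq] at hp
          obtain ⟨a1, a2, a3, a4, a5, a6⟩ := hmem p hp.1
          simp only [coe_Icc, Set.mem_Icc]
          omega
        · intro p hp q hq h
          simp only [coe_filter, Set.mem_ofPred_eq] at hp hq
          exact hcomp p hp.1 q hq.1 (hp.2.trans hq.2.symm) (Or.inl h)
      simpa using this
  have hcard : A.card = ∑ i ∈ range k, (A.filter fun p => hk p = i).card := by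
    apply card_eq_sum_card_fiberwise
    intro p hp
    obtain ⟨a1, a2, a3, a4, a5, a6⟩ := hmem p hp
    simp only [coe_range, Set.mem_Iio, hk]
    omega
  have hsum : A.card ≤ ∑ i ∈ range k, min (2 * i + 1) k := by
    rw [hcard]
    exact Finset.sum_le_sum hfib
  have hbound : ∑ i ∈ range k, min (2 * i + 1) k ≤ (k / 2) ^ 2 + (k - k / 2) * k := by
    have e1 : k = k / 2 + (k - k / 2) := by omega
    have e2 : ∑ i ∈ range k, min (2 * i + 1) k =
        ∑ i ∈ range (k / 2), min (2 * i + 1) k +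
          ∑ i ∈ range (k - k / 2), min (2 * (k / 2 + i) + 1) k := by
      rw [← Finset.sum_range_add (fun i => min (2 * i + 1) k), ← e1]
    rw [e2]
    apply add_le_add
    · have : ∀ n : ℕ, ∑ i ∈ range n, (2 * i + 1) = n ^ 2 := by
        intro n
        induction n with
        | zero => simp
        | succ n ih =>
          rw [Finset.sum_range_succ, ih]
          ring
      rw [← this]
      exact Finset.sum_le_sum fun i _ => min_le_left _ _
    · refine le_trans (Finset.sum_le_sum fun i _ => min_le_right _ k) ?_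
      rw [Finset.sum_const, card_range, smul_eq_mul]
  have h3 : (A.card : ℝ) ≤ ((k / 2 : ℕ) : ℝ) ^ 2 + (k - ((k / 2 : ℕ) : ℝ)) * k := by
    have : A.card ≤ (k / 2) ^ 2 + (k - k / 2) * k := le_trans hsum hbound
    have h4 : (A.card : ℝ) ≤ (((k / 2) ^ 2 + (k - k / 2) * k : ℕ) : ℝ) := by exact_mod_cast this
    rw [Nat.cast_add, Nat.cast_mul, Nat.cast_sub (Nat.div_le_self k 2)] at h4
    push_cast at h4
    exact h4
  have h5 : (k : ℝ) ≤ 2 * ((k / 2 : ℕ) : ℝ) + 1 := by
    have : k ≤ 2 * (k / 2) + 1 := by omega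
    exact_mod_cast this
  have h6 : 2 * ((k / 2 : ℕ) : ℝ) ≤ k := by
    have : 2 * (k / 2) ≤ k := by omega
    exact_mod_cast this
  nlinarith

end Pool.Agent.R127.GridThree
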