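import Mathlib
import Pool.Agent.R127.GridThree

/-!
A family in the grid `[k]^3` without a strong copy of `∨₂` of relative density `7/5`.
-/

namespace Pool.Agent.R127.VeeThree

open Finset Pool.Agent.R127.GridThree

/-- The finite set `F` of points contains no strong (induced) copy of the poset `∨₂` (`a < b₁`,
`a < b₂`, `b₁` and `b₂` incomparable). -/
def VeeFree {d : ℕ} (F : Finset (Fin d → ℕ)) : Prop :=
  ¬ ∃ a ∈ F, ∃ b₁ ∈ F, ∃ b₂ ∈ F, a < b₁ ∧ a < b₂ ∧ ¬ b₁ ≤ b₂ ∧ ¬ b₂ ≤ b₁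

/-- `La⋆([k]^d, ∨₂)`: the largest size of a subset of `[k]^d` without a strong copy of `∨₂`. -/
noncomputable def LaVee (d k : ℕ) : ℕ := sSup {n | ∃ F ⊆ grid d k, VeeFree F ∧ F.card = n}

/-- `w_{k,d}`: the largest size of an antichain in `[k]^d`. -/
noncomputable def w (d k : ℕ) : ℕ :=
  sSup {n | ∃ A ⊆ grid d k, IsAntichain (· ≤ ·) (A : Set (Fin d → ℕ)) ∧ A.card = n}

theorem le_sSup_card {d k : ℕ} {Q : Finset (Fin d → ℕ) → Prop} {F : Finset (Fin d → ℕ)}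
    (hF : F ⊆ grid d k) (hQ : Q F) : F.card ≤ sSup {n | ∃ F ⊆ grid d k, Q F ∧ F.card = n} := by
  apply le_csSup
  · refine ⟨(grid d k).card, ?_⟩
    rintro n ⟨G, hG, -, rfl⟩
    exact card_le_card hG
  · exact ⟨F, hF, hQ, rfl⟩

theorem sSup_card_le {d k : ℕ} {Q : Finset (Fin d → ℕ) → Prop} (h0 : Q ∅) (B : ℝ)
    (h : ∀ F ⊆ grid d k, Q F → (F.card : ℝ) ≤ B) :
    ((sSup {n | ∃ F ⊆ grid d k, Q F ∧ F.card = n} : ℕ) : ℝ) ≤ B := by
  have hne : {n | ∃ F ⊆ grid d k, Q F ∧ F.card = n}.Nonempty := ⟨0, ∅, empty_subset _, h0, rfl⟩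
  have hbdd : BddAbove {n | ∃ F ⊆ grid d k, Q F ∧ F.card = n} := by
    refine ⟨(grid d k).card, ?_⟩
    rintro n ⟨G, hG, -, rfl⟩
    exact card_le_card hG
  obtain ⟨F, hF, hQ, hc⟩ := Nat.sSup_mem hne hbdd
  rw [← hc]
  exact h F hF hQ

/-- the points of a level in a residue class -/
def Cl (k s c : ℕ) : Finset (Fin 3 → ℕ) :=
  (grid 3 k).filter fun p => p 0 + p 1 + p 2 = s ∧ (p 1 + 2 * p 2) % 5 = c

/-- the points of a level -/
def Lv (k s : ℕ) : Finset (Fin 3 → ℕ) := (grid 3 k).filter fun p => p 0 + p 1 + p 2 = s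

theorem mem_grid3 {k : ℕ} {p : Fin 3 → ℕ} : p ∈ grid 3 k ↔
    (1 ≤ p 0 ∧ p 0 ≤ k) ∧ (1 ≤ p 1 ∧ p 1 ≤ k) ∧ (1 ≤ p 2 ∧ p 2 ≤ k) := by
  rw [mem_grid, Fin.forall_fin_succ, Fin.forall_fin_succ, Fin.forall_fin_succ]
  simp

theorem card_Cl (k s c : ℕ) : (Pc k s c).card ≤ (Cl k s c).card := by
  apply card_le_card_of_injOn (fun p : ℕ × ℕ => ![s - p.1 - p.2, p.1, p.2])
  · rintro ⟨y, z⟩ hp
    simp only [mem_coe, mem_Pc, mem_Pr] at hp
    simp only [Cl, coe_filter, mem_grid3, Set.mem_ofPred_eq, Matrix.cons_val_zero, Matrix.cons_val_one,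
      Matrix.cons_val]
    omega
  · rintro ⟨y, z⟩ _ ⟨y', z'⟩ _ h
    have h1 := congrFun h 1
    have h2 := congrFun h 2
    simp only [Matrix.cons_val_one, Matrix.cons_val] at h1 h2
    simp only [Prod.mk.injEq]
    exact ⟨h1, h2⟩

theorem card_Lv (k s : ℕ) : (Pr k s).card ≤ (Lv k s).card := by
  apply card_le_card_of_injOn (fun p : ℕ × ℕ => ![s - p.1 - p.2, p.1, p.2])
  · rintro ⟨y, z⟩ hp
    simp only [mem_coe, mem_Pr] at hp
    simp only [Lv, coe_filter, mem_grid3, Set.mem_ofPred_eq, Matrix.cons_val_zero, Matrix.cons_val_one,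
      Matrix.cons_val]
    omega
  · rintro ⟨y, z⟩ _ ⟨y', z'⟩ _ h
    have h1 := congrFun h 1
    have h2 := congrFun h 2
    simp only [Matrix.cons_val_one, Matrix.cons_val] at h1 h2
    simp only [Prod.mk.injEq]
    exact ⟨h1, h2⟩

theorem lt_iff3 {a b : Fin 3 → ℕ} (h : a < b) :
    a 0 ≤ b 0 ∧ a 1 ≤ b 1 ∧ a 2 ≤ b 2 ∧ a 0 + a 1 + a 2 < b 0 + b 1 + b 2 := by
  obtain ⟨h1, h2⟩ := Pi.lt_def.mp h
  have e0 : a 0 ≤ b 0 := h1 0
  have e1 : a 1 ≤ b 1 := h1 1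
  have e2 : a 2 ≤ b 2 := h1 2
  have e3 : a 0 < b 0 ∨ a 1 < b 1 ∨ a 2 < b 2 := by
    obtain ⟨i, h2⟩ := h2
    fin_cases i
    · exact Or.inl h2
    · exact Or.inr (Or.inl h2)
    · exact Or.inr (Or.inr h2)
  refine ⟨e0, e1, e2, ?_⟩
  clear h1 h2 h
  generalize a 0 = a0 at *
  generalize a 1 = a1 at *
  generalize a 2 = a2 at *
  generalize b 0 = b0 at *
  generalize b 1 = b1 at *
  generalize b 2 = b2 at *
  omega

theorem le_iff3 {a b : Fin 3 → ℕ} : a ≤ b ↔ a 0 ≤ b 0 ∧ a 1 ≤ b 1 ∧ a 2 ≤ b 2 := by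
  constructor
  · intro h
    exact ⟨h 0, h 1, h 2⟩
  · rintro ⟨h0, h1, h2⟩ i
    fin_cases i
    · exact h0
    · exact h1
    · exact h2

/-- the family: three consecutive levels from `s` on, with the residues `0, 1, 3, 4`, then `2, 4`, then
`4` of `y + 2 z` modulo `5` -/
def Fam (k s : ℕ) : Finset (Fin 3 → ℕ) :=
  (grid 3 k).filter fun p =>
    (p 0 + p 1 + p 2 = s ∧ (p 1 + 2 * p 2) % 5 ≠ 2) ∨
    (p 0 + p 1 + p 2 = s + 1 ∧ ((p 1 + 2 * p 2) % 5 = 2 ∨ (p 1 + 2 * p 2) % 5 = 4)) ∨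
    (p 0 + p 1 + p 2 = s + 2 ∧ (p 1 + 2 * p 2) % 5 = 4)

theorem Fam_subset (k s : ℕ) : Fam k s ⊆ grid 3 k := filter_subset _ _

/-- the family has no strong copy of `∨₂` -/
theorem Fam_free (k s : ℕ) : VeeFree (Fam k s) := by
  rintro ⟨a, ha, b, hb, c, hc, hab, hac, h1, h2⟩
  obtain ⟨a0, a1, a2, a3⟩ := lt_iff3 hab
  obtain ⟨b0, b1, b2, b3⟩ := lt_iff3 hac
  rw [le_iff3] at h1 h2
  simp only [Fam, mem_filter] at ha hb hc
  have ha := ha.2
  have hb := hb.2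
  have hc := hc.2
  omega

/-- the indices of the classes in the family -/
def idx : Finset (ℕ × ℕ) := {(0, 0), (0, 1), (0, 3), (0, 4), (1, 2), (1, 4), (2, 4)}

theorem card_Fam (k s : ℕ) :
    ∑ i ∈ idx, (Cl k (s + i.1) i.2).card ≤ (Fam k s).card := by
  rw [← card_biUnion]
  · apply card_le_card
    intro p hp
    simp only [mem_biUnion, Cl, mem_filter, idx, mem_insert, mem_singleton] at hp
    obtain ⟨i, hi, hg, h1, h2⟩ := hp
    simp only [Fam, mem_filter]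
    refine ⟨hg, ?_⟩
    rcases hi with rfl | rfl | rfl | rfl | rfl | rfl | rfl <;> omega
  · intro i _ j _ hij
    simp only [Function.onFun]
    rw [disjoint_left]
    intro p hp hp'
    simp only [Cl, mem_filter] at hp hp'
    apply hij
    ext <;> omega

/-- the size of the family -/
theorem card_Fam_ge (k : ℕ) (hk : 2 ≤ k) :
    7 / 5 * (3 / 4 * (k : ℝ) ^ 2 - 6 - 20 * k) ≤ ((Fam k (k / 2 - 1 + k + 1)).card : ℝ) := by
  have h1 : ∀ i ∈ idx, (3 / 4 * (k : ℝ) ^ 2 - 6 - 20 * k) / 5 ≤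
      ((Cl k (k / 2 - 1 + k + 1 + i.1) i.2).card : ℝ) := by
    intro i hi
    have hi2 : i.1 ≤ 2 ∧ i.2 < 5 := by
      simp only [idx, mem_insert, mem_singleton] at hi
      rcases hi with rfl | rfl | rfl | rfl | rfl | rfl | rfl <;> simp
    have e1 : k / 2 - 1 + k + 1 + i.1 = (k / 2 - 1 + i.1) + k + 1 := by omega
    rw [e1]
    have e2 := card_Pr_mid k (k / 2 - 1 + i.1) (by omega) (by omega) (by omega)
    have e3 := card_Pc_ge k ((k / 2 - 1 + i.1) + k + 1) i.2 hi2.2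
    have e4 := card_Cl k ((k / 2 - 1 + i.1) + k + 1) i.2
    have e5 : ((Pr k ((k / 2 - 1 + i.1) + k + 1)).card : ℝ) ≤
        5 * ((Cl k ((k / 2 - 1 + i.1) + k + 1) i.2).card : ℝ) + 20 * k := by
      have : (Pr k ((k / 2 - 1 + i.1) + k + 1)).card ≤
        5 * (Cl k ((k / 2 - 1 + i.1) + k + 1) i.2).card + 20 * k := by omega
      exact_mod_cast this
    linarith
  have h2 : ((∑ i ∈ idx, (Cl k (k / 2 - 1 + k + 1 + i.1) i.2).card : ℕ) : ℝ) ≤
      ((Fam k (k / 2 - 1 + k + 1)).card : ℝ) := by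
    exact_mod_cast card_Fam k (k / 2 - 1 + k + 1)
  refine le_trans ?_ h2
  push_cast
  refine le_trans ?_ (Finset.sum_le_sum h1)
  rw [Finset.sum_const, nsmul_eq_mul]
  have : idx.card = 7 := by decide
  rw [this]
  push_cast
  apply le_of_eq
  ring

theorem w_le (k : ℕ) : (w 3 k : ℝ) ≤ 3 / 4 * (k : ℝ) ^ 2 + 1 := by
  unfold w
  apply sSup_card_le
  · simp
  · intro F hF hA
    exact antichain_le k F hF hA

theorem le_w (k : ℕ) (hk : 2 ≤ k) : 3 / 4 * (k : ℝ) ^ 2 - 6 ≤ (w 3 k : ℝ) := by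
  have e2 := card_Pr_mid k (k / 2) (by omega) (by omega) (by omega)
  have e3 := card_Lv k (k / 2 + k + 1)
  have e4 : (Lv k (k / 2 + k + 1)).card ≤ w 3 k := by
    unfold w
    apply le_sSup_card (Q := fun A : Finset (Fin 3 → ℕ) =>
      IsAntichain (· ≤ ·) (A : Set (Fin 3 → ℕ)))
    · exact filter_subset _ _
    · intro a ha b hb hab hle
      simp only [Lv, coe_filter, Set.mem_ofPred_eq] at ha hb
      have h1 := lt_iff3 (lt_of_le_of_ne hle hab)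
      omega
  have e5 : ((Pr k (k / 2 + k + 1)).card : ℝ) ≤ (w 3 k : ℝ) := by exact_mod_cast le_trans e3 e4
  linarith

end Pool.Agent.R127.VeeThree
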