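import Mathlib
import Pool.Agent.R127.VeeThree

/-!
Families in the grids `[k]^2` and `[k]^3` without a strong copy of the diamond.
-/

namespace Pool.Agent.R127.DiamondGrid

open Finset Pool.Agent.R127.GridThree Pool.Agent.R127.VeeThree

/-- `F` contains no strong copy of the diamond -/
def DiaFree {d : ℕ} (F : Finset (Fin d → ℕ)) : Prop :=
  ¬ ∃ a ∈ F, ∃ b ∈ F, ∃ c ∈ F, ∃ e ∈ F, a < b ∧ a < c ∧ b < e ∧ c < e ∧ ¬ b ≤ c ∧ ¬ c ≤ b

/-! ### dimension two -/

theorem mem_grid2 {k : ℕ} {p : Fin 2 → ℕ} : p ∈ grid 2 k ↔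
    (1 ≤ p 0 ∧ p 0 ≤ k) ∧ (1 ≤ p 1 ∧ p 1 ≤ k) := by
  rw [mem_grid, Fin.forall_fin_succ, Fin.forall_fin_succ]
  simp

theorem le_iff2 {a b : Fin 2 → ℕ} : a ≤ b ↔ a 0 ≤ b 0 ∧ a 1 ≤ b 1 := by
  constructor
  · intro h
    exact ⟨h 0, h 1⟩
  · rintro ⟨h0, h1⟩ i
    fin_cases i
    · exact h0
    · exact h1

theorem lt_iff2 {a b : Fin 2 → ℕ} : a < b ↔ a 0 ≤ b 0 ∧ a 1 ≤ b 1 ∧ (a 0 < b 0 ∨ a 1 < b 1) := by
  rw [lt_iff_le_not_ge, le_iff2, le_iff2]
  omega

/-- the family: two sides without the corner, and an antidiagonal -/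
def Fam2 (k : ℕ) : Finset (Fin 2 → ℕ) :=
  (grid 2 k).filter fun p =>
    (p 0 = 1 ∧ 2 ≤ p 1) ∨ (2 ≤ p 0 ∧ p 1 = 1) ∨ (2 ≤ p 0 ∧ p 0 + p 1 = k + 2)

theorem Fam2_free (k : ℕ) : DiaFree (Fam2 k) := by
  rintro ⟨a, ha, b, hb, c, hc, e, he, hab, hac, hbe, hce, h1, h2⟩
  simp only [Fam2, mem_filter, mem_grid2] at ha hb hc he
  rw [lt_iff2] at hab hac hbe hce
  rw [le_iff2] at h1 h2
  generalize a 0 = a0 at *
  generalize a 1 = a1 at *
  generalize b 0 = b0 at *
  generalize b 1 = b1 at *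
  generalize c 0 = c0 at *
  generalize c 1 = c1 at *
  generalize e 0 = e0 at *
  generalize e 1 = e1 at *
  omega

theorem card_Fam2 (k : ℕ) : 3 * (k - 1) ≤ (Fam2 k).card := by
  let f : ℕ → ℕ := fun i => if i < k - 1 then 1 else
    if i < 2 * (k - 1) then i - (k - 1) + 2 else i - 2 * (k - 1) + 2
  let g : ℕ → ℕ := fun i => if i < k - 1 then i + 2 else
    if i < 2 * (k - 1) then 1 else k - (i - 2 * (k - 1))
  have hf : ∀ i, (i < k - 1 ∧ f i = 1 ∧ g i = i + 2) ∨
      (k - 1 ≤ i ∧ i < 2 * (k - 1) ∧ f i = i - (k - 1) + 2 ∧ g i = 1) ∨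
      (2 * (k - 1) ≤ i ∧ f i = i - 2 * (k - 1) + 2 ∧ g i = k - (i - 2 * (k - 1))) := by
    intro i
    simp only [f, g]
    by_cases h1 : i < k - 1
    · left
      simp [h1]
    · by_cases h2 : i < 2 * (k - 1)
      · right
        left
        rw [if_neg h1, if_neg h1, if_pos h2, if_pos h2]
        exact ⟨by omega, h2, rfl, rfl⟩
      · right
        right
        rw [if_neg h1, if_neg h1, if_neg h2, if_neg h2]
        exact ⟨by omega, rfl, rfl⟩
  have h : (range (3 * (k - 1))).card ≤ (Fam2 k).card := by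
    apply card_le_card_of_injOn (fun i => ![f i, g i])
    · intro i hi
      simp only [coe_range, Set.mem_Iio] at hi
      simp only [Fam2, coe_filter, mem_grid2, Set.mem_ofPred_eq, Matrix.cons_val_zero,
        Matrix.cons_val_one]
      have := hf i
      omega
    · intro i hi j hj hij
      simp only [coe_range, Set.mem_Iio] at hi hj
      have h0 := congrFun hij 0
      have h1 := congrFun hij 1
      simp only [Matrix.cons_val_zero, Matrix.cons_val_one] at h0 h1
      have := hf i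
      have := hf j
      omega
  simpa using h

theorem w_two_le (k : ℕ) : w 2 k ≤ k := by
  unfold w
  apply csSup_le
  · exact ⟨0, ∅, empty_subset _, by simp, rfl⟩
  · rintro n ⟨A, hA, hanti, rfl⟩
    have : A.card ≤ (Icc 1 k).card := by
      apply card_le_card_of_injOn (fun p => p 0)
      · intro p hp
        have := mem_grid2.mp (hA hp)
        simp only [coe_Icc, Set.mem_Icc]
        omega
      · intro p hp q hq h
        by_contra hne
        have h' : p 0 = q 0 := h
        rcases le_total (p 1) (q 1) with h1 | h1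
        · exact hanti hp hq hne (le_iff2.mpr ⟨h'.le, h1⟩)
        · exact hanti hq hp (Ne.symm hne) (le_iff2.mpr ⟨h'.ge, h1⟩)
    simpa using this

theorem le_w_two (k : ℕ) : k ≤ w 2 k := by
  have h : (range k).card ≤ ((grid 2 k).filter fun p => p 0 + p 1 = k + 1).card := by
    apply card_le_card_of_injOn (fun i => ![i + 1, k - i])
    · intro i hi
      simp only [coe_range, Set.mem_Iio] at hi
      simp only [coe_filter, mem_grid2, Set.mem_ofPred_eq, Matrix.cons_val_zero,
        Matrix.cons_val_one]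
      omega
    · intro i hi j hj hij
      have h0 := congrFun hij 0
      simp only [Matrix.cons_val_zero] at h0
      omega
  rw [card_range] at h
  refine le_trans h ?_
  unfold w
  apply le_sSup_card (Q := fun A : Finset (Fin 2 → ℕ) =>
    IsAntichain (· ≤ ·) (A : Set (Fin 2 → ℕ)))
  · exact filter_subset _ _
  · intro a ha b hb hab hle
    simp only [coe_filter, Set.mem_ofPred_eq] at ha hb
    have h1 := lt_iff2.mp (lt_of_le_of_ne hle hab)
    omega

/-! ### dimension three -/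

/-- the family: the `∨₂`-free family of `Pool.Agent.R127.VeeThree` and the next level -/
def Fam3 (k s : ℕ) : Finset (Fin 3 → ℕ) := Fam k s ∪ Lv k (s + 3)

theorem Fam3_subset (k s : ℕ) : Fam3 k s ⊆ grid 3 k :=
  union_subset (Fam_subset k s) (filter_subset _ _)

theorem Fam3_free (k s : ℕ) : DiaFree (Fam3 k s) := by
  rintro ⟨a, ha, b, hb, c, hc, e, he, hab, hac, hbe, hce, h1, h2⟩
  have key : ∀ x ∈ Fam3 k s, ∀ y ∈ Fam3 k s, x < y → x ∈ Fam k s := by
    intro x hx y hy hxy
    have h := lt_iff3 hxy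
    simp only [Fam3, mem_union, Fam, Lv, mem_filter] at hx hy ⊢
    rcases hx with hx | hx
    · exact hx
    · exfalso
      rcases hy with hy | hy
      · have := hy.2
        have := hx.2
        omega
      · have := hy.2
        have := hx.2
        omega
  exact Fam_free k s ⟨a, key a ha b hb hab, b, key b hb e he hbe, c, key c hc e he hce, hab, hac,
    h1, h2⟩

theorem card_Fam3_ge (k : ℕ) (hk : 4 ≤ k) :
    7 / 5 * (3 / 4 * (k : ℝ) ^ 2 - 6 - 20 * k) + (3 / 4 * (k : ℝ) ^ 2 - 6) ≤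
      ((Fam3 k (k / 2 - 1 + k + 1)).card : ℝ) := by
  have h1 := card_Fam_ge k (by omega)
  have h2 := card_Pr_mid k (k / 2 + 2) (by omega) (by omega) (by omega)
  have h3 := card_Lv k (k / 2 + 2 + k + 1)
  have h4 : (Fam3 k (k / 2 - 1 + k + 1)).card = (Fam k (k / 2 - 1 + k + 1)).card +
      (Lv k (k / 2 + 2 + k + 1)).card := by
    have e : k / 2 + 2 + k + 1 = (k / 2 - 1 + k + 1) + 3 := by omega
    rw [Fam3, e, card_union_of_disjoint]
    rw [disjoint_left]
    intro p hp hp'
    simp only [Fam, Lv, mem_filter] at hp hp'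
    have := hp.2
    have := hp'.2
    omega
  have h5 : ((Pr k (k / 2 + 2 + k + 1)).card : ℝ) ≤ ((Lv k (k / 2 + 2 + k + 1)).card : ℝ) := by
    exact_mod_cast h3
  rw [h4]
  push_cast
  linarith

end Pool.Agent.R127.DiamondGrid
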