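import Mathlib

/-!
An abstract supersaturation inequality for a finite ranked poset with a flow.
-/

namespace Pool.Agent.R127.FlowChain

open Finset

set_option linter.unusedSectionVars false

variable {α : Type*} [Fintype α] [DecidableEq α] [PartialOrder α] [DecidableLT α]

/-- A flow on a finite ranked poset: `f x y` is the flow from `x` to `y`, which is positive only when
`y` lies above `x`, one rank higher; `T x` bounds the flow into `x` and out of `x`. -/
structure Flow (α : Type*) [Fintype α] [PartialOrder α] where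
  /-- the flow -/
  f : α → α → ℝ
  /-- the throughput -/
  T : α → ℝ
  /-- the rank -/
  ρ : α → ℕ
  nonneg : ∀ x y, 0 ≤ f x y
  up : ∀ x y, f x y ≠ 0 → x < y ∧ ρ y = ρ x + 1
  out_le : ∀ x, ∑ y, f x y ≤ T x
  in_le : ∀ y, ∑ x, f x y ≤ T y

namespace Flow

variable (F : Flow α)

theorem T_nonneg (x : α) : 0 ≤ F.T x :=
  le_trans (Finset.sum_nonneg fun y _ => F.nonneg x y) (F.out_le x)

/-- one step of the Markov chain -/
noncomputable def P (g : α → ℝ) (x : α) : ℝ := (∑ y, F.f x y * g y) / F.T x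

theorem f_eq_zero {x : α} (h : F.T x = 0) (y : α) : F.f x y = 0 := by
  have h1 := F.out_le x
  rw [h] at h1
  have h2 : ∑ y, F.f x y = 0 := le_antisymm h1 (Finset.sum_nonneg fun y _ => F.nonneg x y)
  exact (Finset.sum_eq_zero_iff_of_nonneg fun y _ => F.nonneg x y).mp h2 y (Finset.mem_univ y)

theorem T_mul_P (g : α → ℝ) (x : α) : F.T x * F.P g x = ∑ y, F.f x y * g y := by
  unfold P
  by_cases h : F.T x = 0
  · rw [h, zero_mul]
    symm
    apply Finset.sum_eq_zero
    intro y _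
    rw [F.f_eq_zero h, zero_mul]
  · field_simp

theorem sum_T_mul_P (g : α → ℝ) :
    ∑ x, F.T x * F.P g x = ∑ y, (∑ x, F.f x y) * g y := by
  simp_rw [T_mul_P, Finset.sum_mul]
  exact Finset.sum_comm

theorem P_mono_at {g g' : α → ℝ} (x : α) (h : ∀ y, F.f x y ≠ 0 → g y ≤ g' y) :
    F.P g x ≤ F.P g' x := by
  unfold P
  apply div_le_div_of_nonneg_right _ (F.T_nonneg x)
  apply Finset.sum_le_sum
  intro y _
  by_cases hy : F.f x y = 0
  · simp [hy]
  · exact mul_le_mul_of_nonneg_left (h y hy) (F.nonneg x y)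

theorem P_const (c : ℝ) (hc : 0 ≤ c) (x : α) : F.P (fun _ => c) x ≤ c := by
  unfold P
  rw [← Finset.sum_mul]
  by_cases h : F.T x = 0
  · rw [h, div_zero]
    exact hc
  · have hpos : 0 < F.T x := lt_of_le_of_ne (F.T_nonneg x) (Ne.symm h)
    rw [div_le_iff₀ hpos, mul_comm c]
    exact mul_le_mul_of_nonneg_right (F.out_le x) hc

theorem P_add (g g' : α → ℝ) (x : α) : F.P (fun y => g y + g' y) x = F.P g x + F.P g' x := by
  unfold P
  rw [← add_div, ← Finset.sum_add_distrib]
  simp_rw [mul_add]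

theorem P_sum {ι : Type*} (s : Finset ι) (g : ι → α → ℝ) (x : α) :
    F.P (fun y => ∑ i ∈ s, g i y) x = ∑ i ∈ s, F.P (g i) x := by
  unfold P
  rw [← Finset.sum_div, Finset.sum_comm]
  simp_rw [Finset.mul_sum]

theorem P_nonneg {g : α → ℝ} (x : α) (h : ∀ y, F.f x y ≠ 0 → 0 ≤ g y) : 0 ≤ F.P g x := by
  unfold P
  apply div_nonneg _ (F.T_nonneg x)
  apply Finset.sum_nonneg
  intro y _
  by_cases hy : F.f x y = 0
  · simp [hy]
  · exact mul_nonneg (F.nonneg x y) (h y hy)

theorem P_ne_zero {g : α → ℝ} {x : α} (h : F.P g x ≠ 0) : ∃ y, F.f x y ≠ 0 ∧ g y ≠ 0 := by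
  by_contra hc
  push Not at hc
  apply h
  unfold P
  rw [Finset.sum_eq_zero, zero_div]
  intro y _
  by_cases hy : F.f x y = 0
  · simp [hy]
  · simp [hc y hy]

/-- iterates -/
noncomputable def Q (j : ℕ) (g : α → ℝ) : α → ℝ := (F.P)^[j] g

theorem Q_zero (g : α → ℝ) : F.Q 0 g = g := rfl

theorem Q_succ (j : ℕ) (g : α → ℝ) : F.Q (j + 1) g = F.P (F.Q j g) := by
  unfold Q
  rw [Function.iterate_succ_apply']

theorem Q_succ' (j : ℕ) (g : α → ℝ) : F.Q (j + 1) g = F.Q j (F.P g) := by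
  unfold Q
  rw [Function.iterate_succ_apply]

theorem Q_ne_zero (j : ℕ) (g : α → ℝ) (x : α) (h : F.Q j g x ≠ 0) :
    ∃ y, g y ≠ 0 ∧ x ≤ y ∧ F.ρ y = F.ρ x + j := by
  induction j generalizing x with
  | zero => exact ⟨x, h, le_rfl, by simp⟩
  | succ j ih =>
    rw [Q_succ] at h
    obtain ⟨y, hy, hy'⟩ := F.P_ne_zero h
    obtain ⟨z, hz, hyz, hr⟩ := ih y hy'
    obtain ⟨h1, h2⟩ := F.up x y hy
    exact ⟨z, hz, h1.le.trans hyz, by omega⟩

theorem Q_nonneg (j : ℕ) (g : α → ℝ) (hg : ∀ y, 0 ≤ g y) (x : α) : 0 ≤ F.Q j g x := by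
  induction j generalizing x with
  | zero => exact hg x
  | succ j ih =>
    rw [Q_succ]
    exact F.P_nonneg x fun y _ => ih y

theorem Q_le (j : ℕ) (g : α → ℝ) (c : ℝ) (hc : 0 ≤ c) (hg : ∀ y, g y ≤ c) (x : α) :
    F.Q j g x ≤ c := by
  induction j generalizing x with
  | zero => exact hg x
  | succ j ih =>
    rw [Q_succ]
    exact le_trans (F.P_mono_at x fun y _ => ih y) (F.P_const c hc x)

theorem Q_sum {ι : Type*} (s : Finset ι) (g : ι → α → ℝ) (j : ℕ) :
    F.Q j (fun y => ∑ i ∈ s, g i y) = fun x => ∑ i ∈ s, F.Q j (g i) x := by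
  induction j with
  | zero => rfl
  | succ j ih =>
    funext x
    rw [Q_succ, ih, P_sum]
    simp_rw [Q_succ]

/-- the sum of the iterates -/
noncomputable def S (n : ℕ) (g : α → ℝ) (x : α) : ℝ := ∑ j ∈ range n, F.Q j g x

theorem S_eq (n : ℕ) (hn : ∀ x, F.ρ x < n) (g : α → ℝ) (x : α) :
    F.S n g x = g x + F.P (F.S n g) x := by
  have h0 : F.Q n g x = 0 := by
    by_contra h
    obtain ⟨y, -, -, h3⟩ := F.Q_ne_zero n g x h
    have := hn y
    omega
  have h1 : F.P (F.S n g) x = ∑ j ∈ range n, F.Q (j + 1) g x := by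
    unfold S
    rw [F.P_sum]
    simp_rw [Q_succ]
  rw [h1]
  have h2 := Finset.sum_range_succ (fun j => F.Q j g x) n
  rw [Finset.sum_range_succ'] at h2
  simp only [Q_zero, h0, add_zero] at h2
  unfold S
  linarith

theorem S_nonneg (n : ℕ) (g : α → ℝ) (hg : ∀ y, 0 ≤ g y) (x : α) : 0 ≤ F.S n g x :=
  Finset.sum_nonneg fun j _ => F.Q_nonneg j g hg x

/-- conservation of mass -/
theorem sum_source (n : ℕ) (hn : ∀ x, F.ρ x < n) (g : α → ℝ) :
    ∑ x, (F.T x - ∑ z, F.f z x) * F.S n g x = ∑ x, F.T x * g x := by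
  have h := F.sum_T_mul_P (F.S n g)
  have h2 : ∑ x, F.T x * F.S n g x = ∑ x, F.T x * g x + ∑ x, F.T x * F.P (F.S n g) x := by
    rw [← Finset.sum_add_distrib]
    apply Finset.sum_congr rfl
    intro x _
    rw [F.S_eq n hn g x]
    ring
  simp_rw [sub_mul]
  rw [Finset.sum_sub_distrib, h2, h]
  ring

/-- the indicator of an element -/
def ind (μ : α) (x : α) : ℝ := if x = μ then 1 else 0

theorem ind_nonneg (μ x : α) : 0 ≤ ind μ x := by
  unfold ind
  split_ifs <;> norm_num

theorem ind_le (μ x : α) : ind μ x ≤ 1 := by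
  unfold ind
  split_ifs <;> norm_num

theorem ind_ne_zero {μ x : α} (h : ind μ x ≠ 0) : x = μ := by
  unfold ind at h
  by_contra hc
  simp [hc] at h

/-- the two-step hitting bound -/
theorem P2S_ind_le (n : ℕ) (μ : α) (β : ℝ) (hβ : 0 ≤ β)
    (h2 : ∀ x, F.P (F.P (ind μ)) x ≤ β) (x : α) :
    F.P (F.P (F.S n (ind μ))) x ≤ if x < μ then β else 0 := by
  have e1 : F.P (F.P (F.S n (ind μ))) x = ∑ j ∈ range n, F.Q (j + 2) (ind μ) x := by
    have : F.P (F.S n (ind μ)) = fun y => ∑ j ∈ range n, F.Q (j + 1) (ind μ) y := by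
      funext y
      unfold S
      rw [F.P_sum]
      simp_rw [Q_succ]
    rw [this, F.P_sum]
    apply Finset.sum_congr rfl
    intro j _
    rw [← F.Q_succ (j + 1)]
  rw [e1]
  have hle : ∀ j, F.Q (j + 2) (ind μ) x ≤ β := by
    intro j
    rw [show j + 2 = (j + 1) + 1 from rfl, F.Q_succ', F.Q_succ']
    exact F.Q_le j _ β hβ h2 x
  have hz : ∀ j, F.Q (j + 2) (ind μ) x ≠ 0 → x < μ ∧ F.ρ μ = F.ρ x + (j + 2) := by
    intro j h
    obtain ⟨y, hy, hxy, hr⟩ := F.Q_ne_zero _ _ _ h
    have := ind_ne_zero hy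
    subst this
    refine ⟨lt_of_le_of_ne hxy ?_, hr⟩
    rintro rfl
    omega
  split_ifs with hlt
  · by_cases hr : F.ρ x + 2 ≤ F.ρ μ
    · have : ∀ j ∈ range n, j ≠ F.ρ μ - F.ρ x - 2 → F.Q (j + 2) (ind μ) x = 0 := by
        intro j _ hj
        by_contra h
        have := (hz j h).2
        omega
      by_cases hm : F.ρ μ - F.ρ x - 2 ∈ range n
      · rw [Finset.sum_eq_single_of_mem _ hm this]
        exact hle _
      · rw [Finset.sum_eq_zero fun j hj => this j hj fun he => hm (he ▸ hj)]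
        exact hβ
    · rw [Finset.sum_eq_zero]
      · exact hβ
      · intro j _
        by_contra h
        have := (hz j h).2
        omega
  · rw [Finset.sum_eq_zero]
    intro j _
    by_contra h
    exact hlt (hz j h).1

/-- **Supersaturation from a flow.** -/
theorem supersat (n : ℕ) (hn : ∀ x, F.ρ x < n) (U : Finset α) (β τ : ℝ) (hβ : 0 ≤ β)
    (hτ : ∀ x, F.T x ≤ τ) (h2 : ∀ μ ∈ U, ∀ x, F.P (F.P (ind μ)) x ≤ β) :
    ∑ x ∈ U, F.T x ≤ 2 * ∑ x, (F.T x - ∑ z, F.f z x) +
      τ * β * (((U ×ˢ U).filter fun p => p.1 < p.2).card : ℝ) := by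
  classical
  set g : α → ℝ := fun x => ∑ μ ∈ U, ind μ x with hg
  have hg_eq : ∀ x, g x = if x ∈ U then 1 else 0 := by
    intro x
    simp only [hg, ind, Finset.sum_ite_eq]
  have hg0 : ∀ x, 0 ≤ g x := fun x => Finset.sum_nonneg fun μ _ => ind_nonneg μ x
  have hg1 : ∀ x, g x ≤ 1 := by
    intro x
    rw [hg_eq]
    split_ifs <;> norm_num
  set X := F.S n g with hX
  set Z := F.P (F.P X) with hZ
  set Y := F.S n (fun x => g x * Z x) with hY
  have hX0 : ∀ x, 0 ≤ X x := F.S_nonneg n g hg0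
  have hZ0 : ∀ x, 0 ≤ Z x := fun x => F.P_nonneg x fun y _ => F.P_nonneg y fun z _ => hX0 z
  have hY0 : ∀ x, 0 ≤ Y x := F.S_nonneg n _ fun x => mul_nonneg (hg0 x) (hZ0 x)
  have hXeq : ∀ x, X x = g x + F.P X x := F.S_eq n hn g
  have hYeq : ∀ x, Y x = g x * Z x + F.P Y x := F.S_eq n hn _
  -- the pointwise inequality
  have key : ∀ m : ℕ, ∀ x, n ≤ F.ρ x + m → X x ≤ 2 + Y x := by
    intro m
    induction m with
    | zero =>
      intro x hx
      have := hn x
      omega
    | succ m ih =>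
      intro x hx
      by_cases hxU : x ∈ U
      · have h1 : g x = 1 := by rw [hg_eq]; simp [hxU]
        have h3 : F.P X x ≤ 1 + Z x := by
          have : F.P X x = F.P g x + F.P (F.P X) x := by
            rw [← F.P_add]
            congr 1
            funext y
            exact hXeq y
          rw [this]
          have hPg : F.P g x ≤ 1 :=
            le_trans (F.P_mono_at x fun y _ => hg1 y) (F.P_const 1 zero_le_one x)
          exact add_le_add hPg le_rfl
        have h4 : 0 ≤ F.P Y x := F.P_nonneg x fun y _ => hY0 y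
        rw [hXeq, hYeq, h1]
        linarith
      · have h1 : g x = 0 := by rw [hg_eq]; simp [hxU]
        have h3 : F.P X x ≤ 2 + F.P Y x := by
          have hm : F.P X x ≤ F.P (fun y => 2 + Y y) x := by
            apply F.P_mono_at x
            intro y hy
            apply ih y
            have := (F.up x y hy).2
            omega
          have he : F.P (fun y => 2 + Y y) x = F.P (fun _ => 2) x + F.P Y x := F.P_add _ _ x
          have hc := F.P_const 2 (by norm_num) x
          linarith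
        rw [hXeq, hYeq, h1]
        linarith
  have hXY : ∀ x, X x ≤ 2 + Y x := fun x => key n x (by omega)
  have hs : ∀ x, 0 ≤ F.T x - ∑ z, F.f z x := fun x => sub_nonneg.mpr (F.in_le x)
  have m1 := F.sum_source n hn g
  have m2 := F.sum_source n hn (fun x => g x * Z x)
  have m3 : ∑ x, (F.T x - ∑ z, F.f z x) * X x ≤
      ∑ x, (F.T x - ∑ z, F.f z x) * (2 + Y x) :=
    Finset.sum_le_sum fun x _ => mul_le_mul_of_nonneg_left (hXY x) (hs x)
  have m4 : ∑ x, (F.T x - ∑ z, F.f z x) * (2 + Y x) =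
      2 * ∑ x, (F.T x - ∑ z, F.f z x) + ∑ x, F.T x * (g x * Z x) := by
    rw [← m2, Finset.mul_sum, ← Finset.sum_add_distrib]
    apply Finset.sum_congr rfl
    intro x _
    ring
  have m5 : ∑ x, F.T x * g x = ∑ x ∈ U, F.T x := by
    simp_rw [hg_eq, mul_ite, mul_one, mul_zero]
    rw [Finset.sum_ite_mem, Finset.univ_inter]
  have m6 : ∑ x, F.T x * (g x * Z x) = ∑ x ∈ U, F.T x * Z x := by
    simp_rw [hg_eq, ite_mul, one_mul, zero_mul, mul_ite, mul_zero]
    rw [Finset.sum_ite_mem, Finset.univ_inter]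
  -- the bound for `Z`
  have hZle : ∀ x, Z x ≤ ∑ μ ∈ U, if x < μ then β else 0 := by
    intro x
    have e1 : X = fun y => ∑ μ ∈ U, F.S n (ind μ) y := by
      funext y
      simp only [hX, hg, S]
      rw [Finset.sum_comm]
      apply Finset.sum_congr rfl
      intro j _
      rw [F.Q_sum]
    have e2 : F.P X = fun y => ∑ μ ∈ U, F.P (F.S n (ind μ)) y := by
      funext y
      rw [e1, F.P_sum]
    rw [hZ, e2, F.P_sum]
    exact Finset.sum_le_sum fun μ hμ => F.P2S_ind_le n μ β hβ (h2 μ hμ) x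
  have m7 : ∑ x ∈ U, F.T x * Z x ≤ τ * β * (((U ×ˢ U).filter fun p => p.1 < p.2).card : ℝ) := by
    have : ∀ x ∈ U, F.T x * Z x ≤ ∑ μ ∈ U, if x < μ then τ * β else 0 := by
      intro x _
      have hτ0 : 0 ≤ τ := le_trans (F.T_nonneg x) (hτ x)
      calc F.T x * Z x ≤ τ * Z x := mul_le_mul_of_nonneg_right (hτ x) (hZ0 x)
        _ ≤ τ * ∑ μ ∈ U, (if x < μ then β else 0) := mul_le_mul_of_nonneg_left (hZle x) hτ0
        _ = ∑ μ ∈ U, if x < μ then τ * β else 0 := by
            rw [Finset.mul_sum]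
            apply Finset.sum_congr rfl
            intro μ _
            split_ifs <;> simp
    refine le_trans (Finset.sum_le_sum this) (le_of_eq ?_)
    rw [Finset.card_filter, Nat.cast_sum, Finset.mul_sum, Finset.sum_product]
    apply Finset.sum_congr rfl
    intro x _
    apply Finset.sum_congr rfl
    intro μ _
    split_ifs <;> simp
  rw [m1, m4, m5, m6] at m3
  linarith

end Flow

end Pool.Agent.R127.FlowChain
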