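import Mathlib
import Pool.Agent.R127.FlowChain

/-!
The lattice `L(k,k)` of nondecreasing sequences of length `k` with values in `{0, ..., k}`, and its
flow with weights `p (2 k - p)`.
-/

namespace Pool.Agent.R127.LkkFlow

open Finset Pool.Agent.R127.FlowChain

/-- `x` belongs to `L(k,k)` -/
def InL (k : ℕ) (x : Fin k → ℕ) : Prop := Monotone x ∧ ∀ i, x i ≤ k

/-- the poset `L(k,k)` -/
abbrev LL (k : ℕ) : Type := {x : Fin k → ℕ // InL k x}

instance (k : ℕ) : Finite (LL k) := by
  have : Function.Injective (fun x : LL k => fun i => (⟨x.1 i, Nat.lt_succ_of_le (x.2.2 i)⟩ : Fin (k + 1))) := by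
    intro x y h
    apply Subtype.ext
    funext i
    have := congrFun h i
    simpa using this
  exact Finite.of_injective _ this

noncomputable instance (k : ℕ) : Fintype (LL k) := Fintype.ofFinite _

noncomputable instance (k : ℕ) : DecidableEq (LL k) := Classical.decEq _

noncomputable instance (k : ℕ) : DecidableLT (LL k) := fun _ _ => Classical.dec _

/-- raise the coordinate `i` by one -/
def raise {k : ℕ} (x : Fin k → ℕ) (i : Fin k) : Fin k → ℕ := Function.update x i (x i + 1)

/-- lower the coordinate `i` by one -/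
def lower {k : ℕ} (x : Fin k → ℕ) (i : Fin k) : Fin k → ℕ := Function.update x i (x i - 1)

/-- the extension `0, x 0, ..., x (k - 1), k, k, ...` -/
def ext {k : ℕ} (x : Fin k → ℕ) : ℕ → ℕ
  | 0 => 0
  | j + 1 => if h : j < k then x ⟨j, h⟩ else k

theorem ext_succ {k : ℕ} (x : Fin k → ℕ) (i : Fin k) : ext x (i + 1) = x i := by
  simp [ext]

theorem ext_mono {k : ℕ} {x : Fin k → ℕ} (hx : InL k x) (j : ℕ) : ext x j ≤ ext x (j + 1) := by
  cases j with
  | zero => simp [ext]
  | succ j =>
    simp only [ext]
    by_cases h : j + 1 < k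
    · have h' : j < k := by omega
      simp only [h, h', dif_pos]
      exact hx.1 (by simp [Fin.le_def])
    · by_cases h' : j < k
      · simp only [h, h', dif_pos, dif_neg, not_false_iff]
        exact hx.2 _
      · simp [h, h']

theorem raise_mem_iff {k : ℕ} {x : Fin k → ℕ} (hx : InL k x) (i : Fin k) :
    InL k (raise x i) ↔ ext x (i + 1) < ext x (i + 2) := by
  have e1 : ext x (i + 1) = x i := ext_succ x i
  constructor
  · intro h
    rw [e1]
    by_cases hi : (i : ℕ) + 1 < k
    · have e2 : ext x (i + 2) = x ⟨i + 1, hi⟩ := by simp [ext, hi]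
      rw [e2]
      have := h.1 (show i ≤ ⟨i + 1, hi⟩ by simp [Fin.le_def])
      have hne : (⟨(i : ℕ) + 1, hi⟩ : Fin k) ≠ i := by simp [Fin.ext_iff]
      simp only [raise, Function.update_self, Function.update_of_ne hne] at this
      omega
    · have e2 : ext x (i + 2) = k := by simp [ext, hi]
      rw [e2]
      have := h.2 i
      simp only [raise, Function.update_self] at this
      omega
  · intro h
    rw [e1] at h
    have hup : x i + 1 ≤ k := by
      by_cases hi : (i : ℕ) + 1 < k
      · have e2 : ext x (i + 2) = x ⟨i + 1, hi⟩ := by simp [ext, hi]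
        rw [e2] at h
        have := hx.2 ⟨i + 1, hi⟩
        omega
      · have e2 : ext x (i + 2) = k := by simp [ext, hi]
        omega
    refine ⟨?_, ?_⟩
    · intro a b hab
      by_cases ha : a = i
      · by_cases hb : b = i
        · simp [ha, hb]
        · subst ha
          have hlt : a < b := lt_of_le_of_ne hab (Ne.symm hb)
          have hi : (a : ℕ) + 1 < k := by
            have := b.2
            have := Fin.lt_def.mp hlt
            omega
          have e2 : ext x (a + 2) = x ⟨a + 1, hi⟩ := by simp [ext, hi]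
          rw [e2] at h
          have : x ⟨a + 1, hi⟩ ≤ x b := hx.1 (by
            rw [Fin.le_def]
            have := Fin.lt_def.mp hlt
            simp only
            omega)
          simp only [raise, Function.update_self, Function.update_of_ne hb]
          omega
      · by_cases hb : b = i
        · subst hb
          simp only [raise, Function.update_self, Function.update_of_ne ha]
          have := hx.1 hab
          omega
        · simp only [raise, Function.update_of_ne ha, Function.update_of_ne hb]
          exact hx.1 hab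
    · intro a
      by_cases ha : a = i
      · simp only [raise, ha, Function.update_self]
        exact hup
      · simp only [raise, Function.update_of_ne ha]
        exact hx.2 a

theorem lower_mem_iff {k : ℕ} {x : Fin k → ℕ} (hx : InL k x) (i : Fin k) :
    (1 ≤ x i ∧ InL k (lower x i)) ↔ ext x i < ext x (i + 1) := by
  have e1 : ext x (i + 1) = x i := ext_succ x i
  rw [e1]
  constructor
  · rintro ⟨h1, h⟩
    by_cases hi : (i : ℕ) = 0
    · rw [hi]
      simp only [ext]
      omega
    · obtain ⟨j, hj⟩ : ∃ j, (i : ℕ) = j + 1 := ⟨i - 1, by omega⟩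
      have hjk : j < k := by have := i.2; omega
      have e2 : ext x i = x ⟨j, hjk⟩ := by rw [hj]; simp [ext, hjk]
      rw [e2]
      have := h.1 (show (⟨j, hjk⟩ : Fin k) ≤ i by rw [Fin.le_def]; simp only; omega)
      have hne : (⟨j, hjk⟩ : Fin k) ≠ i := by
        rw [Ne, Fin.ext_iff]
        simp only
        omega
      simp only [lower, Function.update_self, Function.update_of_ne hne] at this
      omega
  · intro h
    refine ⟨by omega, ?_, ?_⟩
    · intro a b hab
      by_cases ha : a = i
      · by_cases hb : b = i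
        · simp [ha, hb]
        · subst ha
          simp only [lower, Function.update_self, Function.update_of_ne hb]
          have := hx.1 hab
          omega
      · by_cases hb : b = i
        · subst hb
          simp only [lower, Function.update_self, Function.update_of_ne ha]
          have hlt : a < b := lt_of_le_of_ne hab ha
          obtain ⟨j, hj⟩ : ∃ j, (b : ℕ) = j + 1 := ⟨b - 1, by
            have := Fin.lt_def.mp hlt
            omega⟩
          have hjk : j < k := by have := b.2; omega
          have e2 : ext x b = x ⟨j, hjk⟩ := by rw [hj]; simp [ext, hjk]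
          rw [e2] at h
          have : x a ≤ x ⟨j, hjk⟩ := hx.1 (by
            rw [Fin.le_def]
            have := Fin.lt_def.mp hlt
            simp only
            omega)
          omega
        · simp only [lower, Function.update_of_ne ha, Function.update_of_ne hb]
          exact hx.1 hab
    · intro a
      by_cases ha : a = i
      · simp only [lower, ha, Function.update_self]
        have := hx.2 i
        omega
      · simp only [lower, Function.update_of_ne ha]
        exact hx.2 a

/-- the weights -/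
def c (k p : ℕ) : ℝ := (p : ℝ) * (2 * (k : ℝ) - p)

theorem c_nonneg {k p : ℕ} (h : p ≤ 2 * k) : 0 ≤ c k p := by
  unfold c
  apply mul_nonneg (Nat.cast_nonneg p)
  have : (p : ℝ) ≤ 2 * k := by exact_mod_cast h
  linarith

theorem c_le (k p : ℕ) : c k p ≤ (k : ℝ) ^ 2 := by
  unfold c
  nlinarith [sq_nonneg ((p : ℝ) - k)]

/-- the flow -/
noncomputable def fl (k : ℕ) (x y : LL k) : ℝ :=
  ∑ i : Fin k, if y.1 = raise x.1 i then c k (x.1 i + i + 1) else 0

theorem pos_le {k : ℕ} (x : LL k) (i : Fin k) : x.1 i + i + 1 ≤ 2 * k := by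
  have := x.2.2 i
  have := i.2
  omega

theorem fl_nonneg (k : ℕ) (x y : LL k) : 0 ≤ fl k x y := by
  unfold fl
  apply Finset.sum_nonneg
  intro i _
  split_ifs
  · exact c_nonneg (pos_le x i)
  · exact le_rfl

/-- the rank -/
def rk {k : ℕ} (x : LL k) : ℕ := ∑ i, x.1 i

theorem rk_raise {k : ℕ} (x : Fin k → ℕ) (i : Fin k) : ∑ j, raise x i j = ∑ j, x j + 1 := by
  unfold raise
  rw [Finset.sum_update_of_mem (Finset.mem_univ i)]
  have := Finset.sum_sdiff (Finset.subset_univ ({i} : Finset (Fin k))) (f := x)
  rw [Finset.sum_singleton] at this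
  omega

theorem lt_raise {k : ℕ} (x : Fin k → ℕ) (i : Fin k) : x < raise x i := by
  rw [Pi.lt_def]
  refine ⟨?_, i, ?_⟩
  · intro j
    by_cases h : j = i
    · subst h
      simp [raise]
    · simp [raise, h]
  · simp [raise]

theorem fl_up (k : ℕ) (x y : LL k) (h : fl k x y ≠ 0) : x < y ∧ rk y = rk x + 1 := by
  unfold fl at h
  obtain ⟨i, -, hi⟩ := Finset.exists_ne_zero_of_sum_ne_zero h
  have hy : y.1 = raise x.1 i := by
    by_contra hc
    simp [hc] at hi
  refine ⟨?_, ?_⟩
  · show x.1 < y.1
    rw [hy]
    exact lt_raise _ _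
  · unfold rk
    rw [hy]
    exact rk_raise _ _

/-- the outflow -/
noncomputable def outf {k : ℕ} (x : LL k) : ℝ := ∑ y, fl k x y

/-- the inflow -/
noncomputable def inf' {k : ℕ} (x : LL k) : ℝ := ∑ z, fl k z x

open Classical in
theorem outf_eq {k : ℕ} (x : LL k) :
    outf x = ∑ i : Fin k, if ext x.1 (i + 1) < ext x.1 (i + 2) then c k (x.1 i + i + 1) else 0 := by
  unfold outf fl
  rw [Finset.sum_comm]
  apply Finset.sum_congr rfl
  intro i _
  by_cases h : InL k (raise x.1 i)
  · rw [if_pos ((raise_mem_iff x.2 i).mp h)]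
    rw [Finset.sum_eq_single (⟨raise x.1 i, h⟩ : LL k)]
    · simp
    · intro y _ hy
      rw [if_neg]
      intro he
      exact hy (Subtype.ext he)
    · intro h'
      exact absurd (Finset.mem_univ _) h'
  · rw [if_neg (fun h' => h ((raise_mem_iff x.2 i).mpr h'))]
    apply Finset.sum_eq_zero
    intro y _
    rw [if_neg]
    intro he
    exact h (he ▸ y.2)

theorem raise_lower {k : ℕ} (x : Fin k → ℕ) (i : Fin k) (h : 1 ≤ x i) :
    raise (lower x i) i = x := by
  funext j
  by_cases hj : j = i
  · subst hj
    simp only [raise, lower, Function.update_self]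
    omega
  · simp [raise, lower, hj]

theorem lower_raise {k : ℕ} (x : Fin k → ℕ) (i : Fin k) : lower (raise x i) i = x := by
  funext j
  by_cases hj : j = i
  · subst hj
    simp [raise, lower]
  · simp [raise, lower, hj]

open Classical in
theorem inf_eq {k : ℕ} (x : LL k) :
    inf' x = ∑ i : Fin k, if ext x.1 i < ext x.1 (i + 1) then c k (x.1 i + i) else 0 := by
  unfold inf' fl
  rw [Finset.sum_comm]
  apply Finset.sum_congr rfl
  intro i _
  by_cases h : 1 ≤ x.1 i ∧ InL k (lower x.1 i)
  · rw [if_pos ((lower_mem_iff x.2 i).mp h)]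
    rw [Finset.sum_eq_single (⟨lower x.1 i, h.2⟩ : LL k)]
    · rw [if_pos (raise_lower x.1 i h.1).symm]
      congr 1
      simp only [lower, Function.update_self]
      omega
    · intro z _ hz
      rw [if_neg]
      intro he
      apply hz
      apply Subtype.ext
      show z.1 = lower x.1 i
      rw [he, lower_raise]
    · intro h'
      exact absurd (Finset.mem_univ _) h'
  · rw [if_neg (fun h' => h ((lower_mem_iff x.2 i).mpr h'))]
    apply Finset.sum_eq_zero
    intro z _
    rw [if_neg]
    intro he
    apply h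
    rw [he]
    refine ⟨?_, ?_⟩
    · simp [raise]
    · rw [lower_raise]
      exact z.2

/-- **The divergence of the flow depends only on the rank.** -/
theorem inf_sub_outf {k : ℕ} (x : LL k) : inf' x - outf x = 2 * (rk x : ℝ) - (k : ℝ) ^ 2 := by
  classical
  -- the correction terms
  let t : ℕ → ℝ := fun j => if ext x.1 j = ext x.1 (j + 1) then c k (ext x.1 j + j) else 0
  have h0 : t 0 = 0 := by simp [t, ext, c]
  have hk : t k = 0 := by
    have hk1 : ext x.1 (k + 1) = k := by simp [ext]
    simp only [t, hk1]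
    split_ifs with h
    · rw [h]
      unfold c
      push_cast
      ring
    · rfl
  rw [inf_eq, outf_eq]
  have e1 : ∀ i : Fin k, (if ext x.1 i < ext x.1 (i + 1) then c k (x.1 i + i) else 0) =
      c k (x.1 i + i) - t i := by
    intro i
    have hm := ext_mono x.2 i
    by_cases h : ext x.1 i < ext x.1 (i + 1)
    · have : ext x.1 i ≠ ext x.1 (i + 1) := h.ne
      simp [t, h, this]
    · have he : ext x.1 i = ext x.1 (i + 1) := by omega
      have hx : ext x.1 (i + 1) = x.1 i := ext_succ x.1 i
      rw [if_neg h]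
      simp only [t]
      rw [if_pos he, he, hx]
      ring
  have e2 : ∀ i : Fin k, (if ext x.1 (i + 1) < ext x.1 (i + 2) then c k (x.1 i + i + 1) else 0) =
      c k (x.1 i + i + 1) - t (i + 1) := by
    intro i
    have hm := ext_mono x.2 (i + 1)
    have hx : ext x.1 (i + 1) = x.1 i := ext_succ x.1 i
    by_cases h : ext x.1 (i + 1) < ext x.1 (i + 2)
    · have : ext x.1 (i + 1) ≠ ext x.1 (i + 1 + 1) := h.ne
      simp [t, h, this]
    · have he : ext x.1 (i + 1) = ext x.1 (i + 1 + 1) := by
        have : (i : ℕ) + 1 + 1 = i + 2 := rfl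
        rw [this] at hm ⊢
        omega
      simp only [t, h, if_false]
      rw [if_pos he, hx, add_assoc]
      ring
  simp_rw [e1, e2]
  have ht : ∑ i : Fin k, t i - ∑ i : Fin k, t (i + 1) = 0 := by
    rw [Fin.sum_univ_eq_sum_range (fun i => t i) k, Fin.sum_univ_eq_sum_range (fun i => t (i + 1)) k,
      ← Finset.sum_sub_distrib]
    have := Finset.sum_range_sub' t k
    rw [this, h0, hk, sub_zero]
  have hc : ∀ i : Fin k, c k (x.1 i + i) - c k (x.1 i + i + 1) =
      2 * (x.1 i : ℝ) + (2 * (i : ℕ) + 1 - 2 * k) := by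
    intro i
    unfold c
    push_cast
    ring
  have hsum : ∑ i : Fin k, ((2 : ℝ) * (i : ℕ) + 1 - 2 * k) = - (k : ℝ) ^ 2 := by
    rw [Fin.sum_univ_eq_sum_range (fun i => (2 : ℝ) * (i : ℕ) + 1 - 2 * k) k]
    have : ∀ n : ℕ, ∑ i ∈ range n, ((2 : ℝ) * (i : ℕ) + 1 - 2 * k) = (n : ℝ) ^ 2 - 2 * k * n := by
      intro n
      induction n with
      | zero => simp
      | succ n ih =>
        rw [Finset.sum_range_succ, ih]
        push_cast
        ring
    rw [this]
    ring
  calc ∑ i : Fin k, (c k (x.1 i + i) - t i) - ∑ i : Fin k, (c k (x.1 i + i + 1) - t (i + 1))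
      = ∑ i : Fin k, (c k (x.1 i + i) - c k (x.1 i + i + 1)) -
        (∑ i : Fin k, t i - ∑ i : Fin k, t (i + 1)) := by
        simp only [Finset.sum_sub_distrib]
        ring
    _ = ∑ i : Fin k, (2 * (x.1 i : ℝ) + (2 * (i : ℕ) + 1 - 2 * k)) := by
        rw [ht, sub_zero]
        exact Finset.sum_congr rfl fun i _ => hc i
    _ = 2 * (rk x : ℝ) - (k : ℝ) ^ 2 := by
        rw [Finset.sum_add_distrib, hsum, ← Finset.mul_sum]
        unfold rk
        push_cast
        ring

/-- the throughput -/
noncomputable def T {k : ℕ} (x : LL k) : ℝ := max (inf' x) (outf x)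

/-- `L(k,k)` with its flow -/
noncomputable def flow (k : ℕ) : Flow (LL k) where
  f := fl k
  T := T
  ρ := rk
  nonneg := fl_nonneg k
  up := fl_up k
  out_le := fun _ => le_max_right _ _
  in_le := fun _ => le_max_left _ _

theorem rk_lt {k : ℕ} (x : LL k) : rk x < k * k + 1 := by
  unfold rk
  have : ∑ i, x.1 i ≤ ∑ _i : Fin k, k := Finset.sum_le_sum fun i _ => x.2.2 i
  simp only [Finset.sum_const, Finset.card_univ, Fintype.card_fin, smul_eq_mul] at this
  omega

theorem outf_le {k : ℕ} (x : LL k) : outf x ≤ (k : ℝ) ^ 3 := by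
  classical
  rw [outf_eq]
  have : ∀ i ∈ (Finset.univ : Finset (Fin k)),
      (if ext x.1 (i + 1) < ext x.1 (i + 2) then c k (x.1 i + i + 1) else 0) ≤ (k : ℝ) ^ 2 := by
    intro i _
    split_ifs
    · exact c_le _ _
    · positivity
  refine le_trans (Finset.sum_le_sum this) (le_of_eq ?_)
  simp only [Finset.sum_const, Finset.card_univ, Fintype.card_fin, nsmul_eq_mul]
  ring

theorem inf_le {k : ℕ} (x : LL k) : inf' x ≤ (k : ℝ) ^ 3 := by
  classical
  rw [inf_eq]
  have : ∀ i ∈ (Finset.univ : Finset (Fin k)),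
      (if ext x.1 i < ext x.1 (i + 1) then c k (x.1 i + i) else 0) ≤ (k : ℝ) ^ 2 := by
    intro i _
    split_ifs
    · exact c_le _ _
    · positivity
  refine le_trans (Finset.sum_le_sum this) (le_of_eq ?_)
  simp only [Finset.sum_const, Finset.card_univ, Fintype.card_fin, nsmul_eq_mul]
  ring

theorem T_le {k : ℕ} (x : LL k) : T x ≤ (k : ℝ) ^ 3 := max_le (inf_le x) (outf_le x)

/-- the centred rank -/
noncomputable def A {k : ℕ} (x : LL k) : ℝ := 2 * (rk x : ℝ) - (k : ℝ) ^ 2

/-- the second moment of the rank -/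
theorem sum_A_sq (k : ℕ) : ∑ x : LL k, A x ^ 2 = 2 * ∑ x : LL k, outf x := by
  have h1 : ∀ x : LL k, A x ^ 2 = A x * inf' x - A x * outf x := by
    intro x
    have := inf_sub_outf x
    unfold A
    rw [← mul_sub, this]
    ring
  simp_rw [h1]
  rw [Finset.sum_sub_distrib]
  have h2 : ∑ x : LL k, A x * inf' x = ∑ z : LL k, ∑ x : LL k, A x * fl k z x := by
    unfold inf'
    simp_rw [Finset.mul_sum]
    exact Finset.sum_comm
  have h3 : ∑ x : LL k, A x * outf x = ∑ z : LL k, ∑ x : LL k, A z * fl k z x := by
    unfold outf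
    simp_rw [Finset.mul_sum]
  rw [h2, h3, ← Finset.sum_sub_distrib, Finset.mul_sum]
  apply Finset.sum_congr rfl
  intro z _
  unfold outf
  rw [← Finset.sum_sub_distrib, Finset.mul_sum]
  apply Finset.sum_congr rfl
  intro x _
  by_cases h : fl k z x = 0
  · simp [h]
  · have := (fl_up k z x h).2
    unfold A
    rw [this]
    push_cast
    ring

theorem sum_A_sq_le (k : ℕ) : ∑ x : LL k, A x ^ 2 ≤ 2 * (Fintype.card (LL k) * (k : ℝ) ^ 3) := by
  rw [sum_A_sq]
  have : ∑ x : LL k, outf x ≤ ∑ _x : LL k, (k : ℝ) ^ 3 := Finset.sum_le_sum fun x _ => outf_le x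
  simp only [Finset.sum_const, Finset.card_univ, nsmul_eq_mul] at this
  linarith

/-- the total weight of the chains -/
theorem source_le (k : ℕ) : (∑ x : LL k, (T x - inf' x)) ^ 2 ≤
    2 * (Fintype.card (LL k) : ℝ) ^ 2 * (k : ℝ) ^ 3 := by
  have h0 : ∀ x : LL k, 0 ≤ T x - inf' x := fun x => sub_nonneg.mpr (le_max_left _ _)
  have h1 : ∀ x : LL k, T x - inf' x ≤ |A x| := by
    intro x
    have := inf_sub_outf x
    unfold A T
    rw [← this]
    rcases le_total (inf' x) (outf x) with h | h
    · rw [max_eq_right h, abs_sub_comm]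
      exact le_abs_self _
    · rw [max_eq_left h, sub_self]
      exact abs_nonneg _
  have h2 : ∑ x : LL k, (T x - inf' x) ≤ ∑ x : LL k, |A x| := Finset.sum_le_sum fun x _ => h1 x
  have h3 : (∑ x : LL k, |A x|) ^ 2 ≤ (Fintype.card (LL k) : ℝ) * ∑ x : LL k, |A x| ^ 2 := by
    have := sq_sum_le_card_mul_sum_sq (s := (Finset.univ : Finset (LL k))) (f := fun x => |A x|)
    simpa using this
  have h4 : ∑ x : LL k, |A x| ^ 2 = ∑ x : LL k, A x ^ 2 := by
    simp_rw [sq_abs]
  have h5 := sum_A_sq_le k
  have h6 : 0 ≤ ∑ x : LL k, (T x - inf' x) := Finset.sum_nonneg fun x _ => h0 x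
  calc (∑ x : LL k, (T x - inf' x)) ^ 2 ≤ (∑ x : LL k, |A x|) ^ 2 :=
        pow_le_pow_left₀ h6 h2 2
    _ ≤ (Fintype.card (LL k) : ℝ) * ∑ x : LL k, |A x| ^ 2 := h3
    _ ≤ (Fintype.card (LL k) : ℝ) * (2 * (Fintype.card (LL k) * (k : ℝ) ^ 3)) := by
        rw [h4]
        exact mul_le_mul_of_nonneg_left h5 (Nat.cast_nonneg _)
    _ = 2 * (Fintype.card (LL k) : ℝ) ^ 2 * (k : ℝ) ^ 3 := by ring

/-! ### the two-step bound -/

theorem fl_le {k : ℕ} (x y : LL k) : fl k x y ≤ (k : ℝ) ^ 2 := by
  by_cases h : ∃ i : Fin k, y.1 = raise x.1 i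
  · obtain ⟨i, hi⟩ := h
    have hu : ∀ j : Fin k, y.1 = raise x.1 j → j = i := by
      intro j hj
      by_contra hne
      have h1 : y.1 j = x.1 j + 1 := by rw [hj]; simp [raise]
      have h2 : y.1 j = x.1 j := by rw [hi]; simp [raise, hne]
      omega
    unfold fl
    rw [Finset.sum_eq_single i]
    · rw [if_pos hi]
      exact c_le _ _
    · intro j _ hj
      rw [if_neg]
      exact fun h => hj (hu j h)
    · intro h
      exact absurd (Finset.mem_univ _) h
  · unfold fl
    rw [Finset.sum_eq_zero]
    · positivity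
    · intro i _
      rw [if_neg]
      exact fun hh => h ⟨i, hh⟩

/-- the flow out of `x` towards elements below `μ`, two ranks above `x`, is small -/
theorem sum_fl_le {k : ℕ} (x μ : LL k) (hr : rk μ = rk x + 2) :
    ∑ y : LL k, (if y < μ then fl k x y else 0) ≤ 2 * (k : ℝ) ^ 2 := by
  classical
  by_cases hxμ : x.1 ≤ μ.1
  swap
  · rw [Finset.sum_eq_zero]
    · positivity
    · intro y _
      split_ifs with h
      · by_contra hne
        exact hxμ (le_trans (fl_up k x y hne).1.le h.le)
      · rfl
  -- the coordinates where `x` and `μ` differ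
  have hcard : (Finset.univ.filter fun i : Fin k => x.1 i < μ.1 i).card ≤ 2 := by
    have h1 : ∑ i, μ.1 i = ∑ i, x.1 i + ∑ i, (μ.1 i - x.1 i) := by
      rw [← Finset.sum_add_distrib]
      apply Finset.sum_congr rfl
      intro i _
      have : x.1 i ≤ μ.1 i := hxμ i
      omega
    have h2 : ∑ i, (μ.1 i - x.1 i) = 2 := by
      unfold rk at hr
      omega
    have h3 : (Finset.univ.filter fun i : Fin k => x.1 i < μ.1 i).card ≤
        ∑ i, (μ.1 i - x.1 i) := by
      rw [Finset.card_filter]
      apply Finset.sum_le_sum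
      intro i _
      split_ifs with h
      · omega
      · omega
    omega
  unfold fl
  have h4 : ∀ y : LL k, (if y < μ then
      (∑ i : Fin k, if y.1 = raise x.1 i then c k (x.1 i + i + 1) else 0) else 0) =
      ∑ i : Fin k, if (y < μ ∧ y.1 = raise x.1 i) then c k (x.1 i + i + 1) else 0 := by
    intro y
    split_ifs with h
    · simp [h]
    · simp [h]
  simp_rw [h4]
  rw [Finset.sum_comm]
  have h5 : ∀ i ∈ (Finset.univ : Finset (Fin k)),
      ∑ y : LL k, (if (y < μ ∧ y.1 = raise x.1 i) then c k (x.1 i + i + 1) else 0) ≤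
      if x.1 i < μ.1 i then (k : ℝ) ^ 2 else 0 := by
    intro i _
    by_cases hi : ∃ y : LL k, y < μ ∧ y.1 = raise x.1 i
    · obtain ⟨y, hy, hyi⟩ := hi
      have hlt : x.1 i < μ.1 i := by
        have h6 : y.1 i ≤ μ.1 i := hy.le i
        have h7 : y.1 i = x.1 i + 1 := by rw [hyi]; simp [raise]
        omega
      rw [if_pos hlt, Finset.sum_eq_single y]
      · rw [if_pos ⟨hy, hyi⟩]
        exact c_le _ _
      · intro z _ hz
        rw [if_neg]
        rintro ⟨-, h⟩
        exact hz (Subtype.ext (h.trans hyi.symm))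
      · intro h
        exact absurd (Finset.mem_univ _) h
    · rw [Finset.sum_eq_zero]
      · split_ifs
        · positivity
        · exact le_rfl
      · intro y _
        rw [if_neg]
        exact fun h => hi ⟨y, h⟩
  refine le_trans (Finset.sum_le_sum h5) ?_
  rw [← Finset.sum_filter, Finset.sum_const, nsmul_eq_mul]
  have : ((Finset.univ.filter fun i : Fin k => x.1 i < μ.1 i).card : ℝ) ≤ 2 := by exact_mod_cast hcard
  nlinarith [sq_nonneg (k : ℝ)]

/-- `ext` changes only in one place -/
theorem ext_raise {k : ℕ} (x : Fin k → ℕ) (i : Fin k) (j : ℕ) (h : j ≠ i + 1) :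
    ext (raise x i) j = ext x j := by
  cases j with
  | zero => rfl
  | succ j =>
    simp only [ext]
    by_cases hj : j < k
    · simp only [hj, dif_pos]
      have : (⟨j, hj⟩ : Fin k) ≠ i := by
        intro he
        apply h
        rw [← he]
      simp [raise, this]
    · simp [hj]

/-- The outflow of a lower neighbour is not much smaller. -/
theorem outf_ge_of_fl {k : ℕ} (y μ : LL k) (h : fl k y μ ≠ 0) :
    outf μ - 2 * (k : ℝ) ^ 2 ≤ outf y := by
  classical
  unfold fl at h
  obtain ⟨i, -, hi⟩ := Finset.exists_ne_zero_of_sum_ne_zero h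
  have hy : μ.1 = raise y.1 i := by
    by_contra hc
    simp [hc] at hi
  rw [outf_eq, outf_eq]
  -- only the terms at `i` and `i - 1` change
  have key : ∀ j ∈ (Finset.univ : Finset (Fin k)),
      (if ext μ.1 (j + 1) < ext μ.1 (j + 2) then c k (μ.1 j + j + 1) else 0) ≤
      (if ext y.1 (j + 1) < ext y.1 (j + 2) then c k (y.1 j + j + 1) else 0) +
      (if j = i ∨ (j : ℕ) + 1 = i then (k : ℝ) ^ 2 else 0) := by
    intro j _
    by_cases hj : j = i ∨ (j : ℕ) + 1 = i
    · rw [if_pos hj]
      have h1 : (if ext μ.1 (j + 1) < ext μ.1 (j + 2) then c k (μ.1 j + j + 1) else 0) ≤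
          (k : ℝ) ^ 2 := by
        split_ifs
        · exact c_le _ _
        · positivity
      have h2 : 0 ≤ (if ext y.1 (j + 1) < ext y.1 (j + 2) then c k (y.1 j + j + 1) else 0) := by
        split_ifs
        · exact c_nonneg (pos_le y j)
        · exact le_rfl
      linarith
    · rw [if_neg hj, add_zero]
      push Not at hj
      have e1 : ext μ.1 (j + 1) = ext y.1 (j + 1) := by
        rw [hy]
        apply ext_raise
        intro he
        apply hj.1
        apply Fin.ext
        omega
      have e2 : ext μ.1 (j + 2) = ext y.1 (j + 2) := by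
        rw [hy]
        apply ext_raise
        intro he
        apply hj.2
        omega
      have e3 : μ.1 j = y.1 j := by
        rw [hy]
        simp [raise, hj.1]
      rw [e1, e2, e3]
  have h3 := Finset.sum_le_sum key
  rw [Finset.sum_add_distrib] at h3
  have h4 : ∑ j : Fin k, (if j = i ∨ (j : ℕ) + 1 = i then (k : ℝ) ^ 2 else 0) ≤ 2 * (k : ℝ) ^ 2 := by
    rw [← Finset.sum_filter, Finset.sum_const, nsmul_eq_mul]
    have hc : (Finset.univ.filter fun j : Fin k => j = i ∨ (j : ℕ) + 1 = i).card ≤ 2 := by
      by_cases hi0 : (i : ℕ) = 0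
      · refine le_trans (Finset.card_le_card (t := {i}) ?_) (by simp)
        intro j hj
        simp only [Finset.mem_filter, Finset.mem_univ, true_and] at hj
        rcases hj with h | h
        · simp [h]
        · omega
      · have hlt : (i : ℕ) - 1 < k := by have := i.2; omega
        refine le_trans (Finset.card_le_card (t := {i, ⟨i - 1, hlt⟩}) ?_) Finset.card_le_two
        intro j hj
        simp only [Finset.mem_filter, Finset.mem_univ, true_and] at hj
        rcases hj with h | h
        · simp [h]
        · simp only [Finset.mem_insert, Finset.mem_singleton]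
          right
          apply Fin.ext
          simp only
          omega
    have : ((Finset.univ.filter fun j : Fin k => j = i ∨ (j : ℕ) + 1 = i).card : ℝ) ≤ 2 := by
      exact_mod_cast hc
    nlinarith [sq_nonneg (k : ℝ)]
  linarith

/-- the two-step bound at an element with large outflow -/
theorem P2_le {k : ℕ} (μ : LL k) (s : ℝ) (hs : 0 < s) (hμ : s + 4 * (k : ℝ) ^ 2 ≤ outf μ)
    (x : LL k) :
    (flow k).P ((flow k).P (Flow.ind μ)) x ≤ 2 * (k : ℝ) ^ 4 / s ^ 2 := by
  classical
  have hT : ∀ y : LL k, (flow k).T y = T y := fun _ => rfl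
  have hf : ∀ y z : LL k, (flow k).f y z = fl k y z := fun _ _ => rfl
  have h1 : ∀ y : LL k, (flow k).P (Flow.ind μ) y = fl k y μ / T y := by
    intro y
    unfold Flow.P
    rw [hT]
    congr 1
    rw [Finset.sum_eq_single μ]
    · simp [Flow.ind, hf]
    · intro z _ hz
      simp [Flow.ind, hz]
    · intro h
      exact absurd (Finset.mem_univ _) h
  have h2 : (flow k).P ((flow k).P (Flow.ind μ)) x = (∑ y, fl k x y * (fl k y μ / T y)) / T x := by
    conv_lhs => unfold Flow.P
    rw [hT]
    congr 1
    apply Finset.sum_congr rfl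
    intro y _
    rw [hf]
    congr 1
    exact h1 y
  rw [h2]
  -- if there is a two-step path
  by_cases hp : ∃ y, fl k x y ≠ 0 ∧ fl k y μ ≠ 0
  · obtain ⟨y₀, hy1, hy2⟩ := hp
    have hk2 : (0 : ℝ) ≤ (k : ℝ) ^ 2 := by positivity
    have hr : rk μ = rk x + 2 := by
      have := (fl_up k x y₀ hy1).2
      have := (fl_up k y₀ μ hy2).2
      omega
    have hTy : ∀ y, fl k y μ ≠ 0 → s ≤ T y := by
      intro y hy
      have h3 := outf_ge_of_fl y μ hy
      have h4 : outf y ≤ T y := le_max_right _ _
      linarith
    have hTx : s ≤ T x := by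
      have h3 := outf_ge_of_fl y₀ μ hy2
      have h4 := outf_ge_of_fl x y₀ hy1
      have h5 : outf x ≤ T x := le_max_right _ _
      linarith
    have h3 : ∀ y ∈ (Finset.univ : Finset (LL k)), fl k x y * (fl k y μ / T y) ≤
        (if y < μ then fl k x y else 0) * ((k : ℝ) ^ 2 / s) := by
      intro y _
      by_cases hy : fl k y μ = 0
      · rw [hy, zero_div, mul_zero]
        apply mul_nonneg
        · split_ifs
          · exact fl_nonneg _ _ _
          · exact le_rfl
        · positivity
      · rw [if_pos (fl_up k y μ hy).1]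
        apply mul_le_mul_of_nonneg_left _ (fl_nonneg _ _ _)
        exact div_le_div₀ hk2 (fl_le y μ) hs (hTy y hy)
    have h4 : ∑ y, fl k x y * (fl k y μ / T y) ≤ 2 * (k : ℝ) ^ 2 * ((k : ℝ) ^ 2 / s) := by
      refine le_trans (Finset.sum_le_sum h3) ?_
      rw [← Finset.sum_mul]
      exact mul_le_mul_of_nonneg_right (sum_fl_le x μ hr) (by positivity)
    calc (∑ y, fl k x y * (fl k y μ / T y)) / T x
        ≤ (2 * (k : ℝ) ^ 2 * ((k : ℝ) ^ 2 / s)) / s := by
          apply div_le_div₀ (by positivity) h4 hs hTx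
      _ = 2 * (k : ℝ) ^ 4 / s ^ 2 := by
          field_simp
  · rw [Finset.sum_eq_zero, zero_div]
    · positivity
    · intro y _
      by_contra hne
      apply hp
      refine ⟨y, ?_, ?_⟩
      · intro h0
        simp [h0] at hne
      · intro h0
        simp [h0] at hne

end Pool.Agent.R127.LkkFlow
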