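import Mathlib
import Pool.Agent.R127.LkkFlow

/-!
Counting in `L(k,k)`: the number of elements, and the number of elements with small outflow.
-/

namespace Pool.Agent.R127.LkkFlow

open Finset

theorem shift_strictMono {k : ℕ} {x : Fin k → ℕ} (hx : InL k x) :
    StrictMono (fun i : Fin k => x i + i) := by
  intro i j h
  have := hx.1 h.le
  have := Fin.lt_def.mp h
  simp only
  omega

/-- the set of positions -/
def posSet {k : ℕ} (x : LL k) : Finset ℕ := Finset.univ.image (fun i : Fin k => x.1 i + i)

theorem posSet_injective (k : ℕ) : Function.Injective (posSet (k := k)) := by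
  intro x y h
  have h1 : Set.range (fun i : Fin k => x.1 i + (i : ℕ)) = Set.range (fun i : Fin k => y.1 i + (i : ℕ)) := by
    have := congrArg (fun s : Finset ℕ => (s : Set ℕ)) h
    simpa [posSet] using this
  rw [StrictMono.range_inj (shift_strictMono x.2) (shift_strictMono y.2)] at h1
  apply Subtype.ext
  funext i
  have := congrFun h1 i
  simpa using this

theorem posSet_mem {k : ℕ} (x : LL k) : posSet x ∈ powersetCard k (range (2 * k)) := by
  rw [mem_powersetCard]
  constructor
  · intro p hp
    simp only [posSet, mem_image, mem_univ, true_and] at hp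
    obtain ⟨i, rfl⟩ := hp
    have := pos_le x i
    exact mem_range.mpr (by omega)
  · unfold posSet
    rw [card_image_of_injective _ (shift_strictMono x.2).injective]
    simp

theorem gap {k : ℕ} {e : Fin k → ℕ} (he : StrictMono e) (d : ℕ) :
    ∀ (i : ℕ) (h : i + d < k), e ⟨i, by omega⟩ + d ≤ e ⟨i + d, h⟩ := by
  induction d with
  | zero => intro i h; exact le_rfl
  | succ d ih =>
    intro i h
    have h1 := ih i (by omega)
    have h2 : e ⟨i + d, by omega⟩ < e ⟨i + (d + 1), h⟩ := he (by rw [Fin.lt_def]; simp only; omega)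
    omega

theorem posSet_surj {k : ℕ} {s : Finset ℕ} (hs : s ∈ powersetCard k (range (2 * k))) :
    ∃ x : LL k, posSet x = s := by
  rw [mem_powersetCard] at hs
  let e := s.orderEmbOfFin hs.2
  have he : StrictMono e := (s.orderEmbOfFin hs.2).strictMono
  have h0 : ∀ i : Fin k, (i : ℕ) ≤ e i := by
    intro i
    have hk : 0 < k := lt_of_le_of_lt (Nat.zero_le _) i.2
    have := gap he i 0 (by have := i.2; omega)
    simp only [zero_add, Fin.eta] at this
    omega
  have hlt : ∀ i : Fin k, e i < 2 * k := by
    intro i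
    exact mem_range.mp (hs.1 (s.orderEmbOfFin_mem hs.2 i))
  have hmon : Monotone (fun i : Fin k => e i - (i : ℕ)) := by
    intro i j hij
    have hij' := Fin.le_def.mp hij
    have := gap he (j - i) i (by have := j.2; omega)
    have e2 : (⟨(i : ℕ) + (j - i), by have := j.2; omega⟩ : Fin k) = j := by
      apply Fin.ext
      simp only
      omega
    rw [e2] at this
    simp only [Fin.eta] at this
    simp only
    omega
  have hle : ∀ i : Fin k, e i - (i : ℕ) ≤ k := by
    intro i
    have hi := i.2
    have hl : k - 1 < k := by omega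
    have h1 : e i - (i : ℕ) ≤ e ⟨k - 1, hl⟩ - (k - 1) := hmon (by
      rw [Fin.le_def]
      simp only
      omega)
    have h2 := hlt ⟨k - 1, hl⟩
    omega
  refine ⟨⟨fun i => e i - i, hmon, hle⟩, ?_⟩
  have : (fun i : Fin k => (e i - (i : ℕ)) + (i : ℕ)) = fun i => e i := by
    funext i
    have := h0 i
    omega
  unfold posSet
  simp only [this]
  ext p
  simp only [mem_image, mem_univ, true_and]
  have := s.range_orderEmbOfFin hs.2
  constructor
  · rintro ⟨i, rfl⟩
    exact s.orderEmbOfFin_mem hs.2 i
  · intro hp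
    have : p ∈ Set.range (s.orderEmbOfFin hs.2) := by rw [this]; exact hp
    exact this

/-- `|L(k,k)| = C(2k, k)` -/
theorem card_LL (k : ℕ) : Fintype.card (LL k) = (2 * k).choose k := by
  have : (Finset.univ : Finset (LL k)).card = (powersetCard k (range (2 * k))).card := by
    apply Finset.card_bij (fun x _ => posSet x)
    · intro x _
      exact posSet_mem x
    · intro x _ y _ h
      exact posSet_injective k h
    · intro s hs
      obtain ⟨x, hx⟩ := posSet_surj hs
      exact ⟨x, Finset.mem_univ _, hx⟩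
  rw [← Finset.card_univ, this, card_powersetCard, card_range]

/-! ### few elements have small outflow -/

/-- the blocks of two positions -/
def blk {k : ℕ} (x : LL k) (j : Fin k) : Bool × Bool :=
  (decide (2 * (j : ℕ) ∈ posSet x), decide (2 * (j : ℕ) + 1 ∈ posSet x))

theorem blk_injective (k : ℕ) : Function.Injective (blk (k := k)) := by
  intro x y h
  apply posSet_injective
  ext p
  by_cases hp : p < 2 * k
  · have hj : p / 2 < k := by omega
    have h1 := congrFun h ⟨p / 2, hj⟩
    simp only [blk, Prod.mk.injEq, decide_eq_decide] at h1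
    rcases Nat.even_or_odd' p with ⟨q, hq | hq⟩
    · have : 2 * (p / 2) = p := by omega
      rw [this] at h1
      exact h1.1
    · have : 2 * (p / 2) + 1 = p := by omega
      rw [this] at h1
      exact h1.2
  · have h1 : p ∉ posSet x := fun hh => hp (mem_range.mp ((mem_powersetCard.mp (posSet_mem x)).1 hh))
    have h2 : p ∉ posSet y := fun hh => hp (mem_range.mp ((mem_powersetCard.mp (posSet_mem y)).1 hh))
    simp [h1, h2]

/-- the window -/
def win (k : ℕ) : Finset (Fin k) := Finset.univ.filter fun j => k ≤ 4 * (j : ℕ) ∧ 4 * (j : ℕ) + 2 ≤ 3 * k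

/-- the number of blocks in the window which can be raised -/
def J {k : ℕ} (b : Fin k → Bool × Bool) : ℕ := ((win k).filter fun j => b j = (true, false)).card

theorem raisable {k : ℕ} (x : LL k) (i : Fin k) (j : Fin k) (hij : x.1 i + i = 2 * j)
    (h : 2 * (j : ℕ) + 1 ∉ posSet x) : ext x.1 (i + 1) < ext x.1 (i + 2) := by
  have e1 : ext x.1 (i + 1) = x.1 i := ext_succ x.1 i
  rw [e1]
  by_cases hi : (i : ℕ) + 1 < k
  · have e2 : ext x.1 (i + 2) = x.1 ⟨i + 1, hi⟩ := by simp [ext, hi]
    rw [e2]
    have h1 : x.1 i ≤ x.1 ⟨i + 1, hi⟩ := x.2.1 (by simp [Fin.le_def])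
    rcases Nat.lt_or_ge (x.1 i) (x.1 ⟨i + 1, hi⟩) with h2 | h2
    · exact h2
    · exfalso
      apply h
      simp only [posSet, mem_image, mem_univ, true_and]
      refine ⟨⟨i + 1, hi⟩, ?_⟩
      simp only
      omega
  · have e2 : ext x.1 (i + 2) = k := by simp [ext, hi]
    rw [e2]
    have := x.2.2 i
    have := i.2
    have := j.2
    omega

theorem outf_ge {k : ℕ} (x : LL k) : (k : ℝ) ^ 2 / 4 * J (blk x) ≤ outf x := by
  classical
  rw [outf_eq]
  set I : Finset (Fin k) := Finset.univ.filter fun i =>
    ext x.1 (i + 1) < ext x.1 (i + 2) ∧ (k : ℝ) ^ 2 / 4 ≤ c k (x.1 i + i + 1) with hI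
  have h1 : (k : ℝ) ^ 2 / 4 * (I.card : ℝ) ≤
      ∑ i : Fin k, if ext x.1 (i + 1) < ext x.1 (i + 2) then c k (x.1 i + i + 1) else 0 := by
    calc (k : ℝ) ^ 2 / 4 * (I.card : ℝ) = ∑ _i ∈ I, (k : ℝ) ^ 2 / 4 := by
          rw [Finset.sum_const, nsmul_eq_mul]
          ring
      _ ≤ ∑ i ∈ I, if ext x.1 (i + 1) < ext x.1 (i + 2) then c k (x.1 i + i + 1) else 0 := by
          apply Finset.sum_le_sum
          intro i hi
          simp only [hI, mem_filter, mem_univ, true_and] at hi
          rw [if_pos hi.1]
          exact hi.2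
      _ ≤ _ := by
          apply Finset.sum_le_sum_of_subset_of_nonneg (Finset.subset_univ I)
          intro i _ _
          split_ifs
          · exact c_nonneg (pos_le x i)
          · exact le_rfl
  have h2 : J (blk x) ≤ I.card := by
    unfold J
    have hch : ∀ j : Fin k, ∃ i : Fin k, blk x j = (true, false) → x.1 i + i = 2 * j := by
      intro j
      by_cases hj : blk x j = (true, false)
      · simp only [blk, Prod.mk.injEq, decide_eq_true_eq, decide_eq_false_iff_not] at hj
        have := hj.1
        simp only [posSet, mem_image, mem_univ, true_and] at this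
        obtain ⟨i, hi⟩ := this
        exact ⟨i, fun _ => hi⟩
      · exact ⟨j, fun h => absurd h hj⟩
    choose g hg using hch
    apply Finset.card_le_card_of_injOn g
    · intro j hj
      simp only [coe_filter, Set.mem_ofPred_eq] at hj
      have hgj := hg j hj.2
      have hb := hj.2
      simp only [blk, Prod.mk.injEq, decide_eq_true_eq, decide_eq_false_iff_not] at hb
      have hw := hj.1
      simp only [win, mem_filter, mem_univ, true_and] at hw
      simp only [hI, coe_filter, mem_univ, true_and, Set.mem_ofPred_eq]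
      refine ⟨raisable x (g j) j hgj hb.2, ?_⟩
      have e1 : x.1 (g j) + (g j : ℕ) + 1 = 2 * j + 1 := by omega
      rw [e1]
      unfold c
      push_cast
      have a1 : (k : ℝ) ≤ 4 * (j : ℕ) := by exact_mod_cast hw.1
      have a2 : 4 * ((j : ℕ) : ℝ) + 2 ≤ 3 * k := by exact_mod_cast hw.2
      have a3 : (0 : ℝ) ≤ k := Nat.cast_nonneg k
      nlinarith
    · intro j hj j' hj' hjj
      simp only [coe_filter, Set.mem_ofPred_eq] at hj hj'
      have e1 := hg j hj.2
      have e2 := hg j' hj'.2
      rw [hjj] at e1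
      apply Fin.ext
      omega
  have h3 : (J (blk x) : ℝ) ≤ I.card := by exact_mod_cast h2
  have h4 : (0 : ℝ) ≤ (k : ℝ) ^ 2 / 4 := by positivity
  exact le_trans (mul_le_mul_of_nonneg_left h3 h4) h1

/-- few block sequences have few raisable blocks -/
theorem card_J_lt (k m : ℕ) :
    (((Finset.univ : Finset (Fin k → Bool × Bool)).filter fun b => J b < m).card : ℝ) ≤
      2 ^ m * (4 ^ k * (7 / 8) ^ (win k).card) := by
  classical
  let w : Fin k → Bool × Bool → ℝ := fun j v => if j ∈ win k ∧ v = (true, false) then 1 / 2 else 1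
  have hw0 : ∀ j v, 0 ≤ w j v := by
    intro j v
    simp only [w]
    split_ifs <;> norm_num
  have h1 : ∑ b : Fin k → Bool × Bool, ∏ j, w j (b j) = ∏ j : Fin k, ∑ v : Bool × Bool, w j v := by
    rw [Finset.prod_univ_sum]
    simp only [Fintype.piFinset_univ]
  have h2 : ∀ j : Fin k, ∑ v : Bool × Bool, w j v = if j ∈ win k then 4 * (7 / 8) else 4 := by
    intro j
    rw [Fintype.sum_prod_type]
    simp only [Fintype.sum_bool, w]
    by_cases hj : j ∈ win k
    · simp [hj]
      norm_num
    · simp [hj]
      norm_num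
  have h3 : ∏ j : Fin k, ∑ v : Bool × Bool, w j v = 4 ^ k * (7 / 8) ^ (win k).card := by
    simp_rw [h2]
    have : ∀ j : Fin k, (if j ∈ win k then (4 : ℝ) * (7 / 8) else 4) =
        4 * (if j ∈ win k then (7 / 8 : ℝ) else 1) := by
      intro j
      split_ifs <;> norm_num
    simp_rw [this]
    rw [Finset.prod_mul_distrib, Finset.prod_const, Finset.card_univ, Fintype.card_fin,
      Finset.prod_ite_mem, Finset.univ_inter, Finset.prod_const]
  have h4 : ∀ b : Fin k → Bool × Bool, ∏ j, w j (b j) = (1 / 2) ^ (J b) := by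
    intro b
    simp only [w]
    rw [Finset.prod_ite, Finset.prod_const, Finset.prod_const_one, mul_one]
    have : (Finset.univ.filter fun j : Fin k => j ∈ win k ∧ b j = (true, false)).card = J b := by
      unfold J
      congr 1
      ext j
      simp
    rw [this]
  have h5 : (((Finset.univ : Finset (Fin k → Bool × Bool)).filter fun b => J b < m).card : ℝ) *
      (1 / 2) ^ m ≤ ∑ b : Fin k → Bool × Bool, ∏ j, w j (b j) := by
    calc (((Finset.univ : Finset (Fin k → Bool × Bool)).filter fun b => J b < m).card : ℝ) *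
          (1 / 2) ^ m
        = ∑ _b ∈ (Finset.univ : Finset (Fin k → Bool × Bool)).filter (fun b => J b < m),
          (1 / 2 : ℝ) ^ m := by rw [Finset.sum_const, nsmul_eq_mul]
      _ ≤ ∑ b ∈ (Finset.univ : Finset (Fin k → Bool × Bool)).filter (fun b => J b < m),
          ∏ j, w j (b j) := by
          apply Finset.sum_le_sum
          intro b hb
          rw [h4]
          simp only [mem_filter, mem_univ, true_and] at hb
          exact pow_le_pow_of_le_one (by norm_num) (by norm_num) hb.le
      _ ≤ _ := by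
          apply Finset.sum_le_sum_of_subset_of_nonneg (Finset.subset_univ _)
          intro b _ _
          exact Finset.prod_nonneg fun j _ => hw0 j _
  rw [h1, h3] at h5
  have h6 : (0 : ℝ) < 2 ^ m := by positivity
  calc (((Finset.univ : Finset (Fin k → Bool × Bool)).filter fun b => J b < m).card : ℝ)
      = 2 ^ m * ((((Finset.univ : Finset (Fin k → Bool × Bool)).filter fun b => J b < m).card : ℝ) *
          (1 / 2) ^ m) := by
        rw [one_div, inv_pow]
        field_simp
    _ ≤ 2 ^ m * (4 ^ k * (7 / 8) ^ (win k).card) := mul_le_mul_of_nonneg_left h5 h6.le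

theorem card_win (k : ℕ) : k / 2 ≤ (win k).card + 1 := by
  rcases Nat.eq_zero_or_pos k with h0 | hk
  · subst h0
    simp
  have h : ((Finset.Ico ((k + 3) / 4) ((3 * k + 2) / 4)).attachFin fun n hn => by
      have := (Finset.mem_Ico.mp hn).2
      omega) ⊆ win k := by
    intro j hj
    simp only [mem_attachFin, mem_Ico] at hj
    simp only [win, mem_filter, mem_univ, true_and]
    omega
  have h2 := Finset.card_le_card h
  rw [Finset.card_attachFin, Nat.card_Ico] at h2
  omega

/-- the elements of small outflow are few -/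
theorem card_bad (k : ℕ) (hk : 30 ≤ k) :
    (((Finset.univ : Finset (LL k)).filter fun x => outf x < (k : ℝ) ^ 3 / 128).card : ℝ) ≤
      2 * (7 / 10) ^ (k / 16) * 4 ^ k := by
  classical
  have h1 : ((Finset.univ : Finset (LL k)).filter fun x => outf x < (k : ℝ) ^ 3 / 128).card ≤
      ((Finset.univ : Finset (Fin k → Bool × Bool)).filter fun b => J b < k / 16).card := by
    apply Finset.card_le_card_of_injOn blk
    · intro x hx
      simp only [coe_filter, mem_univ, true_and, Set.mem_ofPred_eq] at hx ⊢
      by_contra hc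
      push Not at hc
      have h2 := outf_ge x
      have h3 : ((k / 16 : ℕ) : ℝ) ≤ J (blk x) := by exact_mod_cast hc
      have h4 : (k : ℝ) ≤ 16 * ((k / 16 : ℕ) : ℝ) + 15 := by
        have : k ≤ 16 * (k / 16) + 15 := by omega
        exact_mod_cast this
      have h5 : (30 : ℝ) ≤ k := by exact_mod_cast hk
      have h6 : (0 : ℝ) ≤ (k : ℝ) ^ 2 := by positivity
      have h7 : (k : ℝ) / 32 ≤ J (blk x) := by linarith
      nlinarith
    · intro x _ y _ h
      exact blk_injective k h
  have h2 := card_J_lt k (k / 16)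
  have h3 : (((Finset.univ : Finset (LL k)).filter fun x => outf x < (k : ℝ) ^ 3 / 128).card : ℝ) ≤
      ((Finset.univ : Finset (Fin k → Bool × Bool)).filter fun b => J b < k / 16).card := by
    exact_mod_cast h1
  refine le_trans h3 (le_trans h2 ?_)
  have h4 : 8 * (k / 16) ≤ (win k).card + 1 := by
    have := card_win k
    omega
  have h5 : (7 / 8 : ℝ) ^ (win k).card ≤ 8 / 7 * ((7 / 8) ^ 8) ^ (k / 16) := by
    have h6 : (7 / 8 : ℝ) ^ ((win k).card + 1) ≤ (7 / 8) ^ (8 * (k / 16)) :=
      pow_le_pow_of_le_one (by norm_num) (by norm_num) h4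
    rw [pow_succ, pow_mul] at h6
    linarith
  have h7 : (2 : ℝ) ^ (k / 16) * ((7 / 8) ^ 8) ^ (k / 16) ≤ (7 / 10) ^ (k / 16) := by
    rw [← mul_pow]
    apply pow_le_pow_left₀ (by norm_num)
    norm_num
  have h8 : (0 : ℝ) ≤ (7 / 10) ^ (k / 16) := by positivity
  have h9 : (0 : ℝ) ≤ 4 ^ k := by positivity
  calc (2 : ℝ) ^ (k / 16) * (4 ^ k * (7 / 8) ^ (win k).card)
      ≤ (2 : ℝ) ^ (k / 16) * (4 ^ k * (8 / 7 * ((7 / 8) ^ 8) ^ (k / 16))) := by gcongr
    _ = 8 / 7 * ((2 : ℝ) ^ (k / 16) * ((7 / 8) ^ 8) ^ (k / 16)) * 4 ^ k := by ring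
    _ ≤ 8 / 7 * (7 / 10) ^ (k / 16) * 4 ^ k := by gcongr
    _ ≤ 2 * (7 / 10) ^ (k / 16) * 4 ^ k := by
        apply mul_le_mul_of_nonneg_right _ h9
        linarith

end Pool.Agent.R127.LkkFlow
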