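import Mathlib
import Pool.Agent.R127.LkkCount

/-!
Supersaturation of comparable pairs in `L(k,k)`.
-/

namespace Pool.Agent.R127.LkkFlow

open Finset Filter Topology Pool.Agent.R127.FlowChain

/-- the bad elements are eventually negligible -/
theorem eventually_bad (δ : ℝ) (hδ : 0 < δ) : ∃ k₀ : ℕ, ∀ k : ℕ, k₀ ≤ k →
    2 * (7 / 10 : ℝ) ^ (k / 16) * 4 ^ k ≤ δ * ((k : ℝ) ^ 2)⁻¹ * ((2 * k).choose k : ℝ) := by
  have ht : Tendsto (fun n : ℕ => (n : ℝ) ^ 3 * (7 / 10 : ℝ) ^ n) atTop (𝓝 0) :=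
    tendsto_pow_const_mul_const_pow_of_abs_lt_one 3 (by rw [abs_of_pos] <;> norm_num)
  have hev := ht.eventually (gt_mem_nhds (show (0 : ℝ) < δ / 30000 by positivity))
  obtain ⟨q₀, hq₀⟩ := eventually_atTop.mp hev
  refine ⟨16 * q₀ + 16, fun k hk => ?_⟩
  have hk0 : 0 < k := by omega
  have hk1 : (0 : ℝ) < k := by exact_mod_cast hk0
  have h1 := hq₀ (k / 16 + 1) (by omega)
  have h2 : (k : ℝ) ≤ 16 * ((k / 16 + 1 : ℕ) : ℝ) := by
    have : k ≤ 16 * (k / 16 + 1) := by omega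
    exact_mod_cast this
  have h3 : (4 : ℝ) ^ k ≤ 2 * k * ((2 * k).choose k : ℝ) := by
    have := Nat.four_pow_le_two_mul_self_mul_centralBinom k hk0
    rw [Nat.centralBinom_eq_two_mul_choose] at this
    exact_mod_cast this
  have h4 : (0 : ℝ) ≤ (7 / 10 : ℝ) ^ (k / 16) := by positivity
  have h5 : (0 : ℝ) ≤ ((2 * k).choose k : ℝ) := Nat.cast_nonneg _
  have h6 : (k : ℝ) ^ 3 * (7 / 10 : ℝ) ^ (k / 16) ≤ δ / 4 := by
    have e1 : (k : ℝ) ^ 3 ≤ (16 * ((k / 16 + 1 : ℕ) : ℝ)) ^ 3 := pow_le_pow_left₀ hk1.le h2 3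
    have e2 : (7 / 10 : ℝ) ^ (k / 16) = 10 / 7 * (7 / 10 : ℝ) ^ (k / 16 + 1) := by
      rw [pow_succ]
      ring
    rw [e2]
    calc (k : ℝ) ^ 3 * (10 / 7 * (7 / 10 : ℝ) ^ (k / 16 + 1))
        ≤ (16 * ((k / 16 + 1 : ℕ) : ℝ)) ^ 3 * (10 / 7 * (7 / 10 : ℝ) ^ (k / 16 + 1)) := by gcongr
      _ = 40960 / 7 * (((k / 16 + 1 : ℕ) : ℝ) ^ 3 * (7 / 10 : ℝ) ^ (k / 16 + 1)) := by ring
      _ ≤ 40960 / 7 * (δ / 30000) := by
          apply mul_le_mul_of_nonneg_left h1.le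
          norm_num
      _ ≤ δ / 4 := by linarith
  calc 2 * (7 / 10 : ℝ) ^ (k / 16) * 4 ^ k
      ≤ 2 * (7 / 10 : ℝ) ^ (k / 16) * (2 * k * ((2 * k).choose k : ℝ)) := by gcongr
    _ = 4 * ((k : ℝ) ^ 3 * (7 / 10 : ℝ) ^ (k / 16)) * ((k : ℝ) ^ 2)⁻¹ * ((2 * k).choose k : ℝ) := by
        field_simp
        ring
    _ ≤ 4 * (δ / 4) * ((k : ℝ) ^ 2)⁻¹ * ((2 * k).choose k : ℝ) := by gcongr
    _ = δ * ((k : ℝ) ^ 2)⁻¹ * ((2 * k).choose k : ℝ) := by ring

/-- **Supersaturation in `L(k,k)`**, for finite sets of elements. -/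
theorem supersat_LL : ∃ k₀ : ℕ, ∀ k : ℕ, k₀ ≤ k → ∀ U : Finset (LL k),
    1536 * ((k : ℝ) ^ (3 / 2 : ℝ))⁻¹ * ((2 * k).choose k : ℝ) ≤ (U.card : ℝ) →
    (k : ℝ) ^ 2 * U.card ≤ 67108864 * (((U ×ˢ U).filter fun p => p.1 < p.2).card : ℝ) := by
  obtain ⟨k₁, hk₁⟩ := eventually_bad 768 (by norm_num)
  refine ⟨max k₁ 1024, fun k hk U hU => ?_⟩
  have hkk : k₁ ≤ k := le_trans (le_max_left _ _) hk
  have hk2 : 1024 ≤ k := le_trans (le_max_right _ _) hk
  have hkr : (1024 : ℝ) ≤ k := by exact_mod_cast hk2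
  have hk0 : (0 : ℝ) < k := by linarith
  set N : ℝ := ((2 * k).choose k : ℝ) with hN
  have hN0 : 0 ≤ N := Nat.cast_nonneg _
  set z : ℝ := (k : ℝ) ^ (3 / 2 : ℝ) with hz
  have hz0 : 0 < z := Real.rpow_pos_of_pos hk0 _
  have hz2 : z ^ 2 = (k : ℝ) ^ 3 := by
    rw [hz, ← Real.rpow_natCast, ← Real.rpow_mul hk0.le, ← Real.rpow_natCast]
    norm_num
  have hzk : z ≤ (k : ℝ) ^ 2 := by
    have h1 : z ^ 2 ≤ ((k : ℝ) ^ 2) ^ 2 := by
      rw [hz2]
      nlinarith [pow_pos hk0 3]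
    exact le_of_sq_le_sq h1 (by positivity) |> fun h => h
  -- the good elements
  set G : Finset (LL k) := U.filter fun x => (k : ℝ) ^ 3 / 128 ≤ outf x with hG
  have hbad : (U.card : ℝ) ≤ G.card + 2 * (7 / 10) ^ (k / 16) * 4 ^ k := by
    have h1 : U.card = G.card + (U.filter fun x => ¬ (k : ℝ) ^ 3 / 128 ≤ outf x).card :=
      (Finset.card_filter_add_card_filter_not (s := U) fun x => (k : ℝ) ^ 3 / 128 ≤ outf x).symm
    have h2 : (U.filter fun x => ¬ (k : ℝ) ^ 3 / 128 ≤ outf x).card ≤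
        ((Finset.univ : Finset (LL k)).filter fun x => outf x < (k : ℝ) ^ 3 / 128).card := by
      apply Finset.card_le_card
      intro x hx
      simp only [mem_filter, mem_univ, true_and, not_le] at hx ⊢
      exact hx.2
    have h3 := card_bad k (by omega)
    have h4 : ((U.filter fun x => ¬ (k : ℝ) ^ 3 / 128 ≤ outf x).card : ℝ) ≤
        ((Finset.univ : Finset (LL k)).filter fun x => outf x < (k : ℝ) ^ 3 / 128).card := by
      exact_mod_cast h2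
    rw [h1]
    push_cast
    linarith
  have hhalf : (U.card : ℝ) ≤ 2 * G.card := by
    have h1 := hk₁ k hkk
    have h2 : 768 * ((k : ℝ) ^ 2)⁻¹ * N ≤ 768 * z⁻¹ * N := by
      have : ((k : ℝ) ^ 2)⁻¹ ≤ z⁻¹ := inv_anti₀ hz0 hzk
      gcongr
    have h3 : 768 * z⁻¹ * N ≤ (U.card : ℝ) / 2 := by
      have : 1536 * z⁻¹ * N = 2 * (768 * z⁻¹ * N) := by ring
      rw [this] at hU
      linarith
    linarith
  -- the inequality from the flow
  have hflow := (flow k).supersat (k * k + 1) (fun x => rk_lt x) G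
    (2 * (k : ℝ) ^ 4 / ((k : ℝ) ^ 3 / 256) ^ 2) ((k : ℝ) ^ 3) (by positivity) (fun x => T_le x) (by
      intro μ hμ x
      simp only [hG, mem_filter] at hμ
      apply P2_le μ ((k : ℝ) ^ 3 / 256) (by positivity)
      have : 4 * (k : ℝ) ^ 2 ≤ (k : ℝ) ^ 3 / 256 := by nlinarith [sq_nonneg (k : ℝ)]
      linarith [hμ.2])
  have hsrc : ∑ x, ((flow k).T x - ∑ w, (flow k).f w x) = ∑ x : LL k, (T x - inf' x) := rfl
  rw [hsrc] at hflow
  have hW : ∑ x : LL k, (T x - inf' x) ≤ 3 / 2 * N * z := by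
    have h1 := source_le k
    rw [card_LL] at h1
    apply le_of_sq_le_sq _ (by positivity)
    refine le_trans h1 ?_
    have : (3 / 2 * N * z) ^ 2 = 9 / 4 * N ^ 2 * (k : ℝ) ^ 3 := by
      rw [← hz2]
      ring
    rw [this]
    have h2 : 0 ≤ N ^ 2 * (k : ℝ) ^ 3 := by positivity
    rw [← hN]
    nlinarith
  have hT : (k : ℝ) ^ 3 / 128 * G.card ≤ ∑ x ∈ G, (flow k).T x := by
    calc (k : ℝ) ^ 3 / 128 * G.card = ∑ _x ∈ G, (k : ℝ) ^ 3 / 128 := by
          rw [Finset.sum_const, nsmul_eq_mul]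
          ring
      _ ≤ ∑ x ∈ G, (flow k).T x := by
          apply Finset.sum_le_sum
          intro x hx
          simp only [hG, mem_filter] at hx
          exact le_trans hx.2 (le_max_right _ _)
  have hNz : N * z ≤ (k : ℝ) ^ 3 * U.card / 1536 := by
    have h1 : 1536 * z⁻¹ * N * (z * z) ≤ U.card * (z * z) :=
      mul_le_mul_of_nonneg_right hU (by positivity)
    have h2 : 1536 * z⁻¹ * N * (z * z) = 1536 * (N * z) := by
      field_simp
    have h3 : z * z = (k : ℝ) ^ 3 := by rw [← hz2]; ring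
    rw [h2, h3] at h1
    linarith
  have hpairs : (((G ×ˢ G).filter fun p => p.1 < p.2).card : ℝ) ≤
      (((U ×ˢ U).filter fun p => p.1 < p.2).card : ℝ) := by
    have : ((G ×ˢ G).filter fun p => p.1 < p.2).card ≤ ((U ×ˢ U).filter fun p => p.1 < p.2).card := by
      apply Finset.card_le_card
      apply Finset.filter_subset_filter
      exact Finset.product_subset_product (Finset.filter_subset _ _) (Finset.filter_subset _ _)
    exact_mod_cast this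
  have hτβ : (k : ℝ) ^ 3 * (2 * (k : ℝ) ^ 4 / ((k : ℝ) ^ 3 / 256) ^ 2) = 131072 * k := by
    field_simp
    norm_num
  rw [hτβ] at hflow
  set E : ℝ := (((U ×ˢ U).filter fun p => p.1 < p.2).card : ℝ) with hE
  have h1 : (k : ℝ) ^ 3 / 128 * G.card ≤ 2 * (3 / 2 * N * z) + 131072 * k * E := by
    calc (k : ℝ) ^ 3 / 128 * G.card ≤ ∑ x ∈ G, (flow k).T x := hT
      _ ≤ 2 * ∑ x : LL k, (T x - inf' x) +
          131072 * k * (((G ×ˢ G).filter fun p => p.1 < p.2).card : ℝ) := hflow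
      _ ≤ 2 * (3 / 2 * N * z) + 131072 * k * E := by
          have : (0 : ℝ) ≤ 131072 * k := by positivity
          have := mul_le_mul_of_nonneg_left hpairs this
          linarith
  have h2 : (k : ℝ) ^ 3 * U.card / 256 ≤ (k : ℝ) ^ 3 / 128 * G.card := by
    have : (0 : ℝ) ≤ (k : ℝ) ^ 3 := by positivity
    nlinarith
  have h3 : (k : ℝ) ^ 3 * U.card ≤ 67108864 * k * E := by
    have : 3 * (N * z) ≤ (k : ℝ) ^ 3 * U.card / 512 := by linarith
    nlinarith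
  have h4 : k * ((k : ℝ) ^ 2 * U.card) ≤ k * (67108864 * E) := by
    calc k * ((k : ℝ) ^ 2 * U.card) = (k : ℝ) ^ 3 * U.card := by ring
      _ ≤ 67108864 * k * E := h3
      _ = k * (67108864 * E) := by ring
  exact le_of_mul_le_mul_left h4 hk0

end Pool.Agent.R127.LkkFlow
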