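import Mathlib
import Pool.Agent.R127.LkkSupersat

/-!
Counting antichains: a simple container argument, and its application to `L(k,k)`.
-/

namespace Pool.Agent.R127.LkkFlow

set_option linter.unusedSectionVars false

open Finset Filter Topology

section general

variable {α : Type*} [DecidableEq α] [PartialOrder α]

open Classical in
/-- the number of antichains contained in `U` -/
noncomputable def ac (U : Finset α) : ℕ :=
  (U.powerset.filter fun S : Finset α => IsAntichain (· ≤ ·) (S : Set α)).card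

open Classical in
/-- the elements of `U` comparable to `v` and different from `v` -/
noncomputable def nb (U : Finset α) (v : α) : Finset α := U.filter fun u => u < v ∨ v < u

theorem ac_le_two_pow (U : Finset α) : ac U ≤ 2 ^ U.card := by
  classical
  unfold ac
  rw [← card_powerset]
  exact card_filter_le _ _

theorem ac_le (U : Finset α) (v : α) (hv : v ∈ U) :
    ac U ≤ ac (U.erase v) + ac ((U.erase v) \ nb U v) := by
  classical
  unfold ac
  have h1 : (U.powerset.filter fun S : Finset α => IsAntichain (· ≤ ·) (S : Set α)).card =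
      ((U.powerset.filter fun S : Finset α => IsAntichain (· ≤ ·) (S : Set α)).filter fun S => v ∉ S).card +
      ((U.powerset.filter fun S : Finset α => IsAntichain (· ≤ ·) (S : Set α)).filter fun S => ¬ v ∉ S).card :=
    (Finset.card_filter_add_card_filter_not _).symm
  rw [h1]
  apply add_le_add
  · apply card_le_card
    intro S hS
    simp only [mem_filter, mem_powerset] at hS ⊢
    refine ⟨?_, hS.1.2⟩
    intro x hx
    rw [mem_erase]
    refine ⟨?_, hS.1.1 hx⟩
    rintro rfl
    exact hS.2 hx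
  · apply card_le_card_of_injOn (fun S => S.erase v)
    · intro S hS
      simp only [coe_filter, mem_filter, mem_powerset, Set.mem_ofPred_eq, not_not] at hS ⊢
      obtain ⟨⟨hSU, hA⟩, hvS⟩ := hS
      refine ⟨?_, ?_⟩
      · intro x hx
        rw [mem_erase] at hx
        rw [Finset.mem_sdiff, mem_erase]
        refine ⟨⟨hx.1, hSU hx.2⟩, ?_⟩
        intro hn
        simp only [nb, mem_filter] at hn
        rcases hn.2 with h | h
        · exact hA (mem_coe.mpr hx.2) (mem_coe.mpr hvS) hx.1 h.le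
        · exact hA (mem_coe.mpr hvS) (mem_coe.mpr hx.2) (Ne.symm hx.1) h.le
      · exact hA.subset (by
          intro x hx
          exact mem_coe.mpr (mem_of_mem_erase (mem_coe.mp hx)))
    · intro S hS S' hS' h
      simp only [coe_filter, mem_filter, mem_powerset, Set.mem_ofPred_eq, not_not] at hS hS'
      have h2 : insert v (S.erase v) = insert v (S'.erase v) := by
        rw [show S.erase v = S'.erase v from h]
      rwa [insert_erase hS.2, insert_erase hS'.2] at h2

/-- **A simple container bound.** If every `U` with at least `m` elements has an element comparable to at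
least `D` others, then the number of antichains in `U` is at most `2 ^ m * (1 + ε) ^ |U|`. -/
theorem ac_le_container (m : ℝ) (hm0 : 0 ≤ m) (D : ℕ) (ε : ℝ) (hε : 0 < ε) (hD : 1 / ε ≤ (1 + ε) ^ D)
    (h : ∀ U : Finset α, m ≤ (U.card : ℝ) → U.Nonempty → ∃ v ∈ U, D ≤ (nb U v).card) :
    ∀ n : ℕ, ∀ U : Finset α, U.card = n → (ac U : ℝ) ≤ (2 : ℝ) ^ m * (1 + ε) ^ n := by
  classical
  intro n
  induction n using Nat.strong_induction_on with
  | _ n ih =>
    intro U hU
    have h1 : (1 : ℝ) ≤ 1 + ε := by linarith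
    by_cases hm : m ≤ (U.card : ℝ) ∧ U.Nonempty
    · obtain ⟨v, hv, hvD⟩ := h U hm.1 hm.2
      have hcard1 : (U.erase v).card = n - 1 := by rw [card_erase_of_mem hv, hU]
      have hn0 : 0 < n := by rw [← hU]; exact card_pos.mpr ⟨v, hv⟩
      have hsub : nb U v ⊆ U.erase v := by
        intro x hx
        simp only [nb, mem_filter] at hx
        rw [mem_erase]
        refine ⟨?_, hx.1⟩
        rintro rfl
        rcases hx.2 with h | h <;> exact lt_irrefl _ h
      have hle : (nb U v).card ≤ n - 1 := by rw [← hcard1]; exact card_le_card hsub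
      have hcard2 : ((U.erase v) \ nb U v).card = n - 1 - (nb U v).card := by
        rw [card_sdiff_of_subset hsub, hcard1]
      have i1 := ih (n - 1) (by omega) (U.erase v) hcard1
      have i2 := ih (n - 1 - (nb U v).card) (by omega) ((U.erase v) \ nb U v) hcard2
      have h2m : (0 : ℝ) < (2 : ℝ) ^ m := Real.rpow_pos_of_pos (by norm_num) _
      have i3 : (1 + ε) ^ (n - 1 - (nb U v).card) ≤ ε * (1 + ε) ^ (n - 1) := by
        have e1 : (1 + ε) ^ (n - 1 - (nb U v).card) ≤ (1 + ε) ^ (n - 1 - D) :=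
          pow_le_pow_right₀ h1 (by omega)
        have e2 : (1 + ε) ^ (n - 1) = (1 + ε) ^ (n - 1 - D) * (1 + ε) ^ D := by
          rw [← pow_add]
          congr 1
          omega
        have e3 : 1 ≤ ε * (1 + ε) ^ D := by
          have := mul_le_mul_of_nonneg_left hD hε.le
          rwa [mul_one_div_cancel hε.ne'] at this
        have e4 : (0 : ℝ) ≤ (1 + ε) ^ (n - 1 - D) := by positivity
        calc (1 + ε) ^ (n - 1 - (nb U v).card) ≤ (1 + ε) ^ (n - 1 - D) := e1
          _ ≤ (1 + ε) ^ (n - 1 - D) * (ε * (1 + ε) ^ D) := by nlinarith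
          _ = ε * (1 + ε) ^ (n - 1) := by rw [e2]; ring
      have i4 : (ac U : ℝ) ≤ (ac (U.erase v) : ℝ) + (ac ((U.erase v) \ nb U v) : ℝ) := by
        exact_mod_cast ac_le U v hv
      calc (ac U : ℝ) ≤ (2 : ℝ) ^ m * (1 + ε) ^ (n - 1) +
            (2 : ℝ) ^ m * (1 + ε) ^ (n - 1 - (nb U v).card) := by linarith
        _ ≤ (2 : ℝ) ^ m * (1 + ε) ^ (n - 1) + (2 : ℝ) ^ m * (ε * (1 + ε) ^ (n - 1)) := by
            have := mul_le_mul_of_nonneg_left i3 h2m.le
            linarith
        _ = (2 : ℝ) ^ m * ((1 + ε) ^ (n - 1) * (1 + ε)) := by ring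
        _ = (2 : ℝ) ^ m * (1 + ε) ^ n := by
            rw [← pow_succ]
            congr 2
            omega
    · have h3 : (ac U : ℝ) ≤ (2 : ℝ) ^ n := by
        rw [← hU]
        exact_mod_cast ac_le_two_pow U
      have h5 : (1 : ℝ) ≤ (1 + ε) ^ n := one_le_pow₀ h1
      rcases U.eq_empty_or_nonempty with he | hne
      · have h4 : (2 : ℝ) ^ n ≤ (2 : ℝ) ^ m := by
          have : n = 0 := by rw [← hU, he]; rfl
          rw [this, pow_zero]
          exact Real.one_le_rpow (by norm_num) hm0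
        have h2m : (0 : ℝ) < (2 : ℝ) ^ m := Real.rpow_pos_of_pos (by norm_num) _
        nlinarith
      · have hm' : (n : ℝ) ≤ m := by
          rw [← hU]
          by_contra hc
          push Not at hc
          exact hm ⟨hc.le, hne⟩
        have h4 : (2 : ℝ) ^ n ≤ (2 : ℝ) ^ m := by
          rw [← Real.rpow_natCast]
          exact Real.rpow_le_rpow_of_exponent_le (by norm_num) hm'
        have h2m : (0 : ℝ) < (2 : ℝ) ^ m := Real.rpow_pos_of_pos (by norm_num) _
        nlinarith

/-- the degrees sum up to twice the number of comparable pairs -/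
theorem exists_nb [DecidableLT α] (U : Finset α) (hU : U.Nonempty) (D : ℕ)
    (h : (D : ℝ) * U.card ≤ 2 * (((U ×ˢ U).filter fun p => p.1 < p.2).card : ℝ)) :
    ∃ v ∈ U, D ≤ (nb U v).card := by
  classical
  by_contra hc
  push Not at hc
  have h1 : ∑ v ∈ U, (nb U v).card = 2 * ((U ×ˢ U).filter fun p => p.1 < p.2).card := by
    have e1 : ∀ v ∈ U, (nb U v).card = (U.filter fun u => u < v).card + (U.filter fun u => v < u).card := by
      intro v _
      have hd : Disjoint (U.filter fun u => u < v) (U.filter fun u => v < u) := by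
        rw [Finset.disjoint_filter]
        intro u _ h1 h2
        exact lt_asymm h1 h2
      rw [← card_union_of_disjoint hd, ← filter_or]
      unfold nb
      congr 1
      ext u
      simp only [mem_filter]
    rw [sum_congr rfl e1, sum_add_distrib, two_mul]
    congr 1
    · simp_rw [card_filter, sum_product]
      rw [sum_comm]
    · simp_rw [card_filter, sum_product]
  have h2 : ∑ v ∈ U, (nb U v).card < ∑ _v ∈ U, D := sum_lt_sum_of_nonempty hU hc
  rw [sum_const, smul_eq_mul, h1] at h2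
  have h3 : (2 : ℝ) * (((U ×ˢ U).filter fun p => p.1 < p.2).card : ℝ) < U.card * D := by
    exact_mod_cast h2
  linarith

end general

/-! ### the upper bound -/

theorem upper_bound : ∃ k₀ : ℕ, ∀ k : ℕ, k₀ ≤ k →
    (ac (Finset.univ : Finset (LL k)) : ℝ) ≤
      (2 : ℝ) ^ (1540 * ((k : ℝ) ^ (3 / 2 : ℝ))⁻¹ * ((2 * k).choose k : ℝ)) := by
  classical
  obtain ⟨k₁, hk₁⟩ := supersat_LL
  -- an auxiliary limit
  have ht : Tendsto (fun x : ℝ => x ^ 3 * Real.exp (-(1 / 536870912) * x)) atTop (𝓝 0) := by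
    have := Real.tendsto_pow_mul_exp_neg_atTop_nhds_zero 3
    have h2 : Tendsto (fun x : ℝ => (1 / 536870912) * x) atTop atTop :=
      Tendsto.const_mul_atTop (by norm_num) tendsto_id
    have h3 := (this.comp h2).const_mul ((536870912 : ℝ) ^ 3)
    rw [mul_zero] at h3
    refine h3.congr fun x => ?_
    simp only [Function.comp]
    rw [show -(1 / 536870912 : ℝ) * x = -(1 / 536870912 * x) by ring]
    ring
  have ht2 : Tendsto (fun k : ℕ => Real.sqrt (k : ℝ)) atTop atTop :=
    Real.tendsto_sqrt_atTop.comp tendsto_natCast_atTop_atTop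
  have hev := (ht.comp ht2).eventually (gt_mem_nhds (show (0 : ℝ) < 1 by norm_num))
  obtain ⟨k₂, hk₂⟩ := eventually_atTop.mp hev
  refine ⟨max (max k₁ k₂) 1000000000, fun k hk => ?_⟩
  have hkk1 : k₁ ≤ k := le_trans (le_trans (le_max_left _ _) (le_max_left _ _)) hk
  have hkk2 : k₂ ≤ k := le_trans (le_trans (le_max_right _ _) (le_max_left _ _)) hk
  have hkk3 : 1000000000 ≤ k := le_trans (le_max_right _ _) hk
  have hk3 : (1000000000 : ℝ) ≤ k := by exact_mod_cast hkk3
  have hk0 : (0 : ℝ) < k := by linarith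
  set N : ℝ := ((2 * k).choose k : ℝ) with hN
  have hN0 : 0 ≤ N := Nat.cast_nonneg _
  set z : ℝ := (k : ℝ) ^ (3 / 2 : ℝ) with hz
  have hz0 : 0 < z := Real.rpow_pos_of_pos hk0 _
  set r : ℝ := Real.sqrt (k : ℝ) with hr
  have hr0 : 0 < r := Real.sqrt_pos.mpr hk0
  have hr2 : r ^ 2 = k := Real.sq_sqrt hk0.le
  have hz3 : z = r ^ 3 := by
    rw [hz, hr, Real.sqrt_eq_rpow, ← Real.rpow_natCast, ← Real.rpow_mul hk0.le]
    norm_num
  have hr1 : 1 ≤ r := by
    rw [hr]
    exact Real.one_le_sqrt.mpr (by linarith)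
  set ε : ℝ := z⁻¹ with hε
  have hε0 : 0 < ε := inv_pos.mpr hz0
  have hε1 : ε ≤ 1 := by
    rw [hε]
    apply inv_le_one_of_one_le₀
    rw [hz3]
    exact one_le_pow₀ hr1
  set D : ℕ := ⌊(k : ℝ) ^ 2 / 33554432⌋₊ with hD
  have hD1 : (D : ℝ) ≤ (k : ℝ) ^ 2 / 33554432 := Nat.floor_le (by positivity)
  have hD2 : (k : ℝ) ^ 2 / 67108864 ≤ D := by
    have h1 : (k : ℝ) ^ 2 / 33554432 < D + 1 := Nat.lt_floor_add_one _
    nlinarith
  have hDε : 1 / ε ≤ (1 + ε) ^ D := by
    have h1 : Real.exp (ε / 2) ≤ 1 + ε := by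
      have h2 : |ε / 2| ≤ 1 := by rw [abs_of_pos (by positivity)]; linarith
      have h3 := Real.abs_exp_sub_one_sub_id_le h2
      have h4 := (abs_le.mp h3).2
      nlinarith
    have h2 : Real.exp (ε / 2 * D) ≤ (1 + ε) ^ D := by
      rw [mul_comm, Real.exp_nat_mul]
      exact pow_le_pow_left₀ (Real.exp_pos _).le h1 D
    have h3 : 1 / 536870912 * r ≤ ε / 2 * D := by
      have e1 : ε / 2 * ((k : ℝ) ^ 2 / 67108864) ≤ ε / 2 * D :=
        mul_le_mul_of_nonneg_left hD2 (by positivity)
      have e2 : ε / 2 * ((k : ℝ) ^ 2 / 67108864) = 1 / 134217728 * r := by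
        rw [hε, hz3, ← hr2]
        field_simp
        norm_num
      nlinarith
    have h4 := hk₂ k hkk2
    simp only [Function.comp] at h4
    have h5 : r ^ 3 ≤ Real.exp (1 / 536870912 * r) := by
      have h6 : r ^ 3 * Real.exp (-(1 / 536870912) * r) < 1 := h4
      have h7 : Real.exp (-(1 / 536870912) * r) * Real.exp (1 / 536870912 * r) = 1 := by
        rw [← Real.exp_add]
        simp
      have h8 : 0 < Real.exp (1 / 536870912 * r) := Real.exp_pos _
      calc r ^ 3 = r ^ 3 * Real.exp (-(1 / 536870912) * r) * Real.exp (1 / 536870912 * r) := by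
            rw [mul_assoc, h7, mul_one]
        _ ≤ 1 * Real.exp (1 / 536870912 * r) := mul_le_mul_of_nonneg_right h6.le h8.le
        _ = Real.exp (1 / 536870912 * r) := one_mul _
    have h6 : 1 / ε = r ^ 3 := by rw [hε, one_div, inv_inv, hz3]
    rw [h6]
    exact le_trans h5 (le_trans (Real.exp_le_exp.mpr h3) h2)
  have hmain := ac_le_container (α := LL k) (1536 * z⁻¹ * N) (by positivity) D ε hε0 hDε (by
    intro U hU hne
    apply exists_nb U hne D
    have h1 := hk₁ k hkk1 U hU
    have h2 : (0 : ℝ) ≤ U.card := Nat.cast_nonneg _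
    calc (D : ℝ) * U.card ≤ ((k : ℝ) ^ 2 / 33554432) * U.card :=
          mul_le_mul_of_nonneg_right hD1 h2
      _ ≤ 2 * (((U ×ˢ U).filter fun p => p.1 < p.2).card : ℝ) := by linarith)
    _ Finset.univ rfl
  refine le_trans hmain ?_
  rw [Finset.card_univ, card_LL]
  have h1 : (1 + ε) ^ ((2 * k).choose k) ≤ (2 : ℝ) ^ (4 * z⁻¹ * N) := by
    have h2 : 1 + ε ≤ (2 : ℝ) ^ (4 * ε) := by
      have h3 : 1 + ε ≤ Real.exp ε := by linarith [Real.add_one_le_exp ε]
      have h4 : Real.exp ε ≤ (2 : ℝ) ^ (4 * ε) := by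
        rw [Real.rpow_def_of_pos (by norm_num)]
        apply Real.exp_le_exp.mpr
        have := Real.log_two_gt_d9
        nlinarith
      linarith
    calc (1 + ε) ^ ((2 * k).choose k) ≤ ((2 : ℝ) ^ (4 * ε)) ^ ((2 * k).choose k) :=
          pow_le_pow_left₀ (by linarith) h2 _
      _ = (2 : ℝ) ^ (4 * z⁻¹ * N) := by
          rw [← Real.rpow_natCast, ← Real.rpow_mul (by norm_num)]
  calc (2 : ℝ) ^ (1536 * z⁻¹ * N) * (1 + ε) ^ ((2 * k).choose k)
      ≤ (2 : ℝ) ^ (1536 * z⁻¹ * N) * (2 : ℝ) ^ (4 * z⁻¹ * N) := by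
        apply mul_le_mul_of_nonneg_left h1
        positivity
    _ = (2 : ℝ) ^ (1540 * z⁻¹ * N) := by
        rw [← Real.rpow_add (by norm_num)]
        congr 1
        ring

/-! ### the lower bound -/

theorem exists_level (k : ℕ) (hk : 1 ≤ k) : ∃ r : ℕ,
    ((2 * k).choose k : ℝ) / (12 * (k : ℝ) ^ (3 / 2 : ℝ)) ≤
      ((Finset.univ : Finset (LL k)).filter fun x => rk x = r).card := by
  classical
  have hk1 : (1 : ℝ) ≤ k := by exact_mod_cast hk
  have hk0 : (0 : ℝ) < k := by linarith
  set N : ℝ := ((2 * k).choose k : ℝ) with hN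
  have hN0 : 0 ≤ N := Nat.cast_nonneg _
  set z : ℝ := (k : ℝ) ^ (3 / 2 : ℝ) with hz
  have hz0 : 0 < z := Real.rpow_pos_of_pos hk0 _
  have hz1 : 1 ≤ z := Real.one_le_rpow hk1 (by norm_num)
  have hz2 : z ^ 2 = (k : ℝ) ^ 3 := by
    rw [hz, ← Real.rpow_natCast, ← Real.rpow_mul hk0.le, ← Real.rpow_natCast]
    norm_num
  by_contra hc
  push Not at hc
  set M : Finset (LL k) := Finset.univ.filter fun x => |A x| ≤ 2 * z with hM
  have h1 : N / 2 ≤ M.card := by
    have e1 : (Fintype.card (LL k) : ℝ) = M.card +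
        ((Finset.univ : Finset (LL k)).filter fun x => ¬ |A x| ≤ 2 * z).card := by
      have := Finset.card_filter_add_card_filter_not (s := (Finset.univ : Finset (LL k)))
        fun x => |A x| ≤ 2 * z
      rw [← Finset.card_univ, ← this]
      push_cast
      rfl
    have e2 : (((Finset.univ : Finset (LL k)).filter fun x => ¬ |A x| ≤ 2 * z).card : ℝ) *
        (2 * z) ^ 2 ≤ 2 * (N * (k : ℝ) ^ 3) := by
      have e3 := sum_A_sq_le k
      rw [card_LL] at e3
      refine le_trans ?_ e3
      calc (((Finset.univ : Finset (LL k)).filter fun x => ¬ |A x| ≤ 2 * z).card : ℝ) *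
            (2 * z) ^ 2
          = ∑ _x ∈ (Finset.univ : Finset (LL k)).filter (fun x => ¬ |A x| ≤ 2 * z),
            (2 * z) ^ 2 := by rw [Finset.sum_const, nsmul_eq_mul]
        _ ≤ ∑ x ∈ (Finset.univ : Finset (LL k)).filter (fun x => ¬ |A x| ≤ 2 * z), A x ^ 2 := by
            apply Finset.sum_le_sum
            intro x hx
            simp only [mem_filter, mem_univ, true_and, not_le] at hx
            rw [← sq_abs (A x)]
            exact pow_le_pow_left₀ (by positivity) hx.le 2
        _ ≤ ∑ x : LL k, A x ^ 2 := by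
            apply Finset.sum_le_sum_of_subset_of_nonneg (Finset.subset_univ _)
            intro x _ _
            positivity
    rw [card_LL] at e1
    have e4 : (2 * z) ^ 2 = 4 * (k : ℝ) ^ 3 := by rw [← hz2]; ring
    rw [e4] at e2
    have e5 : (0 : ℝ) < (k : ℝ) ^ 3 := by positivity
    have e6 : (((Finset.univ : Finset (LL k)).filter fun x => ¬ |A x| ≤ 2 * z).card : ℝ) ≤ N / 2 := by
      have : (((Finset.univ : Finset (LL k)).filter fun x => ¬ |A x| ≤ 2 * z).card : ℝ) *
          (4 * (k : ℝ) ^ 3) ≤ N / 2 * (4 * (k : ℝ) ^ 3) := by linarith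
      exact le_of_mul_le_mul_right this (by positivity)
    linarith
  -- the ranks of the elements of `M`
  have h2 : (M.image rk).card ≤ 5 * z := by
    have e1 : ∀ r ∈ M.image rk, ∃ x : LL k, rk x = r ∧ |A x| ≤ 2 * z := by
      intro r hr
      simp only [hM, mem_image, mem_filter, mem_univ, true_and] at hr
      obtain ⟨x, hx, hxr⟩ := hr
      exact ⟨x, hxr, hx⟩
    have e2 : M.image rk ⊆ Finset.Icc ⌈((k : ℝ) ^ 2 - 2 * z) / 2⌉₊ ⌊((k : ℝ) ^ 2 + 2 * z) / 2⌋₊ := by
      intro r hr
      obtain ⟨x, hxr, hx⟩ := e1 r hr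
      unfold A at hx
      rw [hxr, abs_le] at hx
      rw [Finset.mem_Icc]
      constructor
      · apply Nat.ceil_le.mpr
        linarith
      · apply Nat.le_floor
        linarith
    have e3 := Finset.card_le_card e2
    rw [Nat.card_Icc] at e3
    have e4 : ((k : ℝ) ^ 2 - 2 * z) / 2 ≤ ⌈((k : ℝ) ^ 2 - 2 * z) / 2⌉₊ := Nat.le_ceil _
    have e5 : (⌊((k : ℝ) ^ 2 + 2 * z) / 2⌋₊ : ℝ) ≤ ((k : ℝ) ^ 2 + 2 * z) / 2 :=
      Nat.floor_le (by positivity)
    have e6 : ((M.image rk).card : ℝ) ≤
        (⌊((k : ℝ) ^ 2 + 2 * z) / 2⌋₊ + 1 - ⌈((k : ℝ) ^ 2 - 2 * z) / 2⌉₊ : ℕ) := by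
      exact_mod_cast e3
    rcases le_total ⌈((k : ℝ) ^ 2 - 2 * z) / 2⌉₊ (⌊((k : ℝ) ^ 2 + 2 * z) / 2⌋₊ + 1) with h | h
    · rw [Nat.cast_sub h] at e6
      push_cast at e6
      linarith
    · rw [Nat.sub_eq_zero_of_le h] at e6
      push_cast at e6
      linarith
  have h3 : (M.card : ℝ) ≤ ∑ r ∈ M.image rk, N / (12 * z) := by
    have e1 : M.card = ∑ r ∈ M.image rk, (M.filter fun x => rk x = r).card :=
      Finset.card_eq_sum_card_image rk M
    rw [e1]
    push_cast
    apply Finset.sum_le_sum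
    intro r _
    refine le_trans ?_ (hc r).le
    have : (M.filter fun x => rk x = r).card ≤
        ((Finset.univ : Finset (LL k)).filter fun x => rk x = r).card := by
      apply Finset.card_le_card
      intro x hx
      simp only [mem_filter, mem_univ, true_and] at hx ⊢
      exact hx.2
    exact_mod_cast this
  rw [Finset.sum_const, nsmul_eq_mul] at h3
  have h4 : ((M.image rk).card : ℝ) * (N / (12 * z)) ≤ 5 * z * (N / (12 * z)) :=
    mul_le_mul_of_nonneg_right h2 (by positivity)
  have h5 : 5 * z * (N / (12 * z)) = 5 / 12 * N := by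
    field_simp
  have hNpos : 0 < N := by
    rw [hN]
    exact_mod_cast Nat.choose_pos (by omega)
  linarith

theorem lower_bound (k : ℕ) (hk : 1 ≤ k) :
    (2 : ℝ) ^ (((2 * k).choose k : ℝ) / (12 * (k : ℝ) ^ (3 / 2 : ℝ))) ≤
      (ac (Finset.univ : Finset (LL k)) : ℝ) := by
  classical
  obtain ⟨r, hr⟩ := exists_level k hk
  have h1 : 2 ^ ((Finset.univ : Finset (LL k)).filter fun x => rk x = r).card ≤
      ac (Finset.univ : Finset (LL k)) := by
    unfold ac
    rw [← card_powerset]
    apply Finset.card_le_card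
    intro S hS
    rw [mem_powerset] at hS
    rw [mem_filter]
    refine ⟨mem_powerset.mpr (subset_univ _), ?_⟩
    intro x hx y hy hxy hle
    have hx' := (mem_filter.mp (hS (mem_coe.mp hx))).2
    have hy' := (mem_filter.mp (hS (mem_coe.mp hy))).2
    have hlt : x < y := lt_of_le_of_ne hle hxy
    have : rk x < rk y := by
      unfold rk
      obtain ⟨h2, i, h3⟩ := Pi.lt_def.mp (show x.1 < y.1 from hlt)
      exact Finset.sum_lt_sum (fun j _ => h2 j) ⟨i, Finset.mem_univ i, h3⟩
    omega
  calc (2 : ℝ) ^ (((2 * k).choose k : ℝ) / (12 * (k : ℝ) ^ (3 / 2 : ℝ)))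
      ≤ (2 : ℝ) ^ ((((Finset.univ : Finset (LL k)).filter fun x => rk x = r).card : ℕ) : ℝ) :=
        Real.rpow_le_rpow_of_exponent_le (by norm_num) hr
    _ = (2 : ℝ) ^ ((Finset.univ : Finset (LL k)).filter fun x => rk x = r).card :=
        Real.rpow_natCast _ _
    _ ≤ _ := by exact_mod_cast h1

end Pool.Agent.R127.LkkFlow
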