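import Mathlib

/-!
A connected graph `G` with `26` vertices and `36` edges for which the poset of connected spanning
subgraphs is not Sperner.

`G` consists of six hubs, five blocks joining consecutive hubs and an edge joining the first and the
last hub.  Every block consists of three internally disjoint paths of lengths `2, 2, 3`.
-/

namespace Pool.Agent.R127.Necklace

open Finset

/-- the vertices: the hubs and the inner vertices of the blocks -/
abbrev V : Type := Fin 6 ⊕ (Fin 5 × Fin 4)

/-- the edges: the closing edge `none` and seven edges in every block -/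
abbrev E : Type := Option (Fin 5 × Fin 7)

/-- ends of the edges of a block with the vertices `0, 1` (the two hubs), `2, 3, 4, 5` -/
def bsrc : Fin 7 → Fin 6 := ![0, 2, 0, 3, 0, 4, 5]

/-- ends of the edges of a block -/
def btgt : Fin 7 → Fin 6 := ![2, 1, 3, 1, 4, 5, 1]

/-- the vertices of the `i`-th block -/
def vtx (i : Fin 5) : Fin 6 → V :=
  ![Sum.inl i.castSucc, Sum.inl i.succ, Sum.inr (i, 0), Sum.inr (i, 1), Sum.inr (i, 2),
    Sum.inr (i, 3)]

/-- first end of an edge -/
def src : E → V
  | none => Sum.inl 0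
  | some (i, e) => vtx i (bsrc e)

/-- second end of an edge -/
def tgt : E → V
  | none => Sum.inl 5
  | some (i, e) => vtx i (btgt e)

/-- the edge as an unordered pair -/
def edge (e : E) : Sym2 V := s(src e, tgt e)

theorem edge_injective : Function.Injective edge := by
  have : ∀ e f : E, edge e = edge f → e = f := by
    decide +kernel
  exact fun e f h => this e f h

theorem src_ne_tgt : ∀ e : E, src e ≠ tgt e := by decide +kernel

/-- the spanning subgraph with a given set of edges -/
def sub (S : Finset E) : SimpleGraph V := SimpleGraph.fromEdgeSet (edge '' (S : Set E))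

/-- the graph -/
def G : SimpleGraph V := sub univ

theorem edgeSet_sub (S : Finset E) : (sub S).edgeSet = edge '' (S : Set E) := by
  rw [sub, SimpleGraph.edgeSet_fromEdgeSet]
  ext x
  simp only [Set.mem_sdiff, Set.mem_image, mem_coe, Sym2.mem_diagSet]
  constructor
  · rintro ⟨h, -⟩
    exact h
  · rintro ⟨e, he, rfl⟩
    refine ⟨⟨e, he, rfl⟩, ?_⟩
    simp only [edge, Sym2.mk_isDiag_iff]
    exact src_ne_tgt e

theorem ncard_edgeSet_sub (S : Finset E) : (sub S).edgeSet.ncard = S.card := by
  rw [edgeSet_sub, Set.ncard_image_of_injective _ edge_injective, Set.ncard_coe_finset]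

theorem sub_le_sub {S T : Finset E} : sub S ≤ sub T ↔ S ⊆ T := by
  rw [← SimpleGraph.edgeSet_subset_edgeSet, edgeSet_sub, edgeSet_sub,
    Set.image_subset_image_iff edge_injective, coe_subset]

theorem sub_injective : Function.Injective sub := by
  intro S T h
  exact Finset.Subset.antisymm (sub_le_sub.mp h.le) (sub_le_sub.mp h.ge)

open Classical in
theorem eq_sub (H : SimpleGraph V) (hH : H ≤ G) :
    H = sub (univ.filter fun e => edge e ∈ H.edgeSet) := by
  apply SimpleGraph.edgeSet_injective
  rw [edgeSet_sub]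
  ext x
  simp only [coe_filter, mem_univ, true_and, Set.mem_image, Set.mem_ofPred_eq]
  constructor
  · intro hx
    have h1 := (SimpleGraph.edgeSet_subset_edgeSet.mpr hH) hx
    rw [G, edgeSet_sub] at h1
    obtain ⟨e, -, rfl⟩ := h1
    exact ⟨e, hx, rfl⟩
  · rintro ⟨e, he, rfl⟩
    exact he

/-! ### connectivity -/

/-- `φ` is constant on the edges of `S` -/
def Compat (S : Finset E) (φ : V → Bool) : Prop := ∀ e ∈ S, φ (src e) = φ (tgt e)

theorem adj_sub {S : Finset E} {v w : V} : (sub S).Adj v w ↔
    ∃ e ∈ S, (src e = v ∧ tgt e = w) ∨ (src e = w ∧ tgt e = v) := by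
  rw [← SimpleGraph.mem_edgeSet, edgeSet_sub]
  simp only [Set.mem_image, mem_coe, edge, Sym2.eq_iff]

theorem connected_iff (S : Finset E) : (sub S).Connected ↔
    ∀ φ : V → Bool, Compat S φ → ∀ v w, φ v = φ w := by
  constructor
  · intro h φ hφ v w
    have hadj : ∀ v w, (sub S).Adj v w → φ v = φ w := by
      intro v w hvw
      obtain ⟨e, he, ⟨rfl, rfl⟩ | ⟨rfl, rfl⟩⟩ := adj_sub.mp hvw
      · exact hφ e he
      · exact (hφ e he).symm
    have hw : ∀ {v w : V}, (sub S).Walk v w → φ v = φ w := by
      intro v w p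
      induction p with
      | nil => rfl
      | cons hvw _ ih => exact (hadj _ _ hvw).trans ih
    obtain ⟨p⟩ := h.preconnected v w
    exact hw p
  · intro h
    have : Nonempty V := ⟨Sum.inl 0⟩
    refine SimpleGraph.Connected.mk ?_
    intro v w
    classical
    have h1 := h (fun u => decide ((sub S).Reachable v u)) (by
      intro e he
      have hadj : (sub S).Adj (src e) (tgt e) := adj_sub.mpr ⟨e, he, Or.inl ⟨rfl, rfl⟩⟩
      have : (sub S).Reachable v (src e) ↔ (sub S).Reachable v (tgt e) :=
        ⟨fun h => h.trans hadj.reachable, fun h => h.trans hadj.symm.reachable⟩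
      simp only [this]) v w
    have h2 : decide ((sub S).Reachable v v) = true := by
      simp
    rw [h2] at h1
    exact of_decide_eq_true h1.symm

/-! ### the blocks -/

/-- constant on the edges of `T`, in a block -/
def BCompat (T : Finset (Fin 7)) (ψ : Fin 6 → Bool) : Prop := ∀ e ∈ T, ψ (bsrc e) = ψ (btgt e)

instance (T : Finset (Fin 7)) (ψ : Fin 6 → Bool) : Decidable (BCompat T ψ) := by
  unfold BCompat
  infer_instance

/-- every vertex of the block is joined to a hub -/
def Att (T : Finset (Fin 7)) : Prop :=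
  ∀ ψ : Fin 6 → Bool, BCompat T ψ → ψ 0 = false → ψ 1 = false → ∀ v, ψ v = false

instance (T : Finset (Fin 7)) : Decidable (Att T) := by
  unfold Att
  infer_instance

/-- the hubs of the block are joined -/
def Con (T : Finset (Fin 7)) : Prop :=
  ∀ ψ : Fin 6 → Bool, BCompat T ψ → ψ 0 = ψ 1

instance (T : Finset (Fin 7)) : Decidable (Con T) := by
  unfold Con
  infer_instance

/-- the edges of `S` in the `i`-th block -/
def blk (S : Finset E) (i : Fin 5) : Finset (Fin 7) := univ.filter fun e => some (i, e) ∈ S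

theorem mem_blk {S : Finset E} {i : Fin 5} {e : Fin 7} : e ∈ blk S i ↔ some (i, e) ∈ S := by
  simp [blk]

theorem compat_iff {S : Finset E} {φ : V → Bool} : Compat S φ ↔
    (∀ i, BCompat (blk S i) (fun v => φ (vtx i v))) ∧
      (none ∈ S → φ (Sum.inl 0) = φ (Sum.inl 5)) := by
  constructor
  · intro h
    refine ⟨fun i e he => h (some (i, e)) (mem_blk.mp he), fun hn => h none hn⟩
  · rintro ⟨h1, h2⟩ e he
    rcases e with _ | ⟨i, e⟩
    · exact h2 he
    · exact h1 i e (mem_blk.mpr he)

/-- extend a function on a block by `false` -/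
def ext0 (i : Fin 5) (ψ : Fin 6 → Bool) : V → Bool
  | Sum.inl _ => false
  | Sum.inr (j, x) => if j = i then ψ (x.natAdd 2) else false

theorem ext0_self (i : Fin 5) (ψ : Fin 6 → Bool) (h0 : ψ 0 = false) (h1 : ψ 1 = false) (v : Fin 6) :
    ext0 i ψ (vtx i v) = ψ v := by
  fin_cases v
  · exact h0.symm
  · exact h1.symm
  all_goals simp [vtx, ext0]

theorem ext0_ne (i j : Fin 5) (hij : j ≠ i) (ψ : Fin 6 → Bool) (v : Fin 6) :
    ext0 i ψ (vtx j v) = false := by
  fin_cases v <;> simp [vtx, ext0, hij]

/-- extend a function on a block by `false` before and by `true` after the block -/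
def ext1 (i : Fin 5) (ψ : Fin 6 → Bool) : V → Bool
  | Sum.inl h => decide (i.val < h.val)
  | Sum.inr (j, x) => if j = i then ψ (x.natAdd 2) else decide (i < j)

theorem ext1_self (i : Fin 5) (ψ : Fin 6 → Bool) (h0 : ψ 0 = false) (h1 : ψ 1 = true) (v : Fin 6) :
    ext1 i ψ (vtx i v) = ψ v := by
  fin_cases v
  · simp [vtx, ext1, h0]
  · simp [vtx, ext1, h1]
  all_goals simp [vtx, ext1]

theorem ext1_ne (i j : Fin 5) (hij : j ≠ i) (ψ : Fin 6 → Bool) (v : Fin 6) :
    ext1 i ψ (vtx j v) = decide (i < j) := by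
  have h1 : (i.val < j.val ↔ i < j) := Iff.rfl
  have h2 : (i.val < j.val + 1 ↔ i < j) := by
    have h3 : j.val ≠ i.val := fun h => hij (Fin.ext h)
    rw [← h1]
    omega
  fin_cases v
  · simp [vtx, ext1]
  · simp only [vtx, ext1, Fin.mk_one, Matrix.cons_val_one, Matrix.cons_val_zero, Fin.val_succ, h2]
  all_goals simp [vtx, ext1, hij]

theorem exists_of_not_con {T : Finset (Fin 7)} (h : ¬ Con T) :
    ∃ ψ, BCompat T ψ ∧ ψ 0 = false ∧ ψ 1 = true := by
  unfold Con at h
  push Not at h
  obtain ⟨ψ, h1, h2⟩ := h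
  rcases h0 : ψ 0 with _ | _
  · rw [h0] at h2
    refine ⟨ψ, h1, h0, ?_⟩
    rcases h3 : ψ 1 with _ | _
    · rw [h3] at h2
      exact absurd rfl h2
    · rfl
  · rw [h0] at h2
    refine ⟨fun v => !ψ v, fun e he => by simp only [h1 e he], by simp [h0], ?_⟩
    rcases h3 : ψ 1 with _ | _
    · simp [h3]
    · rw [h3] at h2
      exact absurd rfl h2

theorem block_ext1 {S : Finset E} {i : Fin 5} {ψ : Fin 6 → Bool} (h : BCompat (blk S i) ψ)
    (h0 : ψ 0 = false) (h1 : ψ 1 = true) (j : Fin 5) :
    BCompat (blk S j) (fun v => ext1 i ψ (vtx j v)) := by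
  by_cases hij : j = i
  · subst hij
    intro e he
    simp only [ext1_self j ψ h0 h1]
    exact h e he
  · intro e _
    simp only [ext1_ne i j hij]

theorem att_of_connected {S : Finset E} (h : (sub S).Connected) (i : Fin 5) : Att (blk S i) := by
  rw [connected_iff] at h
  intro ψ hψ h0 h1 v
  have hc : Compat S (ext0 i ψ) := by
    rw [compat_iff]
    refine ⟨fun j => ?_, fun _ => rfl⟩
    by_cases hij : j = i
    · subst hij
      intro e he
      simp only [ext0_self j ψ h0 h1]
      exact hψ e he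
    · intro e _
      simp only [ext0_ne i j hij]
  rw [← ext0_self i ψ h0 h1 v]
  exact h _ hc _ (Sum.inl 0)

theorem none_mem_of_connected {S : Finset E} (h : (sub S).Connected) {i : Fin 5}
    (hi : ¬ Con (blk S i)) : none ∈ S := by
  by_contra hn
  rw [connected_iff] at h
  obtain ⟨ψ, hψ, h0, h1⟩ := exists_of_not_con hi
  have hc : Compat S (ext1 i ψ) := by
    rw [compat_iff]
    exact ⟨fun j => block_ext1 hψ h0 h1 j, fun h => absurd h hn⟩
  have := h _ hc (Sum.inl 0) (Sum.inl 5)
  have h5 : i.val < 5 := i.isLt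
  simp [ext1, h5] at this

theorem eq_of_connected {S : Finset E} (h : (sub S).Connected) {i j : Fin 5}
    (hi : ¬ Con (blk S i)) (hj : ¬ Con (blk S j)) : i = j := by
  rw [connected_iff] at h
  have key : ∀ i j : Fin 5, ¬ Con (blk S i) → ¬ Con (blk S j) → ¬ i < j := by
    intro i j hi hj hij
    obtain ⟨ψ, hψ, h0, h1⟩ := exists_of_not_con hi
    obtain ⟨ψ', hψ', h0', h1'⟩ := exists_of_not_con hj
    have hc : Compat S (fun v => xor (ext1 i ψ v) (ext1 j ψ' v)) := by
      rw [compat_iff]
      refine ⟨fun k e he => ?_, fun _ => ?_⟩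
      · have e1 := block_ext1 hψ h0 h1 k e he
        have e2 := block_ext1 hψ' h0' h1' k e he
        simp only at e1 e2 ⊢
        rw [e1, e2]
      · have h5 : i.val < 5 := i.isLt
        have h6 : j.val < 5 := j.isLt
        simp [ext1, h5, h6]
    have := h _ hc (Sum.inl 0) (Sum.inl j.castSucc)
    simp [ext1] at this
    exact absurd hij (not_lt.mpr this)
  rcases lt_trichotomy i j with h1 | h1 | h1
  · exact absurd h1 (key i j hi hj)
  · exact h1
  · exact absurd h1 (key j i hj hi)

theorem connected_of {S : Finset E} (hatt : ∀ i, Att (blk S i))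
    (hcon : ∀ i j, ¬ Con (blk S i) → ¬ Con (blk S j) → i = j)
    (hnone : ∀ i, ¬ Con (blk S i) → none ∈ S) : (sub S).Connected := by
  rw [connected_iff]
  intro φ hφ
  rw [compat_iff] at hφ
  obtain ⟨h1, h2⟩ := hφ
  have hc : ∀ i : Fin 5, Con (blk S i) → φ (Sum.inl i.castSucc) = φ (Sum.inl i.succ) :=
    fun i hi => hi _ (h1 i)
  -- the hubs
  have hub : ∀ k : Fin 6, φ (Sum.inl k) = φ (Sum.inl 0) := by
    have hall : ∃ i : Fin 5, (∀ j, j ≠ i → Con (blk S j)) ∧
        (Con (blk S i) ∨ φ (Sum.inl 0) = φ (Sum.inl 5)) := by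
      by_cases h : ∃ i, ¬ Con (blk S i)
      · obtain ⟨i, hi⟩ := h
        refine ⟨i, fun j hj => ?_, Or.inr (h2 (hnone i hi))⟩
        by_contra hj'
        exact hj (hcon j i hj' hi)
      · push Not at h
        exact ⟨0, fun j _ => h j, Or.inl (h 0)⟩
    obtain ⟨i, hi, hi'⟩ := hall
    have e0 : (0 : Fin 5) ≠ i → φ (Sum.inl 0) = φ (Sum.inl 1) := fun h => hc 0 (hi 0 h)
    have e1 : (1 : Fin 5) ≠ i → φ (Sum.inl 1) = φ (Sum.inl 2) := fun h => hc 1 (hi 1 h)
    have e2 : (2 : Fin 5) ≠ i → φ (Sum.inl 2) = φ (Sum.inl 3) := fun h => hc 2 (hi 2 h)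
    have e3 : (3 : Fin 5) ≠ i → φ (Sum.inl 3) = φ (Sum.inl 4) := fun h => hc 3 (hi 3 h)
    have e4 : (4 : Fin 5) ≠ i → φ (Sum.inl 4) = φ (Sum.inl 5) := fun h => hc 4 (hi 4 h)
    have e5 : φ (Sum.inl i.castSucc) = φ (Sum.inl i.succ) ∨ φ (Sum.inl 0) = φ (Sum.inl 5) :=
      hi'.imp (hc i) id
    have e6 : φ (Sum.inl 1) = φ (Sum.inl 0) ∧ φ (Sum.inl 2) = φ (Sum.inl 0) ∧
        φ (Sum.inl 3) = φ (Sum.inl 0) ∧ φ (Sum.inl 4) = φ (Sum.inl 0) ∧
        φ (Sum.inl 5) = φ (Sum.inl 0) := by
      clear hi hi' hc h2 h1 hcon hnone hatt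
      fin_cases i
      · have f1 := e1 (by decide)
        have f2 := e2 (by decide)
        have f3 := e3 (by decide)
        have f4 := e4 (by decide)
        have f5 : φ (Sum.inl 0) = φ (Sum.inl 1) ∨ φ (Sum.inl 0) = φ (Sum.inl 5) := e5
        clear e0 e1 e2 e3 e4 e5
        rcases f5 with f5 | f5 <;> simp_all
      · have f1 := e0 (by decide)
        have f2 := e2 (by decide)
        have f3 := e3 (by decide)
        have f4 := e4 (by decide)
        have f5 : φ (Sum.inl 1) = φ (Sum.inl 2) ∨ φ (Sum.inl 0) = φ (Sum.inl 5) := e5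
        clear e0 e1 e2 e3 e4 e5
        rcases f5 with f5 | f5 <;> simp_all
      · have f1 := e0 (by decide)
        have f2 := e1 (by decide)
        have f3 := e3 (by decide)
        have f4 := e4 (by decide)
        have f5 : φ (Sum.inl 2) = φ (Sum.inl 3) ∨ φ (Sum.inl 0) = φ (Sum.inl 5) := e5
        clear e0 e1 e2 e3 e4 e5
        rcases f5 with f5 | f5 <;> simp_all
      · have f1 := e0 (by decide)
        have f2 := e1 (by decide)
        have f3 := e2 (by decide)
        have f4 := e4 (by decide)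
        have f5 : φ (Sum.inl 3) = φ (Sum.inl 4) ∨ φ (Sum.inl 0) = φ (Sum.inl 5) := e5
        clear e0 e1 e2 e3 e4 e5
        rcases f5 with f5 | f5 <;> simp_all
      · have f1 := e0 (by decide)
        have f2 := e1 (by decide)
        have f3 := e2 (by decide)
        have f4 := e3 (by decide)
        have f5 : φ (Sum.inl 4) = φ (Sum.inl 5) ∨ φ (Sum.inl 0) = φ (Sum.inl 5) := e5
        clear e0 e1 e2 e3 e4 e5
        rcases f5 with f5 | f5 <;> simp_all
    obtain ⟨g1, g2, g3, g4, g5⟩ := e6
    intro k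
    fin_cases k
    · rfl
    · exact g1
    · exact g2
    · exact g3
    · exact g4
    · exact g5
  have hall : ∀ v, φ v = φ (Sum.inl 0) := by
    have hin : ∀ (i : Fin 5) (v : Fin 6), φ (vtx i v) = φ (Sum.inl 0) := by
      intro i v
      rcases h0 : φ (Sum.inl 0) with _ | _
      · exact hatt i _ (h1 i) ((hub i.castSucc).trans h0) ((hub i.succ).trans h0) v
      · have := hatt i (fun v => !φ (vtx i v)) (fun e he => by
          have := h1 i e he
          simp only at this ⊢
          rw [this]) (by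
            have : φ (vtx i 0) = true := (hub i.castSucc).trans h0
            simp [this]) (by
            have : φ (vtx i 1) = true := (hub i.succ).trans h0
            simp [this]) v
        simpa using this
    rintro (k | ⟨i, x⟩)
    · exact hub k
    · fin_cases x
      · exact hin i 2
      · exact hin i 3
      · exact hin i 4
      · exact hin i 5
  intro v w
  rw [hall v, hall w]

/-- the connected spanning subgraphs -/
theorem connected_iff' (S : Finset E) : (sub S).Connected ↔
    (∀ i, Att (blk S i)) ∧ (∀ i j, ¬ Con (blk S i) → ¬ Con (blk S j) → i = j) ∧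
      ∀ i, ¬ Con (blk S i) → none ∈ S :=
  ⟨fun h => ⟨att_of_connected h, fun _ _ hi hj => eq_of_connected h hi hj,
    fun _ hi => none_mem_of_connected h hi⟩, fun h => connected_of h.1 h.2.1 h.2.2⟩

end Pool.Agent.R127.Necklace
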