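import Mathlib
import Pool.Agent.R127.Necklace

/-!
Counting the connected spanning subgraphs of the graph of `Pool.Agent.R127.Necklace`.
-/

namespace Pool.Agent.R127.Necklace

open Finset Polynomial

theorem card_conn : ∀ k : Fin 8,
    ((univ : Finset (Finset (Fin 7))).filter fun T => (Att T ∧ Con T) ∧ T.card = k.val).card =
    (![0, 0, 0, 0, 0, 16, 7, 1] : Fin 8 → ℕ) k := by
  decide +kernel

theorem card_sep : ∀ k : Fin 8,
    ((univ : Finset (Finset (Fin 7))).filter fun T => (Att T ∧ ¬ Con T) ∧ T.card = k.val).card =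
    (![0, 0, 0, 0, 12, 0, 0, 0] : Fin 8 → ℕ) k := by
  decide +kernel

theorem sum_block (Q : Finset (Fin 7) → Prop) [DecidablePred Q] (c : Fin 8 → ℕ)
    (h : ∀ k : Fin 8, ((univ : Finset (Finset (Fin 7))).filter fun T =>
      Q T ∧ T.card = k.val).card = c k) :
    ∃ F : Finset (Finset (Fin 7)), (∀ T, T ∈ F ↔ Q T) ∧
      ∑ T ∈ F, (X : ℕ[X]) ^ T.card = ∑ k : Fin 8, (c k : ℕ[X]) * X ^ k.val := by
  refine ⟨univ.filter Q, fun T => by simp, ?_⟩
  have h1 : ∑ T ∈ univ.filter Q, (X : ℕ[X]) ^ T.card =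
      ∑ k ∈ range 8, ∑ T ∈ univ.filter Q with T.card = k, (X : ℕ[X]) ^ T.card := by
    rw [Finset.sum_fiberwise_of_maps_to]
    intro T _
    have : T.card ≤ 7 := by simpa using card_le_univ T
    rw [mem_range]
    omega
  rw [h1, Finset.sum_range]
  refine Finset.sum_congr rfl fun k _ => ?_
  rw [Finset.sum_congr rfl (g := fun _ => (X : ℕ[X]) ^ k.val), Finset.sum_const, nsmul_eq_mul]
  · rw [← h k, filter_filter]
  · intro T hT
    rw [(mem_filter.mp hT).2]

/-- the edge sets of a block that are connected -/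
theorem exists_conn : ∃ F : Finset (Finset (Fin 7)), (∀ T, T ∈ F ↔ Att T ∧ Con T) ∧
    ∑ T ∈ F, (X : ℕ[X]) ^ T.card = 16 * X ^ 5 + 7 * X ^ 6 + X ^ 7 := by
  obtain ⟨F, h1, h2⟩ := sum_block _ _ card_conn
  refine ⟨F, h1, ?_⟩
  rw [h2]
  simp [Fin.sum_univ_succ]
  ring

/-- the edge sets of a block with two components that separate the hubs -/
theorem exists_sep : ∃ F : Finset (Finset (Fin 7)), (∀ T, T ∈ F ↔ Att T ∧ ¬ Con T) ∧
    ∑ T ∈ F, (X : ℕ[X]) ^ T.card = 12 * X ^ 4 := by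
  obtain ⟨F, h1, h2⟩ := sum_block _ _ card_sep
  refine ⟨F, h1, ?_⟩
  rw [h2]
  simp [Fin.sum_univ_succ]

/-- total number of edges in the blocks -/
def tot (b : Fin 5 → Finset (Fin 7)) : ℕ := ∑ i, (b i).card

theorem exists_pi (t : Fin 5 → Finset (Finset (Fin 7))) :
    ∃ F : Finset (Fin 5 → Finset (Fin 7)), (∀ b, b ∈ F ↔ ∀ i, b i ∈ t i) ∧
    ∑ b ∈ F, (X : ℕ[X]) ^ tot b = ∏ i, ∑ T ∈ t i, (X : ℕ[X]) ^ T.card := by
  refine ⟨Fintype.piFinset t, fun b => Fintype.mem_piFinset, ?_⟩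
  rw [Finset.prod_univ_sum]
  refine Finset.sum_congr rfl fun b _ => ?_
  rw [tot, Finset.prod_pow_eq_pow_sum]

theorem exists_union {α : Type} (A : Finset α) (B : Fin 5 → Finset α)
    (h1 : ∀ b ∈ A, ∀ i, b ∉ B i) (h2 : ∀ b i j, b ∈ B i → b ∈ B j → i = j) (f : α → ℕ[X]) :
    ∃ F : Finset α, (∀ b, b ∈ F ↔ b ∈ A ∨ ∃ i, b ∈ B i) ∧
      ∑ b ∈ F, f b = ∑ b ∈ A, f b + ∑ i, ∑ b ∈ B i, f b := by
  classical
  refine ⟨A ∪ univ.biUnion B, fun b => by simp, ?_⟩
  rw [sum_union, sum_biUnion]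
  · intro i _ j _ hij
    rw [Function.onFun, disjoint_left]
    intro b hb hb'
    exact hij (h2 b i j hb hb')
  · rw [disjoint_left]
    intro b hb hb'
    rw [mem_biUnion] at hb'
    obtain ⟨i, -, hi⟩ := hb'
    exact h1 b hb i hi

theorem const_sum (p q : ℕ[X]) : p + ∑ _i : Fin 5, q = p + 5 * q := by
  simp

theorem const_prod (p : ℕ[X]) : ∏ _i : Fin 5, p = p ^ 5 := by
  simp

theorem update_prod (p q : ℕ[X]) (i : Fin 5) :
    ∏ j : Fin 5, Function.update (fun _ => p) i q j = p ^ 4 * q := by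
  rw [Finset.prod_update_of_mem (mem_univ i), Finset.prod_const]
  simp only [← Finset.erase_eq, card_erase_of_mem (mem_univ i), card_univ, Fintype.card_fin]
  ring

/-- the block parts of the connected spanning subgraphs without the closing edge, and the block
parts of the connected spanning subgraphs with the closing edge -/
theorem exists_parts : ∃ A D : Finset (Fin 5 → Finset (Fin 7)),
    (∀ b, b ∈ A ↔ ∀ i, Att (b i) ∧ Con (b i)) ∧
    (∀ b, b ∈ D ↔ (∀ i, Att (b i)) ∧ ∀ i j, ¬ Con (b i) → ¬ Con (b j) → i = j) ∧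
    ∑ b ∈ A, (X : ℕ[X]) ^ tot b = (16 * X ^ 5 + 7 * X ^ 6 + X ^ 7) ^ 5 ∧
    ∑ b ∈ D, (X : ℕ[X]) ^ tot b = (16 * X ^ 5 + 7 * X ^ 6 + X ^ 7) ^ 5 +
      5 * ((16 * X ^ 5 + 7 * X ^ 6 + X ^ 7) ^ 4 * (12 * X ^ 4)) := by
  obtain ⟨𝒞, hC, hC'⟩ := exists_conn
  obtain ⟨𝒮, hS, hS'⟩ := exists_sep
  obtain ⟨A, hA, hA'⟩ := exists_pi (fun _ => 𝒞)
  choose B hB hB' using fun i : Fin 5 => exists_pi (Function.update (fun _ => 𝒞) i 𝒮)
  have hBm : ∀ i b, b ∈ B i ↔ b i ∈ 𝒮 ∧ ∀ j, j ≠ i → b j ∈ 𝒞 := by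
    intro i b
    rw [hB]
    constructor
    · intro h
      refine ⟨by simpa using h i, fun j hj => ?_⟩
      have := h j
      rwa [Function.update_of_ne hj] at this
    · rintro ⟨h1, h2⟩ j
      by_cases hj : j = i
      · subst hj
        simpa using h1
      · rw [Function.update_of_ne hj]
        exact h2 j hj
  obtain ⟨D, hD, hD'⟩ := exists_union A B
    (by
      intro b hb i hi
      rw [hBm, hS] at hi
      rw [hA] at hb
      exact hi.1.2 ((hC _).mp (hb i)).2)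
    (by
      intro b i j hb hb'
      by_contra hij
      rw [hBm] at hb hb'
      exact ((hS _).mp hb.1).2 ((hC _).mp (hb'.2 i hij)).2)
    (fun b => (X : ℕ[X]) ^ tot b)
  have e1 : ∑ b ∈ A, (X : ℕ[X]) ^ tot b = (16 * X ^ 5 + 7 * X ^ 6 + X ^ 7) ^ 5 := by
    rw [hA', hC', const_prod]
  have e2 : ∀ i, ∑ b ∈ B i, (X : ℕ[X]) ^ tot b =
      (16 * X ^ 5 + 7 * X ^ 6 + X ^ 7) ^ 4 * (12 * X ^ 4) := by
    intro i
    rw [hB', ← update_prod _ _ i]
    refine Finset.prod_congr rfl fun j _ => ?_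
    by_cases hj : j = i
    · subst hj
      rw [Function.update_self, Function.update_self, hS']
    · rw [Function.update_of_ne hj, Function.update_of_ne hj, hC']
  refine ⟨A, D, fun b => ?_, fun b => ?_, e1, ?_⟩
  · rw [hA]
    exact forall_congr' fun i => hC _
  · rw [hD, hA]
    constructor
    · rintro (h | ⟨i, hi⟩)
      · refine ⟨fun i => ((hC _).mp (h i)).1, fun i j hi _ => ?_⟩
        exact absurd ((hC _).mp (h i)).2 hi
      · rw [hBm] at hi
        obtain ⟨h1, h2⟩ := hi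
        have h3 : ∀ j, ¬ Con (b j) → j = i := by
          intro j hj
          by_contra hne
          exact hj ((hC _).mp (h2 j hne)).2
        refine ⟨fun j => ?_, fun j k hj hk => (h3 j hj).trans (h3 k hk).symm⟩
        by_cases hj : j = i
        · subst hj
          exact ((hS _).mp h1).1
        · exact ((hC _).mp (h2 j hj)).1
    · rintro ⟨h1, h2⟩
      by_cases h : ∀ i, Con (b i)
      · exact Or.inl fun i => (hC _).mpr ⟨h1 i, h i⟩
      · push Not at h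
        obtain ⟨i, hi⟩ := h
        refine Or.inr ⟨i, (hBm i b).mpr ⟨(hS _).mpr ⟨h1 i, hi⟩, fun j hj => (hC _).mpr ⟨h1 j, ?_⟩⟩⟩
        by_contra hc
        exact hj (h2 j i hc hi)
  · rw [hD', e1, Finset.sum_congr rfl (fun i _ => e2 i), const_sum]

/-- the coefficients of the first polynomial -/
def ac : List ℕ := [0, 0, 0, 0, 0, 0, 0, 0, 0, 0, 0, 0, 0, 0, 0, 0, 0, 0, 0, 0, 0, 0, 0, 0, 0,
  1048576, 2293760, 2334720, 1451520, 609360, 180327, 38085, 5670, 570, 35, 1]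

/-- the coefficients of the second polynomial -/
def acd : List ℕ := [0, 0, 0, 0, 0, 0, 0, 0, 0, 0, 0, 0, 0, 0, 0, 0, 0, 0, 0, 0, 0, 0, 0, 0,
  3932160, 7929856, 7792640, 4942080, 2252220, 772320, 201807, 39765, 5730, 570, 35, 1]

theorem poly_A : (16 * X ^ 5 + 7 * X ^ 6 + X ^ 7 : ℕ[X]) ^ 5 =
    ∑ k ∈ range 36, C (ac.getD k 0) * X ^ k := by
  simp only [ac, Finset.sum_range_succ, Finset.sum_range_zero, List.getD_cons_zero,
    List.getD_cons_succ, map_zero, zero_mul, zero_add, map_one, one_mul, map_ofNat, add_zero]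
  ring

theorem poly_D : (16 * X ^ 5 + 7 * X ^ 6 + X ^ 7 : ℕ[X]) ^ 5 +
    5 * ((16 * X ^ 5 + 7 * X ^ 6 + X ^ 7) ^ 4 * (12 * X ^ 4)) =
    ∑ k ∈ range 36, C (acd.getD k 0) * X ^ k := by
  simp only [acd, Finset.sum_range_succ, Finset.sum_range_zero, List.getD_cons_zero,
    List.getD_cons_succ, map_zero, zero_mul, zero_add, map_one, one_mul, map_ofNat, add_zero]
  ring

theorem coeff_gen (F : Finset (Fin 5 → Finset (Fin 7))) (s : ℕ) :
    (∑ b ∈ F, (X : ℕ[X]) ^ tot b).coeff s = (F.filter fun b => tot b = s).card := by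
  rw [finsetSum_coeff, card_filter]
  refine Finset.sum_congr rfl fun b _ => ?_
  rw [coeff_X_pow]
  simp only [eq_comm]

theorem coeff_list (l : List ℕ) (n s : ℕ) :
    (∑ k ∈ range n, C (l.getD k 0) * X ^ k : ℕ[X]).coeff s = if s < n then l.getD s 0 else 0 := by
  rw [finsetSum_coeff]
  simp only [coeff_C_mul, coeff_X_pow, mul_ite, mul_one, mul_zero]
  rw [Finset.sum_ite_eq (range n) s (fun k => l.getD k 0)]
  simp only [mem_range]

/-- the numbers of block parts -/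
theorem exists_counts : ∃ A D : Finset (Fin 5 → Finset (Fin 7)),
    (∀ b, b ∈ A ↔ ∀ i, Att (b i) ∧ Con (b i)) ∧
    (∀ b, b ∈ D ↔ (∀ i, Att (b i)) ∧ ∀ i j, ¬ Con (b i) → ¬ Con (b j) → i = j) ∧
    (∀ s, (A.filter fun b => tot b = s).card = if s < 36 then ac.getD s 0 else 0) ∧
    (∀ s, (D.filter fun b => tot b = s).card = if s < 36 then acd.getD s 0 else 0) := by
  obtain ⟨A, D, hA, hD, hA', hD'⟩ := exists_parts
  refine ⟨A, D, hA, hD, fun s => ?_, fun s => ?_⟩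
  · rw [← coeff_gen, hA', poly_A, coeff_list]
  · rw [← coeff_gen, hD', poly_D, coeff_list]

end Pool.Agent.R127.Necklace
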