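import Mathlib

namespace Pool.Agent.R127.PathPair

open SimpleGraph

/-- A graph is *path-pairable* if for every pairing `{s i, t i}` of its vertex set (i.e. every
listing `s 0, …, s (m-1), t 0, …, t (m-1)` of all its vertices without repetition) there are
pairwise edge-disjoint paths `P i` joining `s i` to `t i`. -/
def PathPairable {V : Type*} (G : SimpleGraph V) : Prop :=
  ∀ (m : ℕ) (s t : Fin m → V), Function.Bijective (Sum.elim s t) →
    ∃ P : ∀ i : Fin m, G.Walk (s i) (t i),
      (∀ i, (P i).IsPath) ∧ ∀ i j, i ≠ j → List.Disjoint (P i).edges (P j).edges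

theorem pathPairable_of {V : Type*} (G : SimpleGraph V)
    (h : ∀ f : V → V, (∀ v, f (f v) = v) → (∀ v, f v ≠ v) →
      ∃ H : V → SimpleGraph V, (∀ o, H o ≤ G) ∧
        (∀ o o' a b, (H o).Adj a b → (H o').Adj a b → o = o') ∧
        ∀ v, ∃ m, (H v).Reachable v m ∧ (H (f v)).Reachable (f v) m) :
    PathPairable G := by
  classical
  intro m s t hbij
  set e : Fin m ⊕ Fin m ≃ V := Equiv.ofBijective _ hbij with he
  have hes : ∀ i, e (Sum.inl i) = s i := fun i => rfl
  have het : ∀ i, e (Sum.inr i) = t i := fun i => rfl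
  set f : V → V := fun v => e (e.symm v).swap with hf
  have hfs : ∀ i, f (s i) = t i := by
    intro i
    simp only [hf]
    rw [← hes i, Equiv.symm_apply_apply]
    simp [het]
  have hff : ∀ v, f (f v) = v := by
    intro v
    simp [hf]
  have hfn : ∀ v, f v ≠ v := by
    intro v hv
    have h1 : (e.symm v).swap = e.symm v := by
      have := congrArg e.symm hv
      simpa [hf] using this
    rcases hx : e.symm v with i | i <;> rw [hx] at h1 <;> simp at h1
  obtain ⟨H, hle, hdis, hreach⟩ := h f hff hfn
  have key : ∀ i, ∃ P : G.Walk (s i) (t i), P.IsPath ∧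
      ∀ x ∈ P.edges, x ∈ (H (s i) ⊔ H (t i)).edgeSet := by
    intro i
    obtain ⟨mm, h1, h2⟩ := hreach (s i)
    rw [hfs] at h2
    have h3 : (H (s i) ⊔ H (t i)).Reachable (s i) (t i) :=
      (h1.mono le_sup_left).trans (h2.mono le_sup_right).symm
    obtain ⟨p, hp⟩ := h3.exists_isPath
    refine ⟨p.mapLe (sup_le (hle _) (hle _)), ?_, ?_⟩
    · simpa using hp
    · intro x hx
      rw [Walk.edges_mapLe_eq_edges] at hx
      exact Walk.edges_subset_edgeSet p hx
  choose P hP1 hP2 using key
  refine ⟨P, hP1, ?_⟩
  intro i j hij x hxi hxj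
  have h1 := hP2 i x hxi
  have h2 := hP2 j x hxj
  induction x using Sym2.ind with
  | _ a b =>
    rw [mem_edgeSet, sup_adj] at h1 h2
    have hinj := hbij.1
    rcases h1 with h1 | h1 <;> rcases h2 with h2 | h2 <;> have h3 := hdis _ _ _ _ h1 h2
    · have := @hinj (Sum.inl i) (Sum.inl j) h3
      simp at this; exact hij this
    · have := @hinj (Sum.inl i) (Sum.inr j) h3
      simp at this
    · have := @hinj (Sum.inr i) (Sum.inl j) h3
      simp at this
    · have := @hinj (Sum.inr i) (Sum.inr j) h3
      simp at this; exact hij this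

/-- Greedy selection. -/
theorem exists_indep {α : Type*} [DecidableEq α] (N : α → Finset α)
    (hs : ∀ x y, y ∈ N x → x ∈ N y) (c : ℕ) (hc : 0 < c) (hN : ∀ x, (N x).card ≤ c) :
    ∀ (m : ℕ) (U : Finset α), c * m ≤ U.card →
      ∃ g : Fin m → α, (∀ i, g i ∈ U) ∧ ∀ i j, i ≠ j → g j ∉ N (g i) := by
  intro m
  induction m with
  | zero => intro U _; exact ⟨fun i => i.elim0, fun i => i.elim0, fun i => i.elim0⟩
  | succ m ih =>
    intro U hU
    have hne : U.Nonempty := by
      rw [← Finset.card_pos]
      have : 0 < c * (m + 1) := by positivity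
      omega
    obtain ⟨u, hu⟩ := hne
    have h1 : c * m ≤ (U \ N u).card := by
      have := Finset.le_card_sdiff (N u) U
      have h2 := hN u
      have h3 : c * (m + 1) = c * m + c := by ring
      omega
    obtain ⟨g, hg1, hg2⟩ := ih _ h1
    refine ⟨Fin.cons u g, ?_, ?_⟩
    · intro i
      refine Fin.cases ?_ ?_ i
      · simpa using hu
      · intro j; simp only [Fin.cons_succ]
        exact (Finset.mem_sdiff.1 (hg1 j)).1
    · intro i j
      refine Fin.cases ?_ ?_ i
      · refine Fin.cases ?_ ?_ j
        · intro h; exact absurd rfl h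
        · intro j _
          simp only [Fin.cons_succ, Fin.cons_zero]
          exact (Finset.mem_sdiff.1 (hg1 j)).2
      · intro i
        refine Fin.cases ?_ ?_ j
        · intro _
          simp only [Fin.cons_succ, Fin.cons_zero]
          intro h
          exact (Finset.mem_sdiff.1 (hg1 i)).2 (hs _ _ h)
        · intro j hij
          simp only [Fin.cons_succ]
          exact hg2 i j (fun h => hij (by rw [h]))

end Pool.Agent.R127.PathPair
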