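import Mathlib
import Pool.Agent.R127.PathPairDefs

namespace Pool.Agent.R127.PathPair

open SimpleGraph

/-- Vertices of the construction. -/
inductive Vt (k s mu lam : ℕ) : Type
  | leaf (i : Fin lam) : Vt k s mu lam
  | c1 : Vt k s mu lam
  | c2 : Vt k s mu lam
  | r (x : Fin mu × Fin s) : Vt k s mu lam
  | t (x : Fin (2 ^ (k + 1))) : Vt k s mu lam
  | e (x : Fin (2 ^ (k + 1))) : Vt k s mu lam

variable {k s mu lam : ℕ}

open Vt

/-- Oriented adjacency. -/
def A : Vt k s mu lam → Vt k s mu lam → Prop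
  | leaf _, c1 => True
  | r _, c1 => True
  | r x, c2 => x.2.val = 0 ∨ x.2.val + 1 = s
  | r x, r y => x.1 = y.1 ∧ x.2.val + 1 = y.2.val
  | e _, c1 => True
  | e _, c2 => True
  | t x, e _ => Nat.log 2 x.val = k
  | t x, t y => Nat.log 2 x.val + 1 = Nat.log 2 y.val
  | _, _ => False

theorem A_asymm (a b : Vt k s mu lam) (h : A a b) : ¬ A b a := by
  intro h'
  cases a <;> cases b <;> simp only [A] at h h' <;> omega

/-- The construction. -/
def GG (k s mu lam : ℕ) : SimpleGraph (Vt k s mu lam) where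
  Adj a b := A a b ∨ A b a
  symm := ⟨fun _ _ h => h.symm⟩
  loopless := ⟨fun a h => by rcases h with h | h <;> exact A_asymm _ _ h h⟩

/-- The pass vertices: `none` is `c2`, `some x` is the tail vertex `t x`. -/
def pv : Option (Fin (2 ^ (k + 1))) → Vt k s mu lam
  | none => c2
  | some x => t x

theorem pv_inj {p p' : Option (Fin (2 ^ (k + 1)))}
    (h : (pv p : Vt k s mu lam) = pv p') : p = p' := by
  cases p <;> cases p' <;> simp_all [pv]

/-- Ownership of oriented edges. -/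
def Own (u w : Option (Fin (2 ^ (k + 1))) → Fin mu × Fin s) (o : Vt k s mu lam) :
    Vt k s mu lam → Vt k s mu lam → Prop
  | leaf i, c1 => o = leaf i
  | r x, c1 => (∃ p, u p = x ∧ o = pv p) ∨ ((∀ p, u p ≠ x) ∧ o = r x)
  | r x, c2 => (∃ p, (u p).1 = x.1 ∧ ((x.2.val = 0 ∧ o = r (u p)) ∨ (x.2.val ≠ 0 ∧ o = pv p))) ∨
      (∃ p, (w p).1 = x.1 ∧ (u p).1 ≠ x.1 ∧ o = r (w p))
  | r x, r _ => (∃ p, (u p).1 = x.1 ∧ ((x.2 < (u p).2 ∧ o = r (u p)) ∨
        ((u p).2 ≤ x.2 ∧ o = pv p))) ∨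
      (∃ p, (w p).1 = x.1 ∧ (u p).1 ≠ x.1 ∧ o = r (w p))
  | e x, c1 => o = e x
  | e x, c2 => o = t x
  | t _, e x => o = t x
  | t _, t y => ∃ x : Fin (2 ^ (k + 1)), x.val + 2 ^ (Nat.log 2 y.val) = y.val ∧ o = t x
  | _, _ => False

theorem Own_unique (u w : Option (Fin (2 ^ (k + 1))) → Fin mu × Fin s)
    (h1 : ∀ p p', p ≠ p' → (u p).1 ≠ (u p').1)
    (h2 : ∀ p p', p ≠ p' → (u p).1 ≠ (w p').1)
    (h3 : ∀ p p', p ≠ p' → (w p).1 ≠ (w p').1)
    (o o' a b : Vt k s mu lam) (h : Own u w o a b) (h' : Own u w o' a b) : o = o' := by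
  have hu : ∀ p p', (u p).1 = (u p').1 → p = p' := fun p p' hh => by
    by_contra hc; exact h1 p p' hc hh
  have huw : ∀ p p', (u p).1 = (w p').1 → p = p' := fun p p' hh => by
    by_contra hc; exact h2 p p' hc hh
  have hw : ∀ p p', (w p).1 = (w p').1 → p = p' := fun p p' hh => by
    by_contra hc; exact h3 p p' hc hh
  cases a with
  | leaf i => cases b <;> simp only [Own] at h h' <;> rw [h, h']
  | c1 => cases b <;> simp only [Own] at h h'
  | c2 => cases b <;> simp only [Own] at h h'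
  | e x => cases b <;> simp only [Own] at h h' <;> rw [h, h']
  | t x =>
    cases b with
    | t y =>
      simp only [Own] at h h'
      obtain ⟨x, hx, rfl⟩ := h
      obtain ⟨x', hx', rfl⟩ := h'
      have : x = x' := by apply Fin.ext; omega
      rw [this]
    | e y => simp only [Own] at h h'; rw [h, h']
    | _ => simp only [Own] at h h'
  | r x =>
    cases b with
    | c1 =>
      simp only [Own] at h h'
      rcases h with ⟨p, hp, rfl⟩ | ⟨hp, rfl⟩ <;> rcases h' with ⟨p', hp', rfl⟩ | ⟨hp', rfl⟩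
      · rw [hu p p' (by rw [hp, hp'])]
      · exact absurd hp (hp' p)
      · exact absurd hp' (hp p')
      · rfl
    | c2 =>
      simp only [Own] at h h'
      rcases h with ⟨p, hp, hh⟩ | ⟨p, hp, hpn, hh⟩ <;>
        rcases h' with ⟨p', hp', hh'⟩ | ⟨p', hp', hpn', hh'⟩
      · have := hu p p' (by rw [hp, hp']); subst this
        rcases hh with ⟨h5, rfl⟩ | ⟨h5, rfl⟩ <;> rcases hh' with ⟨h6, rfl⟩ | ⟨h6, rfl⟩ <;>
          first | rfl | exact absurd h5 h6 | exact absurd h6 h5
      · have := huw p p' (by rw [hp, hp']); subst this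
        exact absurd hp hpn'
      · have := huw p' p (by rw [hp, hp']); subst this
        exact absurd hp' hpn
      · have := hw p p' (by rw [hp, hp']); subst this
        rw [hh, hh']
    | r y =>
      simp only [Own] at h h'
      rcases h with ⟨p, hp, hh⟩ | ⟨p, hp, hpn, hh⟩ <;>
        rcases h' with ⟨p', hp', hh'⟩ | ⟨p', hp', hpn', hh'⟩
      · have := hu p p' (by rw [hp, hp']); subst this
        rcases hh with ⟨h5, rfl⟩ | ⟨h5, rfl⟩ <;> rcases hh' with ⟨h6, rfl⟩ | ⟨h6, rfl⟩ <;>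
          first | rfl | exact absurd h5 (not_lt.2 h6) | exact absurd h6 (not_lt.2 h5)
      · have := huw p p' (by rw [hp, hp']); subst this
        exact absurd hp hpn'
      · have := huw p' p (by rw [hp, hp']); subst this
        exact absurd hp' hpn
      · have := hw p p' (by rw [hp, hp']); subst this
        rw [hh, hh']
    | _ => simp only [Own] at h h'

/-- The subgraph of edges owned by `o`. -/
def HH (u w : Option (Fin (2 ^ (k + 1))) → Fin mu × Fin s) (o : Vt k s mu lam) :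
    SimpleGraph (Vt k s mu lam) where
  Adj a b := (A a b ∧ Own u w o a b) ∨ (A b a ∧ Own u w o b a)
  symm := ⟨fun _ _ h => h.symm⟩
  loopless := ⟨fun a h => by rcases h with h | h <;> exact A_asymm _ _ h.1 h.1⟩

theorem HH_le (u w : Option (Fin (2 ^ (k + 1))) → Fin mu × Fin s) (o : Vt k s mu lam) :
    HH u w o ≤ GG k s mu lam := by
  intro a b h
  rcases h with h | h
  · exact Or.inl h.1
  · exact Or.inr h.1

theorem HH_disj (u w : Option (Fin (2 ^ (k + 1))) → Fin mu × Fin s)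
    (h1 : ∀ p p', p ≠ p' → (u p).1 ≠ (u p').1)
    (h2 : ∀ p p', p ≠ p' → (u p).1 ≠ (w p').1)
    (h3 : ∀ p p', p ≠ p' → (w p).1 ≠ (w p').1)
    (o o' a b : Vt k s mu lam) (h : (HH u w o).Adj a b) (h' : (HH u w o').Adj a b) :
    o = o' := by
  rcases h with h | h <;> rcases h' with h' | h'
  · exact Own_unique u w h1 h2 h3 o o' a b h.2 h'.2
  · exact absurd h'.1 (A_asymm _ _ h.1)
  · exact absurd h'.1 (A_asymm _ _ h.1)
  · exact Own_unique u w h1 h2 h3 o o' b a h.2 h'.2

section reach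

variable (u w : Option (Fin (2 ^ (k + 1))) → Fin mu × Fin s)

theorem adj_of {o a b : Vt k s mu lam} (h1 : A a b) (h2 : Own u w o a b) :
    (HH u w o).Reachable a b :=
  (show (HH u w o).Adj a b from Or.inl ⟨h1, h2⟩).reachable

/-- routing along a gadget: general statement. -/
theorem reach_gadget {o : Vt k s mu lam} (g : Fin mu) (a b : ℕ) (hab : a ≤ b) (hb : b < s)
    (ho : ∀ c : ℕ, a ≤ c → c < b → ∀ hc : c < s, ∀ y, Own u w o (r (g, ⟨c, hc⟩)) (r y)) :
    (HH u w o).Reachable (r (g, ⟨a, by omega⟩)) (r (g, ⟨b, hb⟩)) := by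
  induction b, hab using Nat.le_induction with
  | base => exact Reachable.refl _
  | succ n hn ih =>
    have h1 := ih (by omega) (fun c hc1 hc2 hc y => ho c hc1 (by omega) hc y)
    refine h1.trans (adj_of u w ?_ ?_)
    · simp [A]
    · exact ho n hn (by omega) _ _

theorem reach_leaf (i : Fin lam) : (HH u w (leaf i : Vt k s mu lam)).Reachable (leaf i) c1 :=
  adj_of u w (by simp [A]) (by simp [Own])

theorem reach_e (x : Fin (2 ^ (k + 1))) :
    (HH u w (e x : Vt k s mu lam)).Reachable (e x) c1 :=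
  adj_of u w (by simp [A]) (by simp [Own])

theorem reach_r (x : Fin mu × Fin s) (hx : ∀ p, u p ≠ x) :
    (HH u w (r x : Vt k s mu lam)).Reachable (r x) c1 :=
  adj_of u w (by simp [A]) (by simp [Own, hx])

/-- pass -/
theorem reach_pass (hs : 2 ≤ s) (p : Option (Fin (2 ^ (k + 1)))) :
    (HH u w (pv p : Vt k s mu lam)).Reachable c2 c1 := by
  have h1 : (HH u w (pv p : Vt k s mu lam)).Reachable
      (r ((u p).1, ⟨(u p).2.val, (u p).2.isLt⟩)) (r ((u p).1, ⟨s - 1, by omega⟩)) := by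
    apply reach_gadget u w _ _ _ (by have := (u p).2.isLt; omega)
    intro c hc1 hc2 hc y
    simp only [Own]
    left
    refine ⟨p, rfl, Or.inr ⟨?_, rfl⟩⟩
    exact hc1
  have h2 : (HH u w (pv p : Vt k s mu lam)).Reachable (r (u p)) c1 := by
    apply adj_of u w (by simp [A])
    simp only [Own]
    left
    exact ⟨p, rfl, rfl⟩
  have h3 : (HH u w (pv p : Vt k s mu lam)).Reachable (r ((u p).1, ⟨s - 1, by omega⟩)) c2 := by
    apply adj_of u w
    · simp only [A]; right; omega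
    · simp only [Own]; left
      exact ⟨p, rfl, Or.inr ⟨by omega, rfl⟩⟩
  exact h3.symm.trans (h1.symm.trans h2)

/-- selected vertices reach everything to the left in their gadget. -/
theorem reach_left (p : Option (Fin (2 ^ (k + 1)))) (c : Fin s) (hc : c ≤ (u p).2) :
    (HH u w (r (u p) : Vt k s mu lam)).Reachable (r (u p)) (r ((u p).1, c)) := by
  have h1 : (HH u w (r (u p) : Vt k s mu lam)).Reachable
      (r ((u p).1, ⟨c.val, c.isLt⟩)) (r ((u p).1, ⟨(u p).2.val, (u p).2.isLt⟩)) := by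
    apply reach_gadget u w _ _ _ hc
    intro d hc1 hc2 hd y
    simp only [Own]
    left
    refine ⟨p, rfl, Or.inl ⟨?_, rfl⟩⟩
    exact hc2
  exact h1.symm

theorem reach_u_c2 (p : Option (Fin (2 ^ (k + 1)))) :
    (HH u w (r (u p) : Vt k s mu lam)).Reachable (r (u p)) c2 := by
  have hs : 0 < s := lt_of_le_of_lt (Nat.zero_le _) (u p).2.isLt
  refine (reach_left u w p ⟨0, hs⟩ (Nat.zero_le _)).trans ?_
  apply adj_of u w
  · simp [A]
  · simp only [Own]; left
    exact ⟨p, rfl, Or.inl ⟨trivial, rfl⟩⟩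

theorem reach_w_c2 (p : Option (Fin (2 ^ (k + 1)))) (hp : (u p).1 ≠ (w p).1) :
    (HH u w (r (w p) : Vt k s mu lam)).Reachable (r (w p)) c2 := by
  have hs : 0 < s := lt_of_le_of_lt (Nat.zero_le _) (u p).2.isLt
  have h1 : (HH u w (r (w p) : Vt k s mu lam)).Reachable
      (r ((w p).1, ⟨0, hs⟩)) (r ((w p).1, ⟨(w p).2.val, (w p).2.isLt⟩)) := by
    apply reach_gadget u w _ _ _ (Nat.zero_le _)
    intro d hc1 hc2 hd y
    simp only [Own]
    right
    exact ⟨p, rfl, hp, rfl⟩
  refine h1.symm.trans ?_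
  apply adj_of u w
  · simp [A]
  · simp only [Own]; right
    exact ⟨p, rfl, hp, rfl⟩

/-- position of the route of `x` in layer `j`. -/
theorem log_add (x j : ℕ) (h : Nat.log 2 x < j) : Nat.log 2 (x + 2 ^ j) = j := by
  have h1 : x < 2 ^ j := Nat.lt_pow_of_log_lt (by norm_num) h
  rw [Nat.log_eq_iff (Or.inr ⟨by norm_num, by positivity⟩)]
  constructor
  · omega
  · rw [pow_succ]; omega

theorem phi_lt (x : Fin (2 ^ (k + 1))) (j : ℕ) (h : Nat.log 2 x.val < j) (hj : j ≤ k) :
    x.val + 2 ^ j < 2 ^ (k + 1) := by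
  have h1 : x.val < 2 ^ j := Nat.lt_pow_of_log_lt (by norm_num) h
  have h2 : 2 ^ j ≤ 2 ^ k := Nat.pow_le_pow_right (by norm_num) hj
  have h3 : 2 ^ (k + 1) = 2 ^ k * 2 := pow_succ _ _
  omega

theorem reach_tail (x : Fin (2 ^ (k + 1))) (j : ℕ) (hj : Nat.log 2 x.val ≤ j) (hk : j ≤ k) :
    ∃ y : Fin (2 ^ (k + 1)), Nat.log 2 y.val = j ∧
      (HH u w (t x : Vt k s mu lam)).Reachable (t x) (t y) := by
  induction j, hj using Nat.le_induction with
  | base => exact ⟨x, rfl, Reachable.refl _⟩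
  | succ n hn ih =>
    obtain ⟨y, hy, hr⟩ := ih (by omega)
    have h1 : Nat.log 2 x.val < n + 1 := by omega
    refine ⟨⟨x.val + 2 ^ (n + 1), phi_lt x _ h1 hk⟩, log_add _ _ h1, hr.trans ?_⟩
    apply adj_of u w
    · simp only [A]
      rw [log_add _ _ h1, hy]
    · simp only [Own]
      refine ⟨x, ?_, rfl⟩
      rw [log_add _ _ h1]

theorem log_le (x : Fin (2 ^ (k + 1))) : Nat.log 2 x.val ≤ k := by
  by_cases hx : x.val = 0
  · rw [hx]; simp
  · have := Nat.log_lt_of_lt_pow hx x.isLt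
    omega

theorem reach_t_c2 (x : Fin (2 ^ (k + 1))) :
    (HH u w (t x : Vt k s mu lam)).Reachable (t x) c2 := by
  obtain ⟨y, hy, hr⟩ := reach_tail (lam := lam) u w x k (log_le x) le_rfl
  refine hr.trans ?_
  have h1 : (HH u w (t x : Vt k s mu lam)).Reachable (t y) (e x) :=
    adj_of u w (by simp [A, hy]) (by simp [Own])
  have h2 : (HH u w (t x : Vt k s mu lam)).Reachable (e x) c2 :=
    adj_of u w (by simp [A]) (by simp [Own])
  exact h1.trans h2

theorem reach_c1 (hs : 2 ≤ s) (v : Vt k s mu lam) (hv : ∀ p, v ≠ r (u p)) :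
    (HH u w v).Reachable v c1 := by
  cases v with
  | leaf i => exact reach_leaf u w i
  | c1 => exact Reachable.refl _
  | c2 => exact reach_pass u w hs none
  | r x => exact reach_r u w x (fun p hp => hv p (by rw [hp]))
  | t x => exact (reach_t_c2 u w x).trans (reach_pass u w hs (some x))
  | e x => exact reach_e u w x

theorem main_reach (hs : 2 ≤ s) (f : Vt k s mu lam → Vt k s mu lam) (hf : ∀ v, f (f v) = v)
    (hfu : ∀ p, f (r (u p)) = r (w p))
    (hlt : ∀ p, (w p).1 = (u p).1 → (w p).2 < (u p).2) (v : Vt k s mu lam) :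
    ∃ m, (HH u w v).Reachable v m ∧ (HH u w (f v)).Reachable (f v) m := by
  have key : ∀ p, ∃ m, (HH u w (r (u p) : Vt k s mu lam)).Reachable (r (u p)) m ∧
      (HH u w (r (w p) : Vt k s mu lam)).Reachable (r (w p)) m := by
    intro p
    by_cases hp : (u p).1 = (w p).1
    · refine ⟨r (w p), ?_, Reachable.refl _⟩
      have := reach_left (lam := lam) u w p (w p).2 (hlt p hp.symm).le
      rw [hp] at this
      exact this
    · exact ⟨c2, reach_u_c2 u w p, reach_w_c2 u w p hp⟩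
  by_cases h1 : ∃ p, v = r (u p)
  · obtain ⟨p, rfl⟩ := h1
    rw [hfu]; exact key p
  · by_cases h2 : ∃ p, f v = r (u p)
    · obtain ⟨p, hp⟩ := h2
      have hv : v = r (w p) := by rw [← hfu p, ← hp, hf]
      obtain ⟨m, hm1, hm2⟩ := key p
      refine ⟨m, ?_, ?_⟩
      · rw [hv]; exact hm2
      · rw [hp]; exact hm1
    · push Not at h1 h2
      exact ⟨c1, reach_c1 u w hs v h1, reach_c1 u w hs (f v) h2⟩

end reach

end Pool.Agent.R127.PathPair
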