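import Mathlib
import Pool.Agent.R127.PathPairGraph

namespace Pool.Agent.R127.PathPair

open SimpleGraph

variable {k s mu lam : ℕ}

open Vt

/-- equivalence with a sum type -/
def vtEquiv : Vt k s mu lam ≃
    ((Fin lam ⊕ (Unit ⊕ Unit)) ⊕ ((Fin mu × Fin s) ⊕ (Fin (2 ^ (k + 1)) ⊕ Fin (2 ^ (k + 1))))) where
  toFun
    | leaf i => Sum.inl (Sum.inl i)
    | c1 => Sum.inl (Sum.inr (Sum.inl ()))
    | c2 => Sum.inl (Sum.inr (Sum.inr ()))
    | r x => Sum.inr (Sum.inl x)
    | t x => Sum.inr (Sum.inr (Sum.inl x))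
    | e x => Sum.inr (Sum.inr (Sum.inr x))
  invFun
    | Sum.inl (Sum.inl i) => leaf i
    | Sum.inl (Sum.inr (Sum.inl ())) => c1
    | Sum.inl (Sum.inr (Sum.inr ())) => c2
    | Sum.inr (Sum.inl x) => r x
    | Sum.inr (Sum.inr (Sum.inl x)) => t x
    | Sum.inr (Sum.inr (Sum.inr x)) => e x
  left_inv v := by cases v <;> rfl
  right_inv v := by rcases v with (_ | _ | _) | _ | _ | _ <;> rfl

noncomputable instance : Fintype (Vt k s mu lam) := Fintype.ofEquiv _ vtEquiv.symm

theorem card_Vt : Fintype.card (Vt k s mu lam) = lam + 2 + (mu * s + 2 * 2 ^ (k + 1)) := by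
  rw [Fintype.card_congr (vtEquiv (k := k) (s := s) (mu := mu) (lam := lam))]
  simp only [Fintype.card_sum, Fintype.card_fin, Fintype.card_unit, Fintype.card_prod]
  ring

/-- gadget of a vertex -/
def gad : Vt k s mu lam → Option (Fin mu)
  | r x => some x.1
  | _ => none

theorem gad_some {v : Vt k s mu lam} {g : Fin mu} (h : gad v = some g) :
    ∃ b, v = r (g, b) := by
  cases v with
  | r x => simp only [gad, Option.some.injEq] at h; exact ⟨x.2, by rw [← h]⟩
  | _ => simp [gad] at h

open Classical in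
theorem exists_selection (f : Vt k s mu lam → Vt k s mu lam) (hf : ∀ v, f (f v) = v)
    (hfn : ∀ v, f v ≠ v) (hs : 0 < s)
    (h : lam + (8 * s + 2) * (2 ^ (k + 1) + 1) ≤ mu * s) :
    ∃ u w : Option (Fin (2 ^ (k + 1))) → Fin mu × Fin s,
      (∀ p, f (r (u p)) = r (w p)) ∧ (∀ p, (w p).1 = (u p).1 → (w p).2 < (u p).2) ∧
      (∀ p p', p ≠ p' → (u p).1 ≠ (u p').1) ∧ (∀ p p', p ≠ p' → (u p).1 ≠ (w p').1) ∧
      (∀ p p', p ≠ p' → (w p).1 ≠ (w p').1) := by
  have hfinj : Function.Injective f := fun a b hab => by rw [← hf a, ← hf b, hab]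
  have hrinj : Function.Injective (r : Fin mu × Fin s → Vt k s mu lam) := fun a b hab => by
    simpa using hab
  have hfrinj : Function.Injective (fun y : Fin mu × Fin s => f (r y)) := hfinj.comp hrinj
  set C : Fin mu × Fin s → Fin mu × Fin s → Prop := fun x y =>
    x.1 = y.1 ∨ gad (f (r x)) = some y.1 ∨ gad (f (r y)) = some x.1 ∨
      (∃ g, gad (f (r x)) = some g ∧ gad (f (r y)) = some g) with hC
  have hCs : ∀ x y, C x y → C y x := by
    intro x y hxy
    rcases hxy with h1 | h1 | h1 | ⟨g, h1, h2⟩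
    · exact Or.inl h1.symm
    · exact Or.inr (Or.inr (Or.inl h1))
    · exact Or.inr (Or.inl h1)
    · exact Or.inr (Or.inr (Or.inr ⟨g, h2, h1⟩))
  have L1 : ∀ g : Fin mu, (Finset.univ.filter (fun y : Fin mu × Fin s => y.1 = g)).card ≤ s := by
    intro g
    have : (Finset.univ.filter (fun y : Fin mu × Fin s => y.1 = g)) ⊆
        Finset.univ.image (fun b : Fin s => (g, b)) := by
      intro y hy
      simp only [Finset.mem_filter, Finset.mem_univ, true_and] at hy
      simp only [Finset.mem_image, Finset.mem_univ, true_and]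
      exact ⟨y.2, by rw [← hy]⟩
    calc _ ≤ _ := Finset.card_le_card this
      _ ≤ _ := Finset.card_image_le
      _ = s := by simp
  have L2 : ∀ g : Fin mu,
      (Finset.univ.filter (fun y : Fin mu × Fin s => gad (f (r y)) = some g)).card ≤ s := by
    intro g
    have h1 : ((Finset.univ.filter (fun y : Fin mu × Fin s => gad (f (r y)) = some g)).image
        (fun y => f (r y))) ⊆
        Finset.univ.image (fun b : Fin s => (r (g, b) : Vt k s mu lam)) := by
      intro y hy
      simp only [Finset.mem_filter, Finset.mem_univ, true_and, Finset.mem_image] at hy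
      simp only [Finset.mem_image, Finset.mem_univ, true_and]
      obtain ⟨a, ha, rfl⟩ := hy
      obtain ⟨b, hb⟩ := gad_some ha
      exact ⟨b, hb.symm⟩
    have h2 := Finset.card_le_card h1
    rw [Finset.card_image_of_injective _ hfrinj] at h2
    calc _ ≤ _ := h2
      _ ≤ _ := Finset.card_image_le
      _ = s := by simp
  have hN : ∀ x, (Finset.univ.filter (fun y => C x y)).card ≤ 4 * s := by
    intro x
    have hsub : (Finset.univ.filter (fun y => C x y)) ⊆
        (Finset.univ.filter (fun y : Fin mu × Fin s => y.1 = x.1)) ∪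
        ((Finset.univ.filter (fun y : Fin mu × Fin s => gad (f (r x)) = some y.1)) ∪
        ((Finset.univ.filter (fun y : Fin mu × Fin s => gad (f (r y)) = some x.1)) ∪
        (Finset.univ.filter (fun y : Fin mu × Fin s =>
          ∃ g, gad (f (r x)) = some g ∧ gad (f (r y)) = some g)))) := by
      intro y hy
      simp only [Finset.mem_filter, Finset.mem_univ, true_and, Finset.mem_union] at hy ⊢
      rcases hy with h1 | h1 | h1 | h1
      · exact Or.inl h1.symm
      · exact Or.inr (Or.inl h1)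
      · exact Or.inr (Or.inr (Or.inl h1))
      · exact Or.inr (Or.inr (Or.inr h1))
    have e2 : (Finset.univ.filter (fun y : Fin mu × Fin s =>
        gad (f (r x)) = some y.1)).card ≤ s := by
      rcases hg : gad (f (r x)) with _ | g
      · simp
      · have := L1 g
        refine le_trans (Finset.card_le_card ?_) this
        intro y hy
        simp only [Finset.mem_filter, Finset.mem_univ, true_and, Option.some.injEq] at hy ⊢
        exact hy.symm
    have e4 : (Finset.univ.filter (fun y : Fin mu × Fin s =>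
          ∃ g, gad (f (r x)) = some g ∧ gad (f (r y)) = some g)).card ≤ s := by
      rcases hg : gad (f (r x)) with _ | g
      · simp
      · have := L2 g
        refine le_trans (Finset.card_le_card ?_) this
        intro y hy
        simp only [Finset.mem_filter, Finset.mem_univ, true_and, Option.some.injEq] at hy ⊢
        obtain ⟨g', rfl, hg'⟩ := hy
        exact hg'
    calc _ ≤ _ := Finset.card_le_card hsub
      _ ≤ _ := (Finset.card_union_le _ _).trans (Nat.add_le_add_left
        ((Finset.card_union_le _ _).trans (Nat.add_le_add_left (Finset.card_union_le _ _) _)) _)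
      _ ≤ 4 * s := by have := L1 x.1; have := L2 x.1; omega
  -- eligible vertices
  set U : Finset (Fin mu × Fin s) := Finset.univ.filter
    (fun x => ∃ y : Fin mu × Fin s, f (r x) = r y ∧ (y.1 = x.1 → y.2 < x.2)) with hU
  set U2 : Finset (Fin mu × Fin s) := Finset.univ.filter
    (fun x => ∃ y ∈ U, f (r x) = r y) with hU2
  set W : Finset (Fin mu × Fin s) := Finset.univ.filter
    (fun x => ∀ y : Fin mu × Fin s, f (r x) ≠ r y) with hW
  have hcov : (Finset.univ : Finset (Fin mu × Fin s)) ⊆ U ∪ (U2 ∪ W) := by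
    intro x _
    simp only [Finset.mem_union]
    by_cases h1 : x ∈ U
    · exact Or.inl h1
    · right
      by_cases h2 : x ∈ W
      · exact Or.inr h2
      · left
        simp only [hW, Finset.mem_filter, Finset.mem_univ, true_and, not_forall, not_not] at h2
        obtain ⟨y, hy⟩ := h2
        simp only [hU, Finset.mem_filter, Finset.mem_univ, true_and, not_exists, not_and] at h1
        have h3 := h1 y hy
        rw [Classical.not_imp] at h3
        obtain ⟨h4, h5⟩ := h3
        have h6 : x ≠ y := by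
          rintro rfl
          exact hfn _ hy
        have h7 : x.2 ≠ y.2 := fun hh => h6 (Prod.ext h4.symm hh)
        simp only [hU2, Finset.mem_filter, Finset.mem_univ, true_and]
        refine ⟨y, ?_, hy⟩
        simp only [hU, Finset.mem_filter, Finset.mem_univ, true_and]
        refine ⟨x, by rw [← hy, hf], fun _ => ?_⟩
        exact lt_of_le_of_ne (not_lt.1 h5) h7
  have hU2card : U2.card ≤ U.card := by
    have h1 : U2.image (fun x => f (r x)) ⊆ U.image (r : _ → Vt k s mu lam) := by
      intro v hv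
      simp only [Finset.mem_image] at hv ⊢
      obtain ⟨x, hx, rfl⟩ := hv
      simp only [hU2, Finset.mem_filter, Finset.mem_univ, true_and] at hx
      obtain ⟨y, hy, hxy⟩ := hx
      exact ⟨y, hy, hxy.symm⟩
    have h2 := Finset.card_le_card h1
    rw [Finset.card_image_of_injective _ hfrinj,
      Finset.card_image_of_injective _ hrinj] at h2
    exact h2
  have hWcard : W.card ≤ lam + 2 + 2 * 2 ^ (k + 1) := by
    have h1 : W.image (fun x => f (r x)) ⊆
        Finset.univ \ (Finset.univ.image (r : _ → Vt k s mu lam)) := by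
      intro v hv
      simp only [Finset.mem_image, Finset.mem_sdiff, Finset.mem_univ, true_and] at hv ⊢
      obtain ⟨x, hx, rfl⟩ := hv
      simp only [hW, Finset.mem_filter, Finset.mem_univ, true_and] at hx
      rintro ⟨y, hy⟩
      exact hx y hy.symm
    have h2 := Finset.card_le_card h1
    rw [Finset.card_image_of_injective _ hfrinj,
      Finset.card_sdiff_of_subset (Finset.subset_univ _),
      Finset.card_image_of_injective _ hrinj, Finset.card_univ, Finset.card_univ, card_Vt,
      Fintype.card_prod, Fintype.card_fin, Fintype.card_fin] at h2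
    omega
  have hUcard : 4 * s * (2 ^ (k + 1) + 1) ≤ U.card := by
    have h1 := Finset.card_le_card hcov
    have h2 := Finset.card_union_le U (U2 ∪ W)
    have h3 := Finset.card_union_le U2 W
    rw [Finset.card_univ, Fintype.card_prod, Fintype.card_fin, Fintype.card_fin] at h1
    have h4 : (8 * s + 2) * (2 ^ (k + 1) + 1) =
      2 * (4 * s * (2 ^ (k + 1) + 1)) + 2 * 2 ^ (k + 1) + 2 := by ring
    omega
  obtain ⟨g, hg1, hg2⟩ := exists_indep (fun x => Finset.univ.filter (fun y => C x y))
    (fun x y hxy => by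
      simp only [Finset.mem_filter, Finset.mem_univ, true_and] at hxy ⊢
      exact hCs _ _ hxy) (4 * s) (by omega) hN (2 ^ (k + 1) + 1) U hUcard
  have hg1' : ∀ i, ∃ y : Fin mu × Fin s, f (r (g i)) = r y ∧ (y.1 = (g i).1 → y.2 < (g i).2) := by
    intro i
    have := hg1 i
    simpa only [hU, Finset.mem_filter, Finset.mem_univ, true_and] using this
  choose w' hw1 hw2 using hg1'
  set E := (finSuccEquiv (2 ^ (k + 1))).symm with hE
  have hgC : ∀ p p', p ≠ p' → ¬ C (g (E p)) (g (E p')) := by
    intro p p' hpp hc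
    apply hg2 (E p) (E p') (fun hh => hpp (E.injective hh))
    simp only [Finset.mem_filter, Finset.mem_univ, true_and]
    exact hc
  refine ⟨fun p => g (E p), fun p => w' (E p), fun p => hw1 _, fun p => hw2 _, ?_, ?_, ?_⟩
  · intro p p' hpp hh
    exact hgC p p' hpp (Or.inl hh)
  · intro p p' hpp hh
    refine hgC p p' hpp (Or.inr (Or.inr (Or.inl ?_)))
    rw [hw1]
    simp only [gad]
    exact congrArg some hh.symm
  · intro p p' hpp hh
    refine hgC p p' hpp (Or.inr (Or.inr (Or.inr ⟨(w' (E p)).1, ?_, ?_⟩)))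
    · rw [hw1]; rfl
    · rw [hw1]; simp only [gad]; exact congrArg some hh.symm

theorem pathPairable_GG (hs : 2 ≤ s)
    (h : lam + (8 * s + 2) * (2 ^ (k + 1) + 1) ≤ mu * s) :
    PathPairable (GG k s mu lam) := by
  apply pathPairable_of
  intro f hf hfn
  obtain ⟨u, w, h1, h2, h3, h4, h5⟩ := exists_selection f hf hfn (by omega) h
  exact ⟨HH u w, HH_le u w, HH_disj u w h3 h4 h5, main_reach u w hs f hf h1 h2⟩

/-! ### Connectivity, distance and number of edges -/

theorem reach_c1' (hmu : 0 < mu) (hs : 0 < s) (v : Vt k s mu lam) :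
    (GG k s mu lam).Reachable v c1 := by
  have hA : ∀ a b : Vt k s mu lam, A a b → (GG k s mu lam).Reachable a b := fun a b hab =>
    (show (GG k s mu lam).Adj a b from Or.inl hab).reachable
  have h0 : 0 < 2 ^ (k + 1) := by positivity
  cases v with
  | leaf i => exact hA _ _ (by simp [A])
  | c1 => exact Reachable.refl _
  | c2 => exact (hA (e ⟨0, h0⟩) c2 (by simp [A])).symm.trans (hA _ _ (by simp [A]))
  | r x => exact hA _ _ (by simp [A])
  | e x => exact hA _ _ (by simp [A])
  | t x =>
    have h1 := (reach_t_c2 (lam := lam) (fun _ => ((⟨0, hmu⟩, ⟨0, hs⟩) : Fin mu × Fin s))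
      (fun _ => ((⟨0, hmu⟩, ⟨0, hs⟩) : Fin mu × Fin s)) x).mono (HH_le _ _ _)
    exact h1.trans ((hA (e ⟨0, h0⟩) c2 (by simp [A])).symm.trans (hA _ _ (by simp [A])))

theorem connected_GG (hmu : 0 < mu) (hs : 0 < s) : (GG k s mu lam).Connected := by
  have : Nonempty (Vt k s mu lam) := ⟨c1⟩
  exact ⟨fun a b => (reach_c1' hmu hs a).trans (reach_c1' hmu hs b).symm⟩

/-- level -/
def lev : Vt k s mu lam → ℕ
  | t x => Nat.log 2 x.val
  | e _ => k + 1
  | _ => k + 2

theorem lev_A (a b : Vt k s mu lam) (h : A a b) : lev a ≤ lev b + 1 ∧ lev b ≤ lev a + 1 := by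
  cases a <;> cases b <;> simp only [A, lev] at h ⊢ <;> omega

theorem lev_adj (a b : Vt k s mu lam) (h : (GG k s mu lam).Adj a b) : lev b ≤ lev a + 1 := by
  rcases h with h | h
  · exact (lev_A a b h).2
  · exact (lev_A b a h).1

theorem lev_walk (a b : Vt k s mu lam) (p : (GG k s mu lam).Walk a b) :
    lev b ≤ lev a + p.length := by
  induction p with
  | nil => simp
  | cons h p ih =>
    have := lev_adj _ _ h
    simp only [Walk.length_cons]; omega

theorem dist_ge (hmu : 0 < mu) (hs : 0 < s) :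
    k + 2 ≤ (GG k s mu lam).dist (t ⟨0, by positivity⟩) c1 := by
  obtain ⟨p, hp⟩ := (connected_GG (k := k) (lam := lam) hmu hs).exists_walk_length_eq_dist
    (t ⟨0, by positivity⟩) c1
  rw [← hp]
  have := lev_walk _ _ p
  simpa [lev] using this

theorem diam_ge (hmu : 0 < mu) (hs : 0 < s) : k + 2 ≤ (GG k s mu lam).diam := by
  refine (dist_ge (lam := lam) hmu hs).trans ?_
  have : Nonempty (Vt k s mu lam) := ⟨c1⟩
  exact dist_le_diam ((connected_iff_ediam_ne_top).1 (connected_GG hmu hs))

/-- edge labels -/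
abbrev Lb (k s mu lam : ℕ) : Type :=
  (Fin lam ⊕ ((Fin mu × Fin s) ⊕ (Fin mu × Fin s))) ⊕
    ((Fin mu ⊕ Fin mu) ⊕ ((Fin (2 ^ (k + 1)) ⊕ Fin (2 ^ (k + 1))) ⊕
      ((Fin (2 ^ (k + 1)) × Fin (2 ^ (k + 1))) ⊕ (Fin (2 ^ (k + 1)) × Fin (2 ^ (k + 1))))))

def lbl (hs : 0 < s) : Lb k s mu lam → Sym2 (Vt k s mu lam)
  | Sum.inl (Sum.inl i) => s(leaf i, c1)
  | Sum.inl (Sum.inr (Sum.inl x)) => s(r x, c1)
  | Sum.inl (Sum.inr (Sum.inr x)) =>
      if h : x.2.val + 1 < s then s(r x, r (x.1, ⟨x.2.val + 1, h⟩)) else s(c1, c1)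
  | Sum.inr (Sum.inl (Sum.inl g)) => s(r (g, ⟨0, hs⟩), c2)
  | Sum.inr (Sum.inl (Sum.inr g)) => s(r (g, ⟨s - 1, by omega⟩), c2)
  | Sum.inr (Sum.inr (Sum.inl (Sum.inl x))) => s(e x, c1)
  | Sum.inr (Sum.inr (Sum.inl (Sum.inr x))) => s(e x, c2)
  | Sum.inr (Sum.inr (Sum.inr (Sum.inl x))) => s(t x.1, e x.2)
  | Sum.inr (Sum.inr (Sum.inr (Sum.inr x))) => s(t x.1, t x.2)

theorem exists_lbl (hs : 0 < s) (a b : Vt k s mu lam) (h : A a b) :
    ∃ l, lbl hs l = s(a, b) := by
  cases a with
  | leaf i =>
    cases b with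
    | c1 => exact ⟨Sum.inl (Sum.inl i), rfl⟩
    | _ => simp only [A] at h
  | c1 => cases b <;> simp only [A] at h
  | c2 => cases b <;> simp only [A] at h
  | r x =>
    cases b with
    | c1 => exact ⟨Sum.inl (Sum.inr (Sum.inl x)), rfl⟩
    | c2 =>
      simp only [A] at h
      rcases h with h | h
      · refine ⟨Sum.inr (Sum.inl (Sum.inl x.1)), ?_⟩
        have : x = (x.1, ⟨0, hs⟩) := Prod.ext rfl (Fin.ext h)
        simp only [lbl]; rw [← this]
      · refine ⟨Sum.inr (Sum.inl (Sum.inr x.1)), ?_⟩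
        have : x = (x.1, ⟨s - 1, by omega⟩) := Prod.ext rfl (Fin.ext (by simp; omega))
        simp only [lbl]; rw [← this]
    | r y =>
      simp only [A] at h
      refine ⟨Sum.inl (Sum.inr (Sum.inr x)), ?_⟩
      have h1 : x.2.val + 1 < s := by rw [h.2]; exact y.2.isLt
      have : y = (x.1, ⟨x.2.val + 1, h1⟩) := Prod.ext h.1.symm (Fin.ext h.2.symm)
      simp only [lbl]
      rw [dif_pos h1, ← this]
    | _ => simp only [A] at h
  | e x =>
    cases b with
    | c1 => exact ⟨Sum.inr (Sum.inr (Sum.inl (Sum.inl x))), rfl⟩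
    | c2 => exact ⟨Sum.inr (Sum.inr (Sum.inl (Sum.inr x))), rfl⟩
    | _ => simp only [A] at h
  | t x =>
    cases b with
    | e y => exact ⟨Sum.inr (Sum.inr (Sum.inr (Sum.inl (x, y)))), rfl⟩
    | t y => exact ⟨Sum.inr (Sum.inr (Sum.inr (Sum.inr (x, y)))), rfl⟩
    | _ => simp only [A] at h

open Classical in
theorem ncard_edges (hs : 0 < s) :
    (GG k s mu lam).edgeSet.ncard ≤
      lam + 2 * (mu * s) + 2 * mu + 2 * 2 ^ (k + 1) + 2 * (2 ^ (k + 1) * 2 ^ (k + 1)) := by
  have h1 : (GG k s mu lam).edgeSet ⊆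
      ((Finset.univ.image (lbl (k := k) (mu := mu) (lam := lam) hs) :
        Finset (Sym2 (Vt k s mu lam))) : Set (Sym2 (Vt k s mu lam))) := by
    intro x hx
    induction x using Sym2.ind with
    | _ a b =>
      simp only [Finset.coe_image, Finset.coe_univ, Set.image_univ, Set.mem_range]
      rcases hx with h | h
      · exact exists_lbl hs a b h
      · obtain ⟨l, hl⟩ := exists_lbl hs b a h
        exact ⟨l, by rw [hl, Sym2.eq_swap]⟩
  have h2 := Set.ncard_le_ncard h1 (Finset.finite_toSet _)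
  rw [Set.ncard_coe_finset] at h2
  refine h2.trans (Finset.card_image_le.trans ?_)
  rw [Finset.card_univ]
  simp only [Fintype.card_sum, Fintype.card_fin, Fintype.card_prod]
  apply le_of_eq
  ring

end Pool.Agent.R127.PathPair
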