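import Mathlib

/-!
Induced saturation in finite posets: definitions and a verified search for induced copies.
-/

namespace Pool.Agent.R127.SatSearch

/-- `F` contains an induced copy of `P`: there is an order embedding (`p ≤ q ↔ φ p ≤ φ q`) of `P`
whose image lies in `F`. -/
def HasCopy (P : Type) [PartialOrder P] {G : Type} [PartialOrder G] (F : Set G) : Prop :=
  ∃ φ : P ↪o G, ∀ p, φ p ∈ F

/-- `F` is induced `P`-saturated: it contains no induced copy of `P`, but `F ∪ {f}` contains one for
every `f` outside `F`. -/
def IsSaturated (P : Type) [PartialOrder P] {G : Type} [PartialOrder G] (F : Set G) : Prop :=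
  ¬ HasCopy P F ∧ ∀ f, f ∉ F → HasCopy P (insert f F)

/-! ### the search -/

section search

variable (le rel : ℕ → ℕ → Bool)

/-- `pre` is the list of images of `k - 1, ..., 0`; is `p` a possible image of `k`? -/
def compat (k p : ℕ) : List ℕ → Bool
  | [] => true
  | q :: qs => (le q p == rel qs.length k) && ((le p q == rel k qs.length) && compat k p qs)

/-- is there an extension of `pre` by `j` further images in `F` to a partial induced copy which
satisfies `leaf`? -/
def search (leaf : List ℕ → Bool) (F : List ℕ) : ℕ → List ℕ → Bool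
  | 0, pre => leaf pre
  | j + 1, pre => F.any fun p => compat le rel pre.length p pre && search leaf F j (p :: pre)

/-- `[x (k - 1), ..., x 0]` -/
def preList (x : ℕ → ℕ) : ℕ → List ℕ
  | 0 => []
  | k + 1 => x k :: preList x k

theorem preList_length (x : ℕ → ℕ) (k : ℕ) : (preList x k).length = k := by
  induction k with
  | zero => rfl
  | succ k ih => simp [preList, ih]

theorem mem_preList (x : ℕ → ℕ) (k y : ℕ) : y ∈ preList x k ↔ ∃ i < k, x i = y := by
  induction k with
  | zero => simp [preList]
  | succ k ih =>
    simp only [preList, List.mem_cons, ih]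
    constructor
    · rintro (h | ⟨i, hi, h⟩)
      · exact ⟨k, Nat.lt_succ_self k, h.symm⟩
      · exact ⟨i, Nat.lt_succ_of_lt hi, h⟩
    · rintro ⟨i, hi, h⟩
      rcases Nat.lt_succ_iff_lt_or_eq.mp hi with h' | h'
      · exact Or.inr ⟨i, h', h⟩
      · subst h'
        exact Or.inl h.symm

variable {le rel}

theorem compat_preList (x : ℕ → ℕ) (m k : ℕ) (hk : k < m)
    (h : ∀ i < m, ∀ j < m, le (x i) (x j) = rel i j) :
    ∀ l ≤ k, compat le rel k (x k) (preList x l) = true := by
  intro l
  induction l with
  | zero => intro _; rfl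
  | succ l ih =>
    intro hl
    simp only [preList, compat, preList_length, Bool.and_eq_true, beq_iff_eq]
    exact ⟨h l (by omega) k hk, h k hk l (by omega), ih (by omega)⟩

theorem leaf_of_search (x : ℕ → ℕ) (m : ℕ) (leaf : List ℕ → Bool) (F : List ℕ)
    (h : ∀ i < m, ∀ j < m, le (x i) (x j) = rel i j) (hF : ∀ i < m, x i ∈ F) :
    ∀ j k, j + k = m → search le rel leaf F j (preList x k) = false →
      leaf (preList x m) = false := by
  intro j
  induction j with
  | zero =>
    intro k hk hs
    have : k = m := by omega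
    subst this
    exact hs
  | succ j ih =>
    intro k hk hs
    have hkm : k < m := by omega
    refine ih (k + 1) (by omega) ?_
    simp only [search, List.any_eq_false, Bool.and_eq_true, not_and, Bool.not_eq_true] at hs
    have := hs (x k) (hF k hkm)
    rw [preList_length] at this
    exact this (compat_preList x m k hkm h k le_rfl)

/-- the images of a copy, given by its list of images, satisfies the relations -/
def goodList (m : ℕ) (le rel : ℕ → ℕ → Bool) (l : List ℕ) : Bool :=
  (List.range m).all fun i => (List.range m).all fun j => le (l.getD i 0) (l.getD j 0) == rel i j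

end search

/-! ### models of posets by relations on natural numbers -/

/-- a model of `G` on the numbers less than `N` -/
structure Model (G : Type) [PartialOrder G] (N : ℕ) (le : ℕ → ℕ → Bool) where
  /-- the point with a given number -/
  e : Fin N ≃ G
  /-- the order -/
  h : ∀ a b : Fin N, le a b = true ↔ e a ≤ e b

variable {G P : Type} [PartialOrder G] [PartialOrder P] {N m : ℕ} {le rel : ℕ → ℕ → Bool}

/-- the number of a point -/
def Model.num (M : Model G N le) (g : G) : ℕ := (M.e.symm g : Fin N)

theorem Model.num_lt (M : Model G N le) (g : G) : M.num g < N := (M.e.symm g).2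

theorem Model.num_inj (M : Model G N le) {g g' : G} (h : M.num g = M.num g') : g = g' := by
  have := Fin.ext h
  exact M.e.symm.injective this

theorem Model.num_e (M : Model G N le) (a : Fin N) : M.num (M.e a) = a := by
  simp [Model.num]

theorem Model.le_num (M : Model G N le) (g g' : G) : le (M.num g) (M.num g') = true ↔ g ≤ g' := by
  have := M.h (M.e.symm g) (M.e.symm g')
  simpa [Model.num] using this

/-- the images of a copy, as numbers -/
def imgs (M : Model G N le) (Q : Model P m rel) (φ : P ↪o G) (i : ℕ) : ℕ :=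
  if h : i < m then M.num (φ (Q.e ⟨i, h⟩)) else 0

theorem imgs_rel (M : Model G N le) (Q : Model P m rel) (φ : P ↪o G) :
    ∀ i < m, ∀ j < m, le (imgs M Q φ i) (imgs M Q φ j) = rel i j := by
  intro i hi j hj
  simp only [imgs, hi, hj, dif_pos]
  have h1 := M.le_num (φ (Q.e ⟨i, hi⟩)) (φ (Q.e ⟨j, hj⟩))
  have h2 := Q.h ⟨i, hi⟩ ⟨j, hj⟩
  rw [φ.le_iff_le] at h1
  have h3 := h1.trans h2.symm
  cases hb : le (M.num (φ (Q.e ⟨i, hi⟩))) (M.num (φ (Q.e ⟨j, hj⟩))) <;>
    cases hb' : rel i j <;> simp_all

/-- No induced copy in `F` if the search finds none. -/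
theorem not_hasCopy (M : Model G N le) (Q : Model P m rel) (F : Set G) (L : List ℕ)
    (hF : ∀ g ∈ F, M.num g ∈ L)
    (hs : search le rel (fun _ => true) L m [] = false) : ¬ HasCopy P F := by
  rintro ⟨φ, hφ⟩
  have := leaf_of_search (imgs M Q φ) m (fun _ => true) L (imgs_rel M Q φ) (by
    intro i hi
    simp only [imgs, hi, dif_pos]
    exact hF _ (hφ _)) m 0 (by omega) hs
  simp at this

/-- the numbers of the images of a copy -/
theorem mem_preList_imgs (M : Model G N le) (Q : Model P m rel) (φ : P ↪o G) (g : G) :
    M.num g ∈ preList (imgs M Q φ) m ↔ g ∈ Set.range φ := by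
  rw [mem_preList]
  constructor
  · rintro ⟨i, hi, h⟩
    simp only [imgs, hi, dif_pos] at h
    exact ⟨_, M.num_inj h⟩
  · rintro ⟨p, rfl⟩
    refine ⟨Q.e.symm p, (Q.e.symm p).2, ?_⟩
    simp [imgs]

/-- A copy from an explicit list of images. -/
theorem hasCopy_of_list (M : Model G N le) (Q : Model P m rel) (F : Set G) (l : List ℕ)
    (h1 : ∀ i < m, l.getD i 0 < N) (h2 : goodList m le rel l = true)
    (h3 : ∀ i < m, ∀ h : l.getD i 0 < N, M.e ⟨l.getD i 0, h⟩ ∈ F) : HasCopy P F := by
  have h2' : ∀ i < m, ∀ j < m, le (l.getD i 0) (l.getD j 0) = rel i j := by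
    intro i hi j hj
    simp only [goodList, List.all_eq_true, List.mem_range, beq_iff_eq] at h2
    exact h2 i hi j hj
  let f : P → G := fun p => M.e ⟨l.getD (Q.e.symm p) 0, h1 _ (Q.e.symm p).2⟩
  have hf : ∀ p q, f p ≤ f q ↔ p ≤ q := by
    intro p q
    have e1 := M.h ⟨l.getD (Q.e.symm p) 0, h1 _ (Q.e.symm p).2⟩
      ⟨l.getD (Q.e.symm q) 0, h1 _ (Q.e.symm q).2⟩
    have e2 := Q.h (Q.e.symm p) (Q.e.symm q)
    simp only [Equiv.apply_symm_apply] at e2
    rw [← e2, ← e1, h2' _ (Q.e.symm p).2 _ (Q.e.symm q).2]
  refine ⟨⟨⟨f, ?_⟩, fun {p q} => hf p q⟩, fun p => h3 _ (Q.e.symm p).2 _⟩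
  intro p q h
  exact le_antisymm ((hf p q).mp h.le) ((hf q p).mp h.ge)

/-! ### bit masks -/

/-- the bit mask of a list of numbers -/
def mask : List ℕ → ℕ
  | [] => 0
  | x :: l => 2 ^ x ||| mask l

theorem testBit_mask (l : List ℕ) (y : ℕ) : (mask l).testBit y = true ↔ y ∈ l := by
  induction l with
  | nil => simp [mask]
  | cons x l ih =>
    simp only [mask, Nat.testBit_or, Bool.or_eq_true, ih, List.mem_cons, Nat.testBit_two_pow]
    constructor
    · rintro (h | h)
      · exact Or.inl (by simpa using (of_decide_eq_true h).symm)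
      · exact Or.inr h
    · rintro (h | h)
      · exact Or.inl (by simp [h])
      · exact Or.inr h

/-- All copies have masks in `L`. -/
theorem mask_mem (M : Model G N le) (Q : Model P m rel) (φ : P ↪o G) (L : List ℕ)
    (hs : search le rel (fun l => !(L.contains (mask l))) (List.range N) m [] = false) :
    mask (preList (imgs M Q φ) m) ∈ L := by
  have := leaf_of_search (imgs M Q φ) m _ (List.range N) (imgs_rel M Q φ) (by
    intro i hi
    simp only [imgs, hi, dif_pos]
    exact List.mem_range.mpr (M.num_lt _)) m 0 (by omega) hs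
  simpa using this

/-- For every point outside a saturated family there is a copy whose only point outside the family
is this one. -/
theorem exists_private {F : Set G} (hF : IsSaturated P F) {x : G} (hx : x ∉ F) :
    ∃ φ : P ↪o G, x ∈ Set.range φ ∧ ∀ y ∈ Set.range φ, y ∉ F → y = x := by
  obtain ⟨φ, hφ⟩ := hF.2 x hx
  refine ⟨φ, ?_, ?_⟩
  · by_contra hne
    apply hF.1
    refine ⟨φ, fun p => ?_⟩
    rcases hφ p with h | h
    · exact absurd ⟨p, h⟩ hne
    · exact h
  · rintro _ ⟨p, rfl⟩ hp
    rcases hφ p with h | h
    · exact h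
    · exact absurd h hp

/-- the mask `a` has a bit outside the mask `b` -/
def priv (a b : ℕ) : Bool := !((a &&& b) == a)

theorem priv_of (a b y : ℕ) (h1 : a.testBit y = true) (h2 : b.testBit y = false) :
    priv a b = true := by
  unfold priv
  rw [Bool.not_eq_true', beq_eq_false_iff_ne]
  intro h
  have := congrArg (fun z => z.testBit y) h
  simp only [Nat.testBit_and, h1, h2] at this
  simp at this

end Pool.Agent.R127.SatSearch
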