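import Mathlib

/-!
Definitions for theta-graph embedding counts and path moments in sparse graphs.
-/

namespace Pool.Agent.R127.Theta

open Finset MeasureTheory

/-- `emb(F, G)`: the number of injective homomorphisms from `F` to `G`. -/
noncomputable def emb {U V : Type} (F : SimpleGraph U) (G : SimpleGraph V) : ℕ :=
  Nat.card {f : U → V // Function.Injective f ∧ ∀ a b, F.Adj a b → G.Adj (f a) (f b)}

/-- `s_p(F, G) = emb(F, G) / (n_{(|F|)} p^{e(F)})` for a graph `G` with `n` vertices. -/
noncomputable def sp {U : Type} (F : SimpleGraph U) {n : ℕ} (G : SimpleGraph (Fin n)) (p : ℝ) : ℝ :=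
  (emb F G : ℝ) / ((n.descFactorial (Nat.card U) : ℝ) * p ^ F.edgeSet.ncard)

/-- `p_t(u, v)`: the number of paths of length `t` from `u` to `v` in `G`. -/
noncomputable def pathCount {V : Type} (G : SimpleGraph V) (t : ℕ) (u v : V) : ℕ :=
  Nat.card {x : Fin (t + 1) → V // Function.Injective x ∧
    (∀ i : Fin t, G.Adj (x i.castSucc) (x i.succ)) ∧ x 0 = u ∧ x (Fin.last t) = v}

/-- The path moment `∑_u ∑_{v ≠ u} p_t(u, v)^k`. -/
noncomputable def pathMoment {n : ℕ} (G : SimpleGraph (Fin n)) (t k : ℕ) : ℝ :=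
  ∑ u : Fin n, ∑ v ∈ univ.erase u, (pathCount G t u v : ℝ) ^ k

/-- The relation defining the theta graph: the `j`-th path consists of
`inl false, inr (j, 0), …, inr (j, l - 2), inl true`. -/
def thetaRel (k l : ℕ) : Bool ⊕ (Fin k × Fin (l - 1)) → Bool ⊕ (Fin k × Fin (l - 1)) → Prop
  | Sum.inl a, Sum.inr (_, i) => a = false ∧ i.val = 0
  | Sum.inr (j, i), Sum.inr (j', i') => j = j' ∧ i'.val = i.val + 1
  | Sum.inr (_, i), Sum.inl a => a = true ∧ i.val + 1 = l - 1
  | Sum.inl _, Sum.inl _ => False

/-- The theta graph `H_{k,l}`: `k` internally disjoint paths of length `l` joining the same two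
vertices (for `l ≥ 2`). -/
def theta (k l : ℕ) : SimpleGraph (Bool ⊕ (Fin k × Fin (l - 1))) :=
  SimpleGraph.fromRel (thetaRel k l)

/-- A kernel with values in `[0, C]`: symmetric and measurable. -/
def IsKernel (κ : unitInterval → unitInterval → ℝ) (C : ℝ) : Prop :=
  Measurable (Function.uncurry κ) ∧ (∀ x y, κ x y = κ y x) ∧ ∀ x y, 0 ≤ κ x y ∧ κ x y ≤ C

open Classical in
/-- The kernel `κ_G` of a graph `G` with vertices `1, …, n` (here numbered `0, …, n - 1`): its value
at `(x, y)` is `1 / p` if the vertices `⌈nx⌉` and `⌈ny⌉` are adjacent, and `0` otherwise. -/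
noncomputable def graphKernel {n : ℕ} (G : SimpleGraph (Fin n)) (p : ℝ) (x y : unitInterval) : ℝ :=
  if ∃ i j : Fin n, ⌈(n : ℝ) * x⌉₊ = i.val + 1 ∧ ⌈(n : ℝ) * y⌉₊ = j.val + 1 ∧ G.Adj i j then 1 / p
  else 0

/-- The cut norm of a function on `[0,1]²`. -/
noncomputable def cutNorm (W : unitInterval → unitInterval → ℝ) : ℝ :=
  sSup {r | ∃ S T : Set unitInterval, MeasurableSet S ∧ MeasurableSet T ∧
    r = |∫ z in S ×ˢ T, W z.1 z.2|}

/-- The cut distance `d_cut(G, κ)`: the infimum over the measure-preserving bijections `φ` of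
`[0,1]` of the cut norm of `κ_G - κ^φ`. -/
noncomputable def cutDist {n : ℕ} (G : SimpleGraph (Fin n)) (p : ℝ)
    (κ : unitInterval → unitInterval → ℝ) : ℝ :=
  ⨅ φ : {φ : unitInterval ≃ᵐ unitInterval // MeasurePreserving φ volume volume},
    cutNorm fun x y => graphKernel G p x y - κ (φ.1 x) (φ.1 y)

/-! ### the graph -/

/-- the relation defining the graph: `0` and `1` are joined to `l, …, l + d - 1` and
`1, 2, …, l - 1` is a path -/
def R (l d a b : ℕ) : Prop :=
  (a ≤ 1 ∧ l ≤ b ∧ b < l + d) ∨ (1 ≤ a ∧ b = a + 1 ∧ b < l)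

/-- the graph: `K_{2,d}` with a pendant path, and isolated vertices -/
def Gr (l d n : ℕ) : SimpleGraph (Fin n) :=
  SimpleGraph.fromRel fun i j => R l d i.val j.val

variable {l d n : ℕ}

theorem adj_iff {i j : Fin n} : (Gr l d n).Adj i j ↔ i ≠ j ∧ (R l d i.val j.val ∨ R l d j.val i.val) :=
  SimpleGraph.fromRel_adj _ _ _

theorem adj_lt (hl : 3 ≤ l) {i j : Fin n} (h : (Gr l d n).Adj i j) : i.val < l + d := by
  rw [adj_iff] at h
  obtain ⟨-, (h | h) | (h | h)⟩ := h
  all_goals omega

theorem adj_small (hl : 3 ≤ l) {i j : Fin n} (h : (Gr l d n).Adj i j) : i.val < l ∨ j.val < l := by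
  rw [adj_iff] at h
  obtain ⟨-, (h | h) | (h | h)⟩ := h
  all_goals omega

/-- the counting bound -/
theorem card_bound {U : Type} [Finite U] (l M n : ℕ) :
    Nat.card {f : U → Fin n // (∀ a, (f a).val < M) ∧ ∃ a, (f a).val < l} ≤
      Nat.card U * (l * M ^ (Nat.card U - 1)) := by
  classical
  have := Fintype.ofFinite U
  rw [Nat.card_eq_fintype_card, Nat.card_eq_fintype_card, Fintype.card_subtype]
  set A : Finset (Fin n) := univ.filter fun x => x.val < l with hA
  set B : Finset (Fin n) := univ.filter fun x => x.val < M with hB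
  have hAc : A.card ≤ l := by
    rw [hA, Fin.card_filter_val_lt]
    exact min_le_right _ _
  have hBc : B.card ≤ M := by
    rw [hB, Fin.card_filter_val_lt]
    exact min_le_right _ _
  have hsub : (univ.filter fun f : U → Fin n => (∀ a, (f a).val < M) ∧ ∃ a, (f a).val < l) ⊆
      univ.biUnion fun a : U => Fintype.piFinset (Function.update (fun _ => B) a A) := by
    intro f hf
    rw [mem_filter] at hf
    obtain ⟨-, h1, a, h2⟩ := hf
    rw [mem_biUnion]
    refine ⟨a, mem_univ a, ?_⟩
    rw [Fintype.mem_piFinset]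
    intro b
    by_cases hb : b = a
    · subst hb
      rw [Function.update_self, hA, mem_filter]
      exact ⟨mem_univ _, h2⟩
    · rw [Function.update_of_ne hb, hB, mem_filter]
      exact ⟨mem_univ _, h1 b⟩
  refine (card_le_card hsub).trans ?_
  refine card_biUnion_le.trans ?_
  have hone : ∀ a : U, (Fintype.piFinset (Function.update (fun _ => B) a A)).card ≤
      l * M ^ (Fintype.card U - 1) := by
    intro a
    rw [Fintype.card_piFinset]
    have h1 : ∀ b, (Function.update (fun _ => B) a A b).card =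
        Function.update (fun _ => B.card) a A.card b := by
      intro b
      by_cases hb : b = a
      · subst hb
        rw [Function.update_self, Function.update_self]
      · rw [Function.update_of_ne hb, Function.update_of_ne hb]
    rw [Finset.prod_congr rfl (fun b _ => h1 b), Finset.prod_update_of_mem (mem_univ a),
      Finset.prod_const]
    have h2 : (univ \ {a} : Finset U).card = Fintype.card U - 1 := by
      rw [card_sdiff_of_subset (subset_univ _), card_univ, card_singleton]
    rw [h2]
    exact Nat.mul_le_mul hAc (Nat.pow_le_pow_left hBc _)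
  refine (Finset.sum_le_card_nsmul _ _ _ fun a _ => hone a).trans ?_
  rw [card_univ, smul_eq_mul]

/-- every embedding of a graph without isolated vertices is counted -/
theorem emb_le (hl : 3 ≤ l) {U : Type} [Finite U] [Nonempty U] (F : SimpleGraph U)
    (hF : ∀ a, ∃ b, F.Adj a b) :
    emb F (Gr l d n) ≤ Nat.card U * (l * (l + d) ^ (Nat.card U - 1)) := by
  refine le_trans ?_ (card_bound (U := U) l (l + d) n)
  have : Finite {f : U → Fin n // (∀ a, (f a).val < l + d) ∧ ∃ a, (f a).val < l} := inferInstance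
  refine Nat.card_le_card_of_injective (fun f => ⟨f.1, ?_, ?_⟩) ?_
  · intro a
    obtain ⟨b, hb⟩ := hF a
    exact adj_lt hl (f.2.2 a b hb)
  · obtain ⟨a⟩ := (inferInstance : Nonempty U)
    obtain ⟨b, hb⟩ := hF a
    rcases adj_small hl (f.2.2 a b hb) with h | h
    · exact ⟨a, h⟩
    · exact ⟨b, h⟩
  · intro f g hfg
    have := congrArg Subtype.val hfg
    exact Subtype.ext this

/-- the number of all paths of length `t` -/
theorem sum_pathCount_le (hl : 3 ≤ l) {t : ℕ} (ht : 1 ≤ t) :
    ∑ u : Fin n, ∑ v : Fin n, pathCount (Gr l d n) t u v ≤ (t + 1) * (l * (l + d) ^ t) := by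
  classical
  have hall : Nat.card {x : Fin (t + 1) → Fin n // Function.Injective x ∧
      ∀ i : Fin t, (Gr l d n).Adj (x i.castSucc) (x i.succ)} ≤ (t + 1) * (l * (l + d) ^ t) := by
    have h := card_bound (U := Fin (t + 1)) l (l + d) n
    rw [Nat.card_eq_fintype_card (α := Fin (t + 1)), Fintype.card_fin, Nat.add_sub_cancel] at h
    refine le_trans ?_ h
    refine Nat.card_le_card_of_injective (fun f => ⟨f.1, ?_, ?_⟩) ?_
    · intro a
      rcases Fin.eq_zero_or_eq_succ a with ha | ⟨i, hi⟩
      · have h0 := f.2.2 ⟨0, ht⟩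
        have h1 : (⟨0, ht⟩ : Fin t).castSucc = (0 : Fin (t + 1)) := rfl
        rw [h1] at h0
        rw [ha]
        exact adj_lt hl h0
      · rw [hi]
        exact adj_lt hl (f.2.2 i).symm
    · rcases adj_small hl (f.2.2 ⟨0, ht⟩) with h | h
      · exact ⟨_, h⟩
      · exact ⟨_, h⟩
    · intro f g hfg
      have := congrArg Subtype.val hfg
      exact Subtype.ext this
  refine le_trans (le_of_eq ?_) hall
  rw [Nat.card_eq_fintype_card, Fintype.card_subtype]
  rw [Finset.card_eq_sum_card_fiberwise (f := fun x => (x 0, x (Fin.last t)))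
    (t := (univ : Finset (Fin n × Fin n))) (fun _ _ => by simp)]
  rw [← Finset.univ_product_univ, Finset.sum_product]
  refine Finset.sum_congr rfl fun u _ => Finset.sum_congr rfl fun v _ => ?_
  rw [pathCount, Nat.card_eq_fintype_card, Fintype.card_subtype, Finset.filter_filter]
  congr 1
  ext x
  simp only [mem_filter, mem_univ, true_and, Prod.mk.injEq, and_assoc]

end Pool.Agent.R127.Theta
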