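import Mathlib
import Pool.Agent.R127.ThetaDefs

/-!
Combinatorial part: theta graphs in `K_{2,d}` with a pendant path.
-/

namespace Pool.Agent.R127.Theta

open Finset MeasureTheory

variable {l d n : ℕ}

theorem theta_adj {k : ℕ} {x y : Bool ⊕ (Fin k × Fin (l - 1))} :
    (theta k l).Adj x y ↔ x ≠ y ∧ (thetaRel k l x y ∨ thetaRel k l y x) :=
  SimpleGraph.fromRel_adj _ _ _

theorem adj_start {k : ℕ} (j : Fin k) (i : Fin (l - 1)) (hi : i.val = 0) :
    (theta k l).Adj (Sum.inl false) (Sum.inr (j, i)) :=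
  theta_adj.mpr ⟨Sum.inl_ne_inr, Or.inl ⟨rfl, hi⟩⟩

theorem adj_end {k : ℕ} (j : Fin k) (i : Fin (l - 1)) (hi : i.val + 1 = l - 1) :
    (theta k l).Adj (Sum.inr (j, i)) (Sum.inl true) :=
  theta_adj.mpr ⟨Sum.inr_ne_inl, Or.inl ⟨rfl, hi⟩⟩

theorem adj_mid {k : ℕ} (j : Fin k) (i i' : Fin (l - 1)) (hi : i'.val = i.val + 1) :
    (theta k l).Adj (Sum.inr (j, i)) (Sum.inr (j, i')) := by
  refine theta_adj.mpr ⟨?_, Or.inl ⟨rfl, hi⟩⟩
  intro h
  have h1 := Sum.inr_injective h
  simp only [Prod.mk.injEq, true_and] at h1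
  rw [h1] at hi
  omega

/-- the neighbour before and the neighbour after an inner vertex -/
theorem exists_two {k : ℕ} (hl : 3 ≤ l) (j : Fin k) (i : Fin (l - 1)) :
    ∃ y z, y ≠ z ∧ (theta k l).Adj (Sum.inr (j, i)) y ∧ (theta k l).Adj (Sum.inr (j, i)) z := by
  obtain ⟨i, hi⟩ := i
  rcases Nat.eq_zero_or_pos i with h0 | h0
  · subst h0
    exact ⟨Sum.inl false, Sum.inr (j, ⟨1, by omega⟩), Sum.inl_ne_inr, (adj_start j _ rfl).symm,
      adj_mid j _ _ rfl⟩
  · have hp : (theta k l).Adj (Sum.inr (j, ⟨i, hi⟩)) (Sum.inr (j, ⟨i - 1, by omega⟩)) :=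
      (adj_mid j ⟨i - 1, by omega⟩ ⟨i, hi⟩ (by simp only; omega)).symm
    by_cases h1 : i + 1 = l - 1
    · exact ⟨_, Sum.inl true, Sum.inr_ne_inl, hp, adj_end j _ h1⟩
    · refine ⟨_, Sum.inr (j, ⟨i + 1, by omega⟩), ?_, hp, adj_mid j _ _ rfl⟩
      intro h
      have h1 := Sum.inr_injective h
      simp only [Prod.mk.injEq, true_and, Fin.mk.injEq] at h1
      omega

theorem exists_two' {k : ℕ} (hl : 3 ≤ l) (hk : 2 ≤ k) (x : Bool ⊕ (Fin k × Fin (l - 1))) :
    ∃ y z, y ≠ z ∧ (theta k l).Adj x y ∧ (theta k l).Adj x z := by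
  rcases x with a | ⟨j, i⟩
  · rcases a with _ | _
    · refine ⟨Sum.inr (⟨0, by omega⟩, ⟨0, by omega⟩), Sum.inr (⟨1, by omega⟩, ⟨0, by omega⟩), ?_,
        adj_start _ _ rfl, adj_start _ _ rfl⟩
      intro h
      have h1 := Sum.inr_injective h
      simp at h1
    · refine ⟨Sum.inr (⟨0, by omega⟩, ⟨l - 2, by omega⟩),
        Sum.inr (⟨1, by omega⟩, ⟨l - 2, by omega⟩), ?_,
        (adj_end _ _ (by simp only; omega)).symm, (adj_end _ _ (by simp only; omega)).symm⟩
      intro h
      have h1 := Sum.inr_injective h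
      simp at h1
  · exact exists_two hl j i

theorem exists_one {k : ℕ} (hl : 3 ≤ l) (hk : 1 ≤ k) (x : Bool ⊕ (Fin k × Fin (l - 1))) :
    ∃ y, (theta k l).Adj x y := by
  rcases x with a | ⟨j, i⟩
  · rcases a with _ | _
    · exact ⟨Sum.inr (⟨0, by omega⟩, ⟨0, by omega⟩), adj_start _ _ rfl⟩
    · exact ⟨Sum.inr (⟨0, by omega⟩, ⟨l - 2, by omega⟩),
        (adj_end _ _ (by simp only; omega)).symm⟩
  · obtain ⟨y, -, -, h, -⟩ := exists_two hl j i
    exact ⟨y, h⟩

/-- `H_{k,l}` does not embed for `k ≥ 2`. -/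
theorem emb_theta (hl : 3 ≤ l) {k : ℕ} (hk : 2 ≤ k) : emb (theta k l) (Gr l d n) = 0 := by
  rw [emb]
  have : IsEmpty {f : Bool ⊕ (Fin k × Fin (l - 1)) → Fin n // Function.Injective f ∧
      ∀ a b, (theta k l).Adj a b → (Gr l d n).Adj (f a) (f b)} := by
    refine ⟨?_⟩
    rintro ⟨f, hinj, hf⟩
    -- no vertex is mapped to `2, …, l - 1`
    have key : ∀ s m : ℕ, m + s + 1 = l → 2 ≤ m → ∀ x, (f x).val ≠ m := by
      intro s
      induction s with
      | zero =>
        intro m hm hm2 x hx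
        obtain ⟨y, z, hyz, hy, hz⟩ := exists_two' hl hk x
        have h1 := hf _ _ hy
        have h2 := hf _ _ hz
        have h3 : (f y).val ≠ (f z).val := fun h => hyz (hinj (Fin.ext h))
        rw [adj_iff] at h1 h2
        obtain ⟨-, (h1 | h1) | (h1 | h1)⟩ := h1 <;> obtain ⟨-, (h2 | h2) | (h2 | h2)⟩ := h2 <;> omega
      | succ s ih =>
        intro m hm hm2 x hx
        obtain ⟨y, z, hyz, hy, hz⟩ := exists_two' hl hk x
        have h1 := hf _ _ hy
        have h2 := hf _ _ hz
        have h3 : (f y).val ≠ (f z).val := fun h => hyz (hinj (Fin.ext h))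
        have h4 := ih (m + 1) (by omega) (by omega) y
        have h5 := ih (m + 1) (by omega) (by omega) z
        rw [adj_iff] at h1 h2
        obtain ⟨-, (h1 | h1) | (h1 | h1)⟩ := h1 <;> obtain ⟨-, (h2 | h2) | (h2 | h2)⟩ := h2 <;> omega
    have key' : ∀ x, (f x).val ≤ 1 ∨ l ≤ (f x).val := by
      intro x
      by_contra h
      push Not at h
      exact key (l - 1 - (f x).val) (f x).val (by omega) (by omega) x rfl
    have hedge : ∀ x y, (theta k l).Adj x y → (f x).val ≤ 1 ∨ (f y).val ≤ 1 := by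
      intro x y hxy
      have h1 := hf _ _ hxy
      have h2 := key' x
      have h3 := key' y
      rw [adj_iff] at h1
      obtain ⟨-, (h1 | h1) | (h1 | h1)⟩ := h1 <;> omega
    have e1 := hedge _ _ (adj_start (l := l) (⟨0, by omega⟩ : Fin k) ⟨0, by omega⟩ rfl)
    have e2 := hedge _ _ (adj_end (l := l) (⟨0, by omega⟩ : Fin k) ⟨l - 2, by omega⟩
      (by simp only; omega))
    have e3 := hedge _ _ (adj_mid (l := l) (⟨1, by omega⟩ : Fin k) ⟨0, by omega⟩ ⟨1, by omega⟩ rfl)
    have hne : ∀ x y, x ≠ y → (f x).val ≠ (f y).val := fun x y h h' => h (hinj (Fin.ext h'))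
    have n1 := hne (Sum.inl false) (Sum.inr ((⟨0, by omega⟩ : Fin k), ⟨l - 2, by omega⟩))
      Sum.inl_ne_inr
    have n2 := hne (Sum.inl false) (Sum.inl true) (by simp)
    have n3 := hne (Sum.inl false) (Sum.inr ((⟨1, by omega⟩ : Fin k), ⟨0, by omega⟩))
      Sum.inl_ne_inr
    have n4 := hne (Sum.inl false) (Sum.inr ((⟨1, by omega⟩ : Fin k), ⟨1, by omega⟩))
      Sum.inl_ne_inr
    have n5 := hne (Sum.inr ((⟨0, by omega⟩ : Fin k), ⟨0, by omega⟩))
      (Sum.inr ((⟨0, by omega⟩ : Fin k), ⟨l - 2, by omega⟩)) (by simp; omega)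
    have n6 := hne (Sum.inr ((⟨0, by omega⟩ : Fin k), ⟨0, by omega⟩)) (Sum.inl true)
      Sum.inr_ne_inl
    have n7 := hne (Sum.inr ((⟨0, by omega⟩ : Fin k), ⟨0, by omega⟩))
      (Sum.inr ((⟨1, by omega⟩ : Fin k), ⟨0, by omega⟩)) (by simp)
    have n8 := hne (Sum.inr ((⟨0, by omega⟩ : Fin k), ⟨0, by omega⟩))
      (Sum.inr ((⟨1, by omega⟩ : Fin k), ⟨1, by omega⟩)) (by simp)
    have n9 := hne (Sum.inr ((⟨0, by omega⟩ : Fin k), ⟨l - 2, by omega⟩))
      (Sum.inr ((⟨1, by omega⟩ : Fin k), ⟨0, by omega⟩)) (by simp)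
    have n10 := hne (Sum.inr ((⟨0, by omega⟩ : Fin k), ⟨l - 2, by omega⟩))
      (Sum.inr ((⟨1, by omega⟩ : Fin k), ⟨1, by omega⟩)) (by simp)
    have n11 := hne (Sum.inl true) (Sum.inr ((⟨1, by omega⟩ : Fin k), ⟨0, by omega⟩))
      Sum.inl_ne_inr
    have n12 := hne (Sum.inl true) (Sum.inr ((⟨1, by omega⟩ : Fin k), ⟨1, by omega⟩))
      Sum.inl_ne_inr
    omega
  exact Nat.card_of_isEmpty

/-- `H_{1,l}` is a path: it has at most `l` edges. -/
theorem ncard_theta_one (hl : 3 ≤ l) : (theta 1 l).edgeSet.ncard ≤ l := by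
  classical
  set pos : ℕ → Bool ⊕ (Fin 1 × Fin (l - 1)) := fun m =>
    if m = 0 then Sum.inl false
    else if h : m - 1 < l - 1 then Sum.inr (0, ⟨m - 1, h⟩) else Sum.inl true with hpos
  have hp0 : pos 0 = Sum.inl false := by
    simp [hpos]
  have hpm : ∀ m (h : m < l - 1), pos (m + 1) = Sum.inr (0, ⟨m, h⟩) := by
    intro m h
    simp [hpos, h]
  have hpl : pos l = Sum.inl true := by
    have h1 : l ≠ 0 := by omega
    simp [hpos, h1]
  have hsub : (theta 1 l).edgeSet ⊆
      (((range l).image fun m => s(pos m, pos (m + 1)) : Finset _) : Set (Sym2 _)) := by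
    have hrel : ∀ x y, thetaRel 1 l x y → s(x, y) ∈
        ((range l).image fun m => s(pos m, pos (m + 1))) := by
      intro x y hxy
      rw [mem_image]
      rcases x with a | ⟨j, i⟩
      · rcases y with b | ⟨j', i'⟩
        · exact absurd hxy (by simp [thetaRel])
        · obtain ⟨h1, h2⟩ := hxy
          refine ⟨0, mem_range.mpr (by omega), ?_⟩
          rw [hp0, hpm 0 (by omega), h1]
          congr 3
          · exact Subsingleton.elim _ _
          · exact Fin.ext h2.symm
      · rcases y with b | ⟨j', i'⟩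
        · obtain ⟨h1, h2⟩ := hxy
          refine ⟨i.val + 1, mem_range.mpr (by omega), ?_⟩
          rw [hpm i.val i.isLt, h1]
          have h3 : i.val + 1 + 1 = l := by omega
          rw [h3, hpl]
          congr 3
          exact Subsingleton.elim _ _
        · obtain ⟨h1, h2⟩ := hxy
          refine ⟨i.val + 1, mem_range.mpr (by omega), ?_⟩
          rw [hpm i.val i.isLt, hpm (i.val + 1) (by omega)]
          congr 3
          · exact Subsingleton.elim _ _
          · exact Subsingleton.elim _ _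
          · exact Fin.ext h2.symm
    intro e he
    induction e using Sym2.ind with
    | _ x y =>
      rw [SimpleGraph.mem_edgeSet, theta_adj] at he
      rw [mem_coe]
      rcases he.2 with h | h
      · exact hrel x y h
      · rw [Sym2.eq_swap]
        exact hrel y x h
  refine (Set.ncard_le_ncard hsub (Finset.finite_toSet _)).trans ?_
  rw [Set.ncard_coe_finset]
  exact card_image_le.trans (by rw [card_range])

theorem card_theta_one (hl : 3 ≤ l) : Nat.card (Bool ⊕ (Fin 1 × Fin (l - 1))) = l + 1 := by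
  rw [Nat.card_eq_fintype_card, Fintype.card_sum, Fintype.card_prod, Fintype.card_bool,
    Fintype.card_fin, Fintype.card_fin]
  omega

/-- the number of paths of length `l` between `0` and `l - 1` -/
theorem pathCount_ge (hl : 3 ≤ l) (hn : l + d ≤ n) :
    d ≤ pathCount (Gr l d n) l ⟨0, by omega⟩ ⟨l - 1, by omega⟩ := by
  classical
  rw [pathCount, Nat.card_eq_fintype_card]
  have key : ∀ c : Fin d, ∃ x : Fin (l + 1) → Fin n, (Function.Injective x ∧
      (∀ i : Fin l, (Gr l d n).Adj (x i.castSucc) (x i.succ)) ∧ x 0 = ⟨0, by omega⟩ ∧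
      x (Fin.last l) = ⟨l - 1, by omega⟩) ∧ (x ⟨1, by omega⟩).val = l + c.val := by
    intro c
    have hc := c.isLt
    have hbound : ∀ i : Fin (l + 1),
        (if i.val = 0 then 0 else if i.val = 1 then l + c.val else i.val - 1) < n := by
      intro i
      have hi := i.isLt
      split_ifs <;> omega
    refine ⟨fun i => ⟨if i.val = 0 then 0 else if i.val = 1 then l + c.val else i.val - 1,
      hbound i⟩, ⟨?_, ?_, ?_, ?_⟩, ?_⟩
    · intro i j hij
      have h1 := congrArg Fin.val hij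
      simp only at h1
      have hi := i.isLt
      have hj := j.isLt
      apply Fin.ext
      split_ifs at h1 <;> omega
    · intro i
      have hi := i.isLt
      rw [adj_iff]
      simp only [R, Fin.val_castSucc, Fin.val_succ, ne_eq, Fin.mk.injEq]
      obtain h0 | h0 | h0 : i.val = 0 ∨ i.val = 1 ∨ 2 ≤ i.val := by omega
      · simp only [h0, if_true, zero_add, one_ne_zero, if_false]
        omega
      · simp only [h0, if_true, one_ne_zero, if_false, Nat.reduceAdd, Nat.reduceSub,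
          OfNat.ofNat_ne_zero, OfNat.ofNat_ne_one]
        omega
      · rw [if_neg (by omega), if_neg (by omega), if_neg (by omega), if_neg (by omega)]
        omega
    · apply Fin.ext
      simp
    · apply Fin.ext
      have h1 : l ≠ 0 := by omega
      have h2 : l ≠ 1 := by omega
      simp [h1, h2]
    · simp
  choose x hx hx1 using key
  have h := Fintype.card_le_of_injective (fun c : Fin d =>
    (⟨x c, hx c⟩ : {x : Fin (l + 1) → Fin n // Function.Injective x ∧
      (∀ i : Fin l, (Gr l d n).Adj (x i.castSucc) (x i.succ)) ∧ x 0 = ⟨0, by omega⟩ ∧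
      x (Fin.last l) = ⟨l - 1, by omega⟩})) (by
      intro c c' hcc
      have h1 := congrArg Subtype.val hcc
      simp only at h1
      have h2 := hx1 c
      have h3 := hx1 c'
      rw [h1] at h2
      exact Fin.ext (by omega))
  rwa [Fintype.card_fin] at h

end Pool.Agent.R127.Theta
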